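import Pool.Agent.L5helper21.FN.Place

/-!
# All points are connected by chains
-/

set_option autoImplicit false

namespace Pool.Agent.L5helper21.FN

open MvPolynomial FF Module TensorProduct
open Pool.Agent.Y118.UL (RAC)

section

variable {k : Type} [Field k] {K : Type} [Field K] [Algebra k K] {ι I : Type} {τ : I → Type}
variable {y : ι → K} {z : ∀ i, τ i → K} {F : Type} [Field F] [Algebra k F]

theorem Chain.scale_left {p p' : ι → F} (h : Chain k y z p p') (hp : IsPt k y p) {c : F}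
    (hc : c ≠ 0) : Chain k y z (fun i => c * p i) p' := by
  induction h with
  | refl _ =>
    exact Chain.scale' (.refl (hp.smul hc)) c⁻¹ (inv_ne_zero hc) fun i => by
      rw [inv_mul_cancel_left₀ hc]
  | scale d hd h ih => exact ih.scale d hd
  | step i q hp h h' h'' ih => exact ih.step i q hp h' h''

end

section

variable {k : Type} [Field k] [IsAlgClosed k] [CharZero k] {K : Type} [Field K] [Algebra k K]
  [Algebra.EssFiniteType k K] {ι I : Type} [Finite ι] {τ : I → Type} [∀ i, Finite (τ i)]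

theorem allChain {y : ι → K} (hy : y ≠ 0) {z : ∀ i, τ i → K} (hz : ∀ i, IsMor k y (z i))
    (L : I → IntermediateField k K) (hL : ∀ i, RAC (L i) K)
    (hzL : ∀ i s t, z i s / z i t ∈ L i)
    (hint : ∀ x : K, (∀ i, x ∈ L i) → ∃ a : k, algebraMap k K a = x)
    {F : Type} [Field F] [Algebra k F] {p p' : ι → F} (hp : IsPt k y p) (hp' : IsPt k y p') :
    ∃ (F₁ : Type) (_ : Field F₁) (_ : Algebra k F₁) (_ : Algebra F F₁) (_ : IsScalarTower k F F₁)
      (_ : FiniteDimensional F F₁),
      Chain k y z (fun i => algebraMap F F₁ (p i)) (fun i => algebraMap F F₁ (p' i)) := by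
  classical
  obtain ⟨Ω, _, _, f, hf, hch⟩ := genChain hy hz L hL hzL hint
  obtain ⟨a, ha⟩ := exists_ne hp.1
  obtain ⟨b, hb⟩ := exists_ne hp'.1
  obtain ⟨φ, hφ⟩ := exists_ev hp ha
  obtain ⟨φ', hφ'⟩ := exists_ev hp' hb
  have hya := hp.ne ha
  have hyb := hp'.ne hb
  let m0 : (chart k y b) ⊗[k] (chart k y a) →ₐ[k] K ⊗[k] K :=
    Algebra.TensorProduct.map (chart k y b).val (chart k y a).val
  have hm0 : Function.Injective m0 := by
    have h1 := Module.Flat.rTensor_preserves_injective_linearMap (M := chart k y a)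
      (chart k y b).val.toLinearMap Subtype.val_injective
    have h2 := Module.Flat.lTensor_preserves_injective_linearMap (M := K)
      (chart k y a).val.toLinearMap Subtype.val_injective
    have h3 : ∀ x, m0 x = LinearMap.lTensor K (chart k y a).val.toLinearMap
        (LinearMap.rTensor (chart k y a) (chart k y b).val.toLinearMap x) := by
      intro x
      induction x using TensorProduct.induction_on with
      | zero => simp
      | add x y hx hy => rw [map_add, hx, hy, map_add, map_add]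
      | tmul x y => rfl
    intro x x' h
    rw [h3, h3] at h
    exact h1 (h2 h)
  let j : (chart k y b) ⊗[k] (chart k y a) →ₐ[k] Ω := f.comp m0
  have hj : Function.Injective j := hf.comp hm0
  let β : (chart k y b) ⊗[k] (chart k y a) →ₐ[k] F :=
    Algebra.TensorProduct.lift φ' φ (fun _ _ => Commute.all _ _)
  obtain ⟨V, hV, F', _, _, ρ, π, hπ, -, -, hnorm⟩ := exists_val j hj β
  have e1 : ∀ i, j ((1 : chart k y b) ⊗ₜ chx y a i) = f (1 ⊗ₜ (y a)⁻¹) * f (1 ⊗ₜ y i) := by
    intro i
    show f ((1 : K) ⊗ₜ ((y a)⁻¹ * y i)) = _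
    rw [← map_mul, Algebra.TensorProduct.tmul_mul_tmul, one_mul]
  have e2 : ∀ i, j (chx y b i ⊗ₜ (1 : chart k y a)) = f ((y b)⁻¹ ⊗ₜ 1) * f (y i ⊗ₜ 1) := by
    intro i
    show f (((y b)⁻¹ * y i) ⊗ₜ (1 : K)) = _
    rw [← map_mul, Algebra.TensorProduct.tmul_mul_tmul, one_mul]
  have n1 : f (1 ⊗ₜ (y a)⁻¹) ≠ 0 := by
    have : (f.comp Algebra.TensorProduct.includeRight) (y a)⁻¹ ≠ 0 :=
      (map_ne_zero _).2 (inv_ne_zero hya)
    exact this
  have n2 : f ((y b)⁻¹ ⊗ₜ 1) ≠ 0 := by
    have : (f.comp Algebra.TensorProduct.includeLeft) (y b)⁻¹ ≠ 0 :=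
      (map_ne_zero _).2 (inv_ne_zero hyb)
    exact this
  have e3 : ∀ i, π ⟨j ((1 : chart k y b) ⊗ₜ chx y a i), hV _⟩ = ρ ((p a)⁻¹ * p i) := by
    intro i
    rw [hπ]
    congr 1
    show β ((1 : chart k y b) ⊗ₜ chx y a i) = _
    simp only [β, Algebra.TensorProduct.lift_tmul, map_one, one_mul]
    exact hφ i
  have e4 : ∀ i, π ⟨j (chx y b i ⊗ₜ (1 : chart k y a)), hV _⟩ = ρ ((p' b)⁻¹ * p' i) := by
    intro i
    rw [hπ]
    congr 1
    show β (chx y b i ⊗ₜ (1 : chart k y a)) = _
    simp only [β, Algebra.TensorProduct.lift_tmul, map_one, mul_one]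
    exact hφ' i
  have h1 := Chain.spec hz V.val Subtype.val_injective π hnorm hch
    (fun i => ⟨j ((1 : chart k y b) ⊗ₜ chx y a i), hV _⟩)
    (fun i => ⟨j (chx y b i ⊗ₜ (1 : chart k y a)), hV _⟩) _ _ n1 n2 e1 e2
    (by
      rw [funext e3]
      exact (hp.smul (inv_ne_zero ha)).map ρ |>.1)
    (by
      rw [funext e4]
      exact (hp'.smul (inv_ne_zero hb)).map ρ |>.1)
  rw [funext e3, funext e4] at h1
  -- descent to a finite extension
  let _ : Algebra F F' := ρ.toRingHom.toAlgebra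
  have : IsScalarTower k F F' := IsScalarTower.of_algebraMap_eq fun c => (ρ.commutes c).symm
  obtain ⟨S, hS, h2⟩ := h1.spec' hz
  let R : Subalgebra F F' := Algebra.adjoin F S
  have hft : Algebra.FiniteType F R := by
    rw [← Subalgebra.fg_iff_finiteType]
    exact ⟨hS.toFinset, by simp [R]⟩
  obtain ⟨m, hm⟩ := Ideal.exists_maximal R
  let _ : Field (R ⧸ m) := Ideal.Quotient.field m
  have : Algebra.FiniteType F (R ⧸ m) :=
    Algebra.FiniteType.of_surjective (Ideal.Quotient.mkₐ F m) (Ideal.Quotient.mkₐ_surjective F m)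
  have : Module.Finite F (R ⧸ m) := finite_of_finite_type_of_isJacobsonRing F (R ⧸ m)
  refine ⟨R ⧸ m, inferInstance, inferInstance, inferInstance, inferInstance, this, ?_⟩
  have h3 := h2 R (R.val.restrictScalars k) Subtype.val_injective
    (fun s hs => ⟨⟨s, Algebra.subset_adjoin hs⟩, rfl⟩) (R ⧸ m) (Ideal.Quotient.mkₐ k m)
    (fun i => algebraMap F R ((p a)⁻¹ * p i)) (fun i => algebraMap F R ((p' b)⁻¹ * p' i)) 1 1
    one_ne_zero one_ne_zero (fun i => by rw [one_mul]; rfl) (fun i => by rw [one_mul]; rfl)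
    (by
      have := ((hp.smul (inv_ne_zero ha)).map (IsScalarTower.toAlgHom k F (R ⧸ m))).1
      exact this)
    (by
      have := ((hp'.smul (inv_ne_zero hb)).map (IsScalarTower.toAlgHom k F (R ⧸ m))).1
      exact this)
  have h4 : Chain k y z (fun i => algebraMap F (R ⧸ m) ((p a)⁻¹ * p i))
      (fun i => algebraMap F (R ⧸ m) ((p' b)⁻¹ * p' i)) := h3
  have h5 := h4.scale_left ((hp.smul (inv_ne_zero ha)).map (IsScalarTower.toAlgHom k F (R ⧸ m)))
    (c := algebraMap F (R ⧸ m) (p a)) ((map_ne_zero _).2 ha)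
  have h6 : (fun i => algebraMap F (R ⧸ m) (p a) * algebraMap F (R ⧸ m) ((p a)⁻¹ * p i)) =
      fun i => algebraMap F (R ⧸ m) (p i) := by
    funext i
    rw [← map_mul, mul_inv_cancel_left₀ ha]
  rw [h6] at h5
  refine h5.scale' (algebraMap F (R ⧸ m) (p' b)) ((map_ne_zero _).2 hb) fun i => ?_
  rw [← map_mul, mul_inv_cancel_left₀ hb]

end

end Pool.Agent.L5helper21.FN
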