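import Pool.Agent.L5helper21.FN.AllChain

/-!
# Numerical classes and chains
-/

set_option autoImplicit false

namespace Pool.Agent.L5helper21.FN

open MvPolynomial FF Module
open Pool.Agent.Y118.UL (RAC)

section N1

variable {k : Type} [Field k] [IsAlgClosed k] [CharZero k] {K : Type} [Field K] [Algebra k K]
  {ι : Type} [Finite ι] {y : ι → K}

omit [IsAlgClosed k] [CharZero k] in
theorem ff_finite {F F₁ : Type} [Field F] [Algebra k F] [IsFF k F] [Field F₁] [Algebra k F₁]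
    [Algebra F F₁] [IsScalarTower k F F₁] [FiniteDimensional F F₁] : IsFF k F₁ where
  ess := by
    have := IsFF.ess (k := k) (K := F)
    exact Algebra.EssFiniteType.comp k F F₁
  trdeg := by
    have h1 := trdeg_add_eq k F (A := F₁)
    have h2 : Algebra.trdeg F F₁ = 0 := by
      rw [trdeg_eq_zero_iff]
      infer_instance
    rw [← h1, h2, add_zero]
    exact IsFF.trdeg

omit [IsAlgClosed k] [CharZero k] [Finite ι] in
/-- a property of the numerical classes of morphisms which is stable under linear combinations holds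
for all numerical classes -/
theorem N1.ind {P : (Curve k y → ℝ) → Prop}
    (h : ∀ (n : ℕ) (z : Fin n → K) (ℓ : Curve k y → ℝ), IsMor k y z → IsClassOf k y z ℓ → P ℓ)
    (h0 : P 0) (hadd : ∀ a b, P a → P b → P (a + b)) (hs : ∀ (c : ℝ) a, P a → P (c • a))
    (ℓ : N1 k y) : P ℓ.1 := by
  refine Submodule.span_induction (p := fun a _ => P a) ?_ h0 (fun a b _ _ ha hb => hadd a b ha hb)
    (fun c a _ ha => hs c a ha) ℓ.2
  rintro a ⟨n, z, h1, h2⟩
  exact h n z a h1 h2

variable {F F₁ : Type} [Field F] [Algebra k F] [IsFF k F] [Field F₁] [Algebra k F₁] [IsFF k F₁]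
  [Algebra F F₁] [IsScalarTower k F F₁] [FiniteDimensional F F₁]

omit [IsAlgClosed k] [CharZero k] [Finite ι] [IsFF k F] [IsFF k F₁] [FiniteDimensional F F₁] in
theorem pt_bc {p : ι → F} (hp : IsPt k y p) : IsPt k y (fun i => algebraMap F F₁ (p i)) :=
  hp.map (IsScalarTower.toAlgHom k F F₁)

theorem N1.baseChange (ℓ : N1 k y) {p : ι → F} (hp : IsPt k y p)
    (hp₁ : IsPt k y (fun i => algebraMap F F₁ (p i))) :
    ℓ.1 ⟨F₁, inferInstance, _, hp₁⟩ = finrank F F₁ * ℓ.1 ⟨F, inferInstance, p, hp⟩ := by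
  refine N1.ind (P := fun a => a ⟨F₁, inferInstance, _, hp₁⟩ =
    finrank F F₁ * a ⟨F, inferInstance, p, hp⟩) ?_ (by simp) ?_ ?_ ℓ
  · intro n z a hz ha
    obtain ⟨q, hq⟩ := hz.reg hp
    rw [ha ⟨F, inferInstance, p, hp⟩ q hq, ha ⟨F₁, inferInstance, _, hp₁⟩ _
      (hq.map (IsScalarTower.toAlgHom k F F₁))]
    have := vdeg_baseChange (k := k) (F₁ := F₁) hq.1
    simp only [IsScalarTower.coe_toAlgHom']
    rw [this]
    push_cast
    ring
  · intro a b ha hb
    rw [Pi.add_apply, Pi.add_apply, ha, hb]; ring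
  · intro c a ha
    rw [Pi.smul_apply, Pi.smul_apply, ha, smul_eq_mul, smul_eq_mul]; ring

theorem N1.scale (ℓ : N1 k y) {p : ι → F} (hp : IsPt k y p) {c : F} (hc : c ≠ 0)
    (hp' : IsPt k y (fun i => c * p i)) :
    ℓ.1 ⟨F, inferInstance, _, hp'⟩ = ℓ.1 ⟨F, inferInstance, p, hp⟩ := by
  refine N1.ind (P := fun a => a ⟨F, inferInstance, _, hp'⟩ =
    a ⟨F, inferInstance, p, hp⟩) ?_ (by simp) ?_ ?_ ℓ
  · intro n z a hz ha
    obtain ⟨q, hq⟩ := hz.reg hp
    rw [ha ⟨F, inferInstance, p, hp⟩ q hq, ha ⟨F, inferInstance, _, hp'⟩ _ (hq.smul_left hc)]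
  · intro a b ha hb
    rw [Pi.add_apply, Pi.add_apply, ha, hb]
  · intro c a ha
    rw [Pi.smul_apply, Pi.smul_apply, ha]

theorem N1.const (ℓ : N1 k y) {x : ι → k} (hx : IsPt k y x)
    (hp : IsPt k y (fun i => algebraMap k F (x i))) : ℓ.1 ⟨F, inferInstance, _, hp⟩ = 0 := by
  refine N1.ind (P := fun a => a ⟨F, inferInstance, _, hp⟩ = 0) ?_ (by simp) ?_ ?_ ℓ
  · intro n z a hz ha
    obtain ⟨q, hq⟩ := hz.2 _ hx
    rw [ha ⟨F, inferInstance, _, hp⟩ _ hq.ext']
    have := vdeg_const (F := F) q hq.1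
    simp [this]
  · intro a b ha hb
    rw [Pi.add_apply, ha, hb, add_zero]
  · intro c a ha
    rw [Pi.smul_apply, ha, smul_zero]

variable {I : Type} {τ : I → Type} {z : ∀ i, τ i → K}

theorem N1.chain (ℓ : N1 k y)
    (hℓ : ∀ i, ∃ m : N1 k (z i), ∀ (C : Curve k y) (q : τ i → C.F) (h : Sends k y (z i) C.p q),
      ℓ.1 C = m.1 (C.map q h)) {p p' : ι → F} (h : Chain k y z p p') (hp : IsPt k y p)
    (hp' : IsPt k y p') : ℓ.1 ⟨F, inferInstance, p, hp⟩ = ℓ.1 ⟨F, inferInstance, p', hp'⟩ := by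
  induction h with
  | refl _ => rfl
  | scale c hc h ih =>
    rw [ih h.right, N1.scale ℓ h.right hc hp']
  | step i q hp h h' h'' ih =>
    obtain ⟨m, hm⟩ := hℓ i
    rw [ih h.right, hm ⟨F, inferInstance, _, h.right⟩ q h', hm ⟨F, inferInstance, _, hp'⟩ q h'']
    rfl

end N1

section caseB

variable {k : Type} [Field k] [IsAlgClosed k] [CharZero k] {K : Type} [Field K] [Algebra k K]
  [Algebra.EssFiniteType k K] {ι I : Type} [Finite ι] {τ : I → Type} [∀ i, Finite (τ i)]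

/-- If no nonconstant rational function is constant on the fibres of all the morphisms, every
numerical class which comes from the images of all the morphisms is zero. -/
theorem caseB {y : ι → K} (hy : y ≠ 0) {z : ∀ i, τ i → K} (hz : ∀ i, IsMor k y (z i))
    (L : I → IntermediateField k K) (hL : ∀ i, RAC (L i) K)
    (hzL : ∀ i s t, z i s / z i t ∈ L i)
    (hint : ∀ x : K, (∀ i, x ∈ L i) → ∃ a : k, algebraMap k K a = x) (ℓ : N1 k y)
    (hℓ : ∀ i, ∃ m : N1 k (z i), ∀ (C : Curve k y) (q : τ i → C.F) (h : Sends k y (z i) C.p q),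
      ℓ.1 C = m.1 (C.map q h)) : ℓ = 0 := by
  apply Subtype.ext
  funext C
  obtain ⟨x, hx⟩ := exists_kpt (k := k) hy
  have hx' : IsPt k y (fun i => algebraMap k C.F (x i)) := hx.ext
  obtain ⟨F₁, _, _, _, _, _, hch⟩ := allChain hy hz L hL hzL hint C.pt hx'
  have hff : IsFF k F₁ := ff_finite (F := C.F)
  have e1 : (fun i => algebraMap C.F F₁ (algebraMap k C.F (x i))) =
      fun i => algebraMap k F₁ (x i) := by
    funext i
    rw [← IsScalarTower.algebraMap_apply]
  rw [e1] at hch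
  have h1 := N1.chain ℓ hℓ hch (pt_bc C.pt) hch.right
  rw [N1.const ℓ hx] at h1
  have h2 := N1.baseChange (F₁ := F₁) ℓ C.pt (pt_bc C.pt)
  rw [h1] at h2
  have h3 : (0 : ℝ) < finrank C.F F₁ := by
    exact_mod_cast finrank_pos
  have h4 : ℓ.1 C = 0 := by
    have h5 : (finrank C.F F₁ : ℝ) * ℓ.1 C = 0 := h2.symm
    exact (mul_eq_zero.1 h5).resolve_left h3.ne'
  exact h4

end caseB

end Pool.Agent.L5helper21.FN
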