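import Pool.Agent.L5helper21.FN.Pt

/-!
# Chains of points in the fibres of morphisms
-/

set_option autoImplicit false

namespace Pool.Agent.L5helper21.FN

open MvPolynomial FF Module

section chain

variable (k : Type) [Field k] {K : Type} [Field K] [Algebra k K] {ι I : Type} {τ : I → Type}

/-- The points `p`, `p'` of the variety with the generic point `y` are connected by a chain of points
such that consecutive points have the same image under one of the morphisms `z i`. -/
inductive Chain (y : ι → K) (z : ∀ i, τ i → K) {F : Type} [Field F] [Algebra k F] (p : ι → F) :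
    (ι → F) → Prop
  | refl (hp : IsPt k y p) : Chain y z p p
  | scale {p' : ι → F} (c : F) (hc : c ≠ 0) (h : Chain y z p p') : Chain y z p (fun i => c * p' i)
  | step {p' p'' : ι → F} (i : I) (q : τ i → F) (hp : IsPt k y p'') (h : Chain y z p p')
      (h' : Sends k y (z i) p' q) (h'' : Sends k y (z i) p'' q) : Chain y z p p''

variable {k}
variable {y : ι → K} {z : ∀ i, τ i → K}
variable {F : Type} [Field F] [Algebra k F] {Ω : Type} [Field Ω] [Algebra k Ω]

theorem Chain.right {p p' : ι → F} (h : Chain k y z p p') : IsPt k y p' := by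
  induction h with
  | refl hp => exact hp
  | scale c hc h ih => exact ih.smul hc
  | step i q hp h h' h'' ih => exact hp

theorem Chain.scale' {p p' p'' : ι → F} (h : Chain k y z p p') (c : F) (hc : c ≠ 0)
    (h' : ∀ i, p'' i = c * p' i) : Chain k y z p p'' := by
  rw [funext h']
  exact h.scale c hc

theorem IsPt.map {p : ι → F} (hp : IsPt k y p) (σ : F →ₐ[k] Ω) : IsPt k y (fun i => σ (p i)) := by
  obtain ⟨i, hi⟩ := exists_ne hp.1
  refine ⟨fun h => hi ((map_eq_zero σ).1 (congrFun h i)), fun m G hG h => ?_⟩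
  rw [aeval_comp', hp.2 m G hG h, map_zero]

theorem Sends.map {τ : Type} {z : τ → K} {p : ι → F} {q : τ → F} (h : Sends k y z p q)
    (σ : F →ₐ[k] Ω) : Sends k y z (fun i => σ (p i)) (fun t => σ (q t)) := by
  obtain ⟨hq, m, A, c, d, hA, hc, hd, h1, h2⟩ := h
  obtain ⟨t, ht⟩ := exists_ne hq
  refine ⟨fun h => ht ((map_eq_zero σ).1 (congrFun h t)), m, A, c, σ d,
    hA, hc, (map_ne_zero _).2 hd, h1, fun t => ?_⟩
  rw [aeval_comp', h2, map_mul]

theorem Chain.map {p p' : ι → F} (h : Chain k y z p p') (σ : F →ₐ[k] Ω) :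
    Chain k y z (fun i => σ (p i)) (fun i => σ (p' i)) := by
  induction h with
  | refl hp => exact .refl (hp.map σ)
  | scale c hc h ih => exact ih.scale' (σ c) ((map_ne_zero _).2 hc) fun i => map_mul _ _ _
  | step i q hp h h' h'' ih => exact ih.step i _ (hp.map σ) (h'.map σ) (h''.map σ)

theorem ne_of_prop {p : ι → F} {c : F} {a : ι → F} (ha : a ≠ 0)
    (h : ∀ i, a i = c * p i) : p ≠ 0 := by
  rintro rfl
  exact ha (funext fun i => by rw [h i]; simp)

/-- specialization of proportional vectors -/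
theorem prop_spec {R : Type} [CommRing R] [Algebra k R] (j : R →ₐ[k] Ω)
    (hj : Function.Injective j) (π : R →ₐ[k] F) {p : ι → Ω} {a b : ι → R} {c d : Ω}
    (ha : ∀ i, j (a i) = c * p i) (hb : ∀ i, j (b i) = d * p i) (ha' : (fun i => π (a i)) ≠ 0)
    (hb' : (fun i => π (b i)) ≠ 0) : ∃ e : F, e ≠ 0 ∧ ∀ i, π (b i) = e * π (a i) := by
  refine prop_of_cross ha' hb' fun s t => ?_
  rw [← map_mul, ← map_mul]
  congr 1
  apply hj
  rw [map_mul, map_mul, ha, ha, hb, hb]
  ring

/-- the specialization of a common image -/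
theorem Sends.spec2 [IsAlgClosed k] [Finite ι] {τ : Type} {z : τ → K} (hz : IsMor k y z)
    {R : Type} [CommRing R] [Algebra k R] (j : R →ₐ[k] Ω) (hj : Function.Injective j)
    (π : R →ₐ[k] F) {p : ι → Ω} {q : τ → Ω} {a : ι → R} {b : τ → R} {c d : Ω}
    (hp : IsPt k y p) (h : Sends k y z p q) (hc : c ≠ 0) (hd : d ≠ 0)
    (ha : ∀ i, j (a i) = c * p i) (hb : ∀ i, j (b i) = d * q i) (ha' : (fun i => π (a i)) ≠ 0)
    (hb' : (fun i => π (b i)) ≠ 0) :
    IsPt k y (fun i => π (a i)) ∧ Sends k y z (fun i => π (a i)) (fun i => π (b i)) := by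
  have h1 : IsPt k y (fun i => j (a i)) := by rw [funext ha]; exact hp.smul hc
  have h2 : IsPt k y (fun i => π (a i)) := IsPt.spec j hj π h1 ha'
  refine ⟨h2, ?_⟩
  obtain ⟨r, hr⟩ := hz.reg h2
  refine Sends.spec j hj π h1 hb' ?_ hr
  rw [funext ha, funext hb]
  exact (h.smul_left hc).smul hd

/-- specialization of chains at a valuation ring -/
theorem Chain.spec [IsAlgClosed k] [Finite ι] [∀ i, Finite (τ i)] (hz : ∀ i, IsMor k y (z i))
    {R : Type} [CommRing R] [Algebra k R] (j : R →ₐ[k] Ω) (hj : Function.Injective j)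
    (π : R →ₐ[k] F)
    (hR : ∀ (T : Type) [Finite T] (u : T → Ω), u ≠ 0 → ∃ c : Ω, c ≠ 0 ∧ ∃ v : T → R,
      (∀ t, j (v t) = c * u t) ∧ (fun t => π (v t)) ≠ 0)
    {p p' : ι → Ω} (h : Chain k y z p p') : ∀ (a b : ι → R) (c d : Ω), c ≠ 0 → d ≠ 0 →
      (∀ i, j (a i) = c * p i) → (∀ i, j (b i) = d * p' i) → (fun i => π (a i)) ≠ 0 →
      (fun i => π (b i)) ≠ 0 → Chain k y z (fun i => π (a i)) (fun i => π (b i)) := by
  induction h with
  | refl hp =>
    intro a b c d hc hd ha hb ha' hb'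
    obtain ⟨e, he, h1⟩ := prop_spec j hj π ha hb ha' hb'
    refine Chain.scale' (Chain.refl (IsPt.spec j hj π ?_ ha')) e he h1
    rw [funext ha]
    exact hp.smul hc
  | @scale p' e he h ih =>
    intro a b c d hc hd ha hb ha' hb'
    exact ih a b c (d * e) hc (mul_ne_zero hd he) ha (fun i => by rw [hb i, mul_assoc]) ha' hb'
  | @step p' p'' i q hp h h' h'' ih =>
    intro a b c d hc hd ha hb ha' hb'
    obtain ⟨e, he, v, hv, hv'⟩ := hR ι p' h.right.1
    obtain ⟨f, hf, w, hw, hw'⟩ := hR (τ i) q h'.1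
    have h1 := ih a v c e hc he ha hv ha' hv'
    have h2 := Sends.spec2 (hz i) j hj π h.right h' he hf hv hw hv' hw'
    have h3 := Sends.spec2 (hz i) j hj π hp h'' hd hf hb hw hb' hw'
    exact h1.step i _ h3.1 h2.2 h3.2

/-- specialization of chains at a ring which contains the ratios of finitely many coordinates -/
theorem Chain.spec' [IsAlgClosed k] [Finite ι] [∀ i, Finite (τ i)] (hz : ∀ i, IsMor k y (z i))
    {p p' : ι → Ω} (h : Chain k y z p p') : ∃ S : Set Ω, S.Finite ∧ ∀ (R : Type) [CommRing R]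
      [Algebra k R] (j : R →ₐ[k] Ω), Function.Injective j → (∀ s ∈ S, ∃ r, j r = s) →
      ∀ (F : Type) [Field F] [Algebra k F] (π : R →ₐ[k] F) (a b : ι → R) (c d : Ω), c ≠ 0 →
      d ≠ 0 → (∀ i, j (a i) = c * p i) → (∀ i, j (b i) = d * p' i) → (fun i => π (a i)) ≠ 0 →
      (fun i => π (b i)) ≠ 0 → Chain k y z (fun i => π (a i)) (fun i => π (b i)) := by
  induction h with
  | refl hp =>
    refine ⟨∅, Set.finite_empty, ?_⟩
    intro R _ _ j hj _ F _ _ π a b c d hc hd ha hb ha' hb'
    obtain ⟨e, he, h1⟩ := prop_spec j hj π ha hb ha' hb'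
    refine Chain.scale' (Chain.refl (IsPt.spec j hj π ?_ ha')) e he h1
    rw [funext ha]
    exact hp.smul hc
  | @scale p' e he h ih =>
    obtain ⟨S, hS, ih⟩ := ih
    refine ⟨S, hS, ?_⟩
    intro R _ _ j hj hR F _ _ π a b c d hc hd ha hb ha' hb'
    exact ih R j hj hR F π a b c (d * e) hc (mul_ne_zero hd he) ha
      (fun i => by rw [hb i, mul_assoc]) ha' hb'
  | @step p' p'' i q hp h h' h'' ih =>
    obtain ⟨S, hS, ih⟩ := ih
    obtain ⟨s, hs⟩ := exists_ne h.right.1
    obtain ⟨t, ht⟩ := exists_ne h'.1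
    refine ⟨S ∪ (Set.range fun i => (p' s)⁻¹ * p' i) ∪ Set.range fun i => (q t)⁻¹ * q i,
      (hS.union (Set.finite_range _)).union (Set.finite_range _), ?_⟩
    intro R _ _ j hj hR F _ _ π a b c d hc hd ha hb ha' hb'
    have e1 : ∀ i, ∃ r, j r = (p' s)⁻¹ * p' i := fun i => hR _ (Or.inl (Or.inr ⟨i, rfl⟩))
    have e2 : ∀ i, ∃ r, j r = (q t)⁻¹ * q i := fun i => hR _ (Or.inr ⟨i, rfl⟩)
    choose v hv using e1
    choose w hw using e2
    have hv' : (fun i => π (v i)) ≠ 0 := by
      intro h0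
      have h1 : v s = 1 := hj (by rw [hv, map_one, inv_mul_cancel₀ hs])
      have := congrFun h0 s
      simp only [Pi.zero_apply, h1, map_one] at this
      exact one_ne_zero this
    have hw' : (fun i => π (w i)) ≠ 0 := by
      intro h0
      have h1 : w t = 1 := hj (by rw [hw, map_one, inv_mul_cancel₀ ht])
      have := congrFun h0 t
      simp only [Pi.zero_apply, h1, map_one] at this
      exact one_ne_zero this
    have h1 := ih R j hj (fun s hs => hR s (Or.inl (Or.inl hs))) F π a v c _ hc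
      (inv_ne_zero hs) ha hv ha' hv'
    have h2 := Sends.spec2 (hz i) j hj π h.right h' (inv_ne_zero hs) (inv_ne_zero ht) hv hw hv' hw'
    have h3 := Sends.spec2 (hz i) j hj π hp h'' hd (inv_ne_zero ht) hb hw hb' hw'
    exact h1.step i _ h3.1 h2.2 h3.2

end chain

end Pool.Agent.L5helper21.FN
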