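import Mathlib

/-!
# Convex geometry: a polyhedral cone is simplicial if the faces have enough functions
-/

set_option autoImplicit false

namespace Pool.Agent.L5helper21.FN

open Module
open scoped NNReal

section convex

variable {V : Type*} [AddCommGroup V] [Module ℝ V] {S : Set (Dual ℝ V)} {h : V}

/-- the elements of the cone over `T` are nonnegative on `v` if those of `T` are -/
theorem cone_nonneg {T : Set (Dual ℝ V)} {v : V} (hT : ∀ x ∈ T, 0 ≤ x v) {u : Dual ℝ V}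
    (hu : u ∈ Submodule.span ℝ≥0 T) : 0 ≤ u v := by
  induction hu using Submodule.span_induction with
  | mem x hx => exact hT x hx
  | zero => simp
  | add a b _ _ ha hb => exact add_nonneg ha hb
  | smul c a _ ha =>
    show 0 ≤ (c : ℝ) * a v
    exact mul_nonneg c.2 ha

theorem cone_zero {T : Set (Dual ℝ V)} (hT : ∀ x ∈ T, x = 0 ∨ 0 < x h) {u : Dual ℝ V}
    (hu : u ∈ Submodule.span ℝ≥0 T) : 0 ≤ u h ∧ (u h = 0 → u = 0) := by
  induction hu using Submodule.span_induction with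
  | mem x hx =>
    rcases hT x hx with rfl | h0
    · simp
    · exact ⟨h0.le, fun h1 => absurd h1 h0.ne'⟩
  | zero => simp
  | add a b _ _ ha hb =>
    refine ⟨add_nonneg ha.1 hb.1, fun h0 => ?_⟩
    have h1 : a h + b h = 0 := h0
    have h2 := ha.1
    have h3 := hb.1
    rw [ha.2 (by linarith), hb.2 (by linarith), add_zero]
  | smul c a _ ha =>
    refine ⟨mul_nonneg c.2 ha.1, fun h0 => ?_⟩
    have h1 : (c : ℝ) * a h = 0 := h0
    rcases mul_eq_zero.1 h1 with h2 | h2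
    · have : c = 0 := NNReal.coe_eq_zero.1 h2
      rw [this, zero_smul]
    · rw [ha.2 h2, smul_zero]

/-- an irredundant finite set of generators of a polyhedral cone -/
theorem exists_min {NE : Set (Dual ℝ V)} {n : ℕ} (c : Fin n → Dual ℝ V) (hc : ∀ i, c i ∈ S)
    (hNE : ∀ x ∈ NE, ∃ t : Fin n → ℝ, (∀ i, 0 ≤ t i) ∧ x = ∑ i, t i • c i) :
    ∃ T : Finset (Dual ℝ V), (∀ x ∈ T, x ∈ S) ∧
      (∀ x ∈ NE, x ∈ Submodule.span ℝ≥0 (T : Set (Dual ℝ V))) ∧
      ∀ x ∈ T, x ∉ Submodule.span ℝ≥0 ((T : Set (Dual ℝ V)) \ {x}) := by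
  classical
  let P : Finset (Dual ℝ V) → Prop := fun T => (∀ x ∈ T, x ∈ S) ∧
    ∀ x ∈ NE, x ∈ Submodule.span ℝ≥0 (T : Set (Dual ℝ V))
  have h0 : P (Finset.univ.image c) := by
    refine ⟨fun x hx => ?_, fun x hx => ?_⟩
    · obtain ⟨i, -, rfl⟩ := Finset.mem_image.1 hx
      exact hc i
    · obtain ⟨t, ht, rfl⟩ := hNE x hx
      refine Submodule.sum_mem _ fun i _ => ?_
      have h1 : t i • c i = (⟨t i, ht i⟩ : ℝ≥0) • c i := rfl
      rw [h1]
      exact Submodule.smul_mem _ _ (Submodule.subset_span (by simp))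
  have h1 : ∃ m, ∃ T, P T ∧ T.card = m := ⟨_, _, h0, rfl⟩
  obtain ⟨T, hT, hcard⟩ := Nat.find_spec h1
  refine ⟨T, hT.1, hT.2, fun x hx hx1 => ?_⟩
  have h2 : P (T.erase x) := by
    refine ⟨fun u hu => hT.1 u (Finset.mem_of_mem_erase hu), fun u hu => ?_⟩
    have h3 := hT.2 u hu
    have h4 : Submodule.span ℝ≥0 (T : Set (Dual ℝ V)) ≤
        Submodule.span ℝ≥0 ((T.erase x : Finset _) : Set (Dual ℝ V)) := by
      rw [Submodule.span_le]
      intro w hw
      by_cases hwx : w = x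
      · rw [hwx, Finset.coe_erase]
        exact hx1
      · exact Submodule.subset_span (Finset.mem_coe.2 (Finset.mem_erase.2 ⟨hwx, hw⟩))
    exact h4 h3
  have h3 := Nat.find_min' h1 ⟨_, h2, rfl⟩
  rw [← hcard] at h3
  exact absurd (Finset.card_erase_lt_of_mem hx) (not_lt.2 h3)

/-- an irredundant generator spans an extremal ray -/
theorem extremal {NE : Set (Dual ℝ V)} {T : Set (Dual ℝ V)} (hT : ∀ x ∈ T, x = 0 ∨ 0 < x h)
    (hNE : ∀ x ∈ NE, x ∈ Submodule.span ℝ≥0 T) {x : Dual ℝ V} (hx : x ∈ T)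
    (hmin : x ∉ Submodule.span ℝ≥0 (T \ {x})) {a b : Dual ℝ V} (ha : a ∈ NE) (hb : b ∈ NE)
    (hab : ∃ t : ℝ, 0 ≤ t ∧ a + b = t • x) :
    (∃ t : ℝ, 0 ≤ t ∧ a = t • x) ∧ ∃ t : ℝ, 0 ≤ t ∧ b = t • x := by
  have hx0 : x ≠ 0 := fun h0 => hmin (by rw [h0]; exact Submodule.zero_mem _)
  have hxh : 0 < x h := (hT x hx).resolve_left hx0
  have hins : T = insert x (T \ {x}) := by
    rw [Set.insert_sdiff_singleton, Set.insert_eq_of_mem hx]
  have hT' : ∀ u ∈ T \ {x}, u = 0 ∨ 0 < u h := fun u hu => hT u hu.1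
  have ha1 := hNE a ha
  have hb1 := hNE b hb
  rw [hins, Submodule.mem_span_insert] at ha1 hb1
  obtain ⟨α, a', ha', rfl⟩ := ha1
  obtain ⟨β, b', hb', rfl⟩ := hb1
  obtain ⟨t, ht, hab⟩ := hab
  have e1 : a' + b' = (t - α - β) • x := by
    ext v
    have h1 : (α : ℝ) * x v + a' v + ((β : ℝ) * x v + b' v) = t * x v :=
      congrArg (fun u : Dual ℝ V => u v) hab
    show a' v + b' v = (t - α - β) * x v
    linarith
  have hle : t - α - β ≤ 0 := by
    by_contra hc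
    push Not at hc
    apply hmin
    have h2 := Submodule.smul_mem _ (⟨(t - α - β)⁻¹, by positivity⟩ : ℝ≥0)
      (Submodule.add_mem _ ha' hb')
    have h1 : (t - α - β)⁻¹ • (a' + b') = x := by
      rw [e1]
      ext v
      show (t - α - β)⁻¹ * ((t - α - β) * x v) = x v
      rw [← mul_assoc, inv_mul_cancel₀ hc.ne', one_mul]
    have key : ∀ u : Dual ℝ V, u = x → u ∈ Submodule.span ℝ≥0 (T \ {x}) →
        x ∈ Submodule.span ℝ≥0 (T \ {x}) := fun u hu hu' => hu ▸ hu'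
    exact key _ h1 h2
  have e2 : a' h + b' h = (t - α - β) * x h := by
    have := congrArg (fun u : Dual ℝ V => u h) e1
    simpa using this
  have h3 := cone_zero hT' ha'
  have h4 := cone_zero hT' hb'
  have h5 : (t - α - β) * x h ≤ 0 := mul_nonpos_of_nonpos_of_nonneg hle hxh.le
  have h6 : a' = 0 := h3.2 (by linarith [h3.1, h4.1])
  have h7 : b' = 0 := h4.2 (by linarith [h3.1, h4.1])
  exact ⟨⟨α, α.2, by rw [h6, add_zero]; rfl⟩, ⟨β, β.2, by rw [h7, add_zero]; rfl⟩⟩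

/-- separation by vectors of `V` -/
theorem exists_sep [FiniteDimensional ℝ V] {W : Submodule ℝ (Dual ℝ V)} {φ : Dual ℝ V}
    (hφ : φ ∉ W) : ∃ ℓ : V, (∀ x ∈ W, x ℓ = 0) ∧ φ ℓ ≠ 0 := by
  obtain ⟨f, h1, h2⟩ := Submodule.exists_le_ker_of_notMem hφ
  obtain ⟨ℓ, rfl⟩ := (Module.evalEquiv ℝ V).surjective f
  refine ⟨ℓ, fun x hx => ?_, ?_⟩
  · have := h2 hx
    simpa using this
  · simpa using h1

/-- A finite set of functionals which separates, such that the faces have enough functions, is a basis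
of the dual space. -/
theorem indep [FiniteDimensional ℝ V] {T : Set (Dual ℝ V)}
    (hmin : ∀ x ∈ T, x ∉ Submodule.span ℝ≥0 (T \ {x}))
    (hsep : ∀ v : V, (∀ x ∈ T, x v = 0) → v = 0)
    (hδ : ∀ Y ⊆ T, (∃ ℓ : V, ℓ ≠ 0 ∧ ∀ x ∈ Y, x ℓ = 0) → ∃ δ : V, δ ≠ 0 ∧ (∀ x ∈ T, 0 ≤ x δ) ∧
      ∀ x ∈ Y, x δ = 0) : LinearIndependent ℝ ((↑) : T → Dual ℝ V) := by
  classical
  obtain ⟨b, hbT, hspan, hli⟩ := exists_linearIndependent ℝ T
  by_cases hb : T ⊆ b
  · have : b = T := Set.Subset.antisymm hbT hb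
    rwa [this] at hli
  exfalso
  obtain ⟨x₀, hx₀, hx₀b⟩ := Set.not_subset.1 hb
  have h1 : x₀ ∈ Submodule.span ℝ b := by
    rw [hspan]
    exact Submodule.subset_span hx₀
  have hbx : b ⊆ T \ {x₀} := fun u hu => ⟨hbT hu, fun h3 => hx₀b (h3 ▸ hu)⟩
  have hx₀' : x₀ ∉ Submodule.span ℝ≥0 b := fun h2 => hmin x₀ hx₀ (Submodule.span_mono hbx h2)
  obtain ⟨c, hc⟩ := (Finsupp.mem_span_iff_linearCombination ℝ b x₀).1 h1
  obtain ⟨b₁, hb₁⟩ : ∃ b₁ : b, c b₁ < 0 := by
    by_contra hcon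
    push Not at hcon
    apply hx₀'
    have h3 : ∑ i ∈ c.support, (⟨c i, hcon i⟩ : ℝ≥0) • (i : Dual ℝ V) ∈
        Submodule.span ℝ≥0 b :=
      Submodule.sum_mem _ fun i _ => Submodule.smul_mem _ _ (Submodule.subset_span i.2)
    have key : ∀ u : Dual ℝ V, u = x₀ → u ∈ Submodule.span ℝ≥0 b →
        x₀ ∈ Submodule.span ℝ≥0 b := fun u hu hu' => hu ▸ hu'
    exact key _ hc h3
  -- a vector killed by the others
  have h3 : (b₁ : Dual ℝ V) ∉ Submodule.span ℝ (b \ {(b₁ : Dual ℝ V)}) := by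
    have := hli.notMem_span_image (s := {b₁}ᶜ) (x := b₁) (by simp)
    convert this using 2
    ext u
    simp
  obtain ⟨ℓ, hℓ, hℓ1⟩ := exists_sep h3
  obtain ⟨δ, hδ0, hδT, hδY⟩ := hδ (b \ {(b₁ : Dual ℝ V)}) (fun u hu => hbT hu.1)
    ⟨ℓ, fun h4 => hℓ1 (by rw [h4, map_zero]), fun u hu => hℓ u (Submodule.subset_span hu)⟩
  have h4 : x₀ δ = c b₁ * (b₁ : Dual ℝ V) δ := by
    have h5 : x₀ δ = ∑ i ∈ c.support, c i * (i : Dual ℝ V) δ := by
      rw [← hc, Finsupp.linearCombination_apply, Finsupp.sum, LinearMap.sum_apply]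
      rfl
    rw [h5]
    refine Finset.sum_eq_single b₁ (fun i _ hi => ?_) fun hi => ?_
    · rw [hδY i ⟨i.2, fun h6 => hi (Subtype.ext h6)⟩, mul_zero]
    · rw [Finsupp.notMem_support_iff.1 hi, zero_mul]
  have h5 := hδT x₀ hx₀
  have h6 := hδT b₁ (hbT b₁.2)
  have h7 : (b₁ : Dual ℝ V) δ = 0 := by
    rw [h4] at h5
    by_contra h8
    have h9 : 0 < (b₁ : Dual ℝ V) δ := lt_of_le_of_ne h6 (Ne.symm h8)
    exact absurd h5 (not_le.2 (mul_neg_of_neg_of_pos hb₁ h9))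
  have h9 : ∀ u ∈ Submodule.span ℝ b, u δ = 0 := by
    intro u hu
    induction hu using Submodule.span_induction with
    | mem u hu =>
      by_cases hub : u = b₁
      · rw [hub]
        exact h7
      · exact hδY u ⟨hu, hub⟩
    | zero => rfl
    | add u w _ _ hu hw =>
      show u δ + w δ = 0
      rw [hu, hw, add_zero]
    | smul a u _ hu =>
      show a * u δ = 0
      rw [hu, mul_zero]
  refine hδ0 (hsep δ fun x hx => h9 x ?_)
  rw [hspan]
  exact Submodule.subset_span hx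

/-- A finite separating linearly independent set of functionals comes from coordinates. -/
theorem exists_basis [FiniteDimensional ℝ V] {T : Set (Dual ℝ V)} (hfin : T.Finite)
    (hsep : ∀ v : V, (∀ x ∈ T, x v = 0) → v = 0)
    (hli : LinearIndependent ℝ ((↑) : T → Dual ℝ V)) :
    ∃ (n : ℕ) (b : Basis (Fin n) ℝ V) (e : Fin n ≃ T), ∀ (i : Fin n) (v : V),
      b.repr v i = (e i : Dual ℝ V) v := by
  classical
  have : Fintype T := hfin.fintype
  have hspan : ⊤ ≤ Submodule.span ℝ (Set.range ((↑) : T → Dual ℝ V)) := by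
    intro φ _
    by_contra hφ
    obtain ⟨ℓ, h1, h2⟩ := exists_sep hφ
    have h3 : ℓ = 0 := hsep ℓ fun x hx => h1 x (Submodule.subset_span ⟨⟨x, hx⟩, rfl⟩)
    exact h2 (by rw [h3, map_zero])
  let B : Basis T ℝ (Dual ℝ V) := Basis.mk hli hspan
  let B' : Basis T ℝ V := B.dualBasis.map (Module.evalEquiv ℝ V).symm
  let e := Fintype.equivFin T
  refine ⟨Fintype.card T, B'.reindex e, e.symm, fun i v => ?_⟩
  rw [Basis.repr_reindex_apply]
  show (B.dualBasis.map (Module.evalEquiv ℝ V).symm).repr v (e.symm i) = _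
  rw [Basis.map_repr]
  show B.dualBasis.repr (Module.evalEquiv ℝ V v) (e.symm i) = _
  rw [Basis.dualBasis_repr]
  show (B (e.symm i)) v = _
  rw [Basis.mk_apply]

end convex

end Pool.Agent.L5helper21.FN
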