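import Pool.Agent.L5helper21.FN.Convex

/-!
# Convex geometry: dual cones of finitely generated cones, and their extremal rays
-/

set_option autoImplicit false

namespace Pool.Agent.L5helper21.FN

open Module
open scoped NNReal

section dual

variable {V : Type*} [AddCommGroup V] [Module ℝ V] {n : ℕ} {ℓ : Fin n → V}

/-- the largest multiple which can be subtracted -/
theorem exists_sub {a b : Dual ℝ V} (ha : ∀ j, 0 ≤ a (ℓ j)) (hb : ∀ j, 0 ≤ b (ℓ j))
    (hb0 : ∃ j, b (ℓ j) ≠ 0) : ∃ r : ℝ, 0 ≤ r ∧ (∀ j, 0 ≤ a (ℓ j) - r * b (ℓ j)) ∧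
      ∃ j, b (ℓ j) ≠ 0 ∧ a (ℓ j) - r * b (ℓ j) = 0 := by
  classical
  let S : Finset (Fin n) := Finset.univ.filter fun j => b (ℓ j) ≠ 0
  have hS : S.Nonempty := by
    obtain ⟨j, hj⟩ := hb0
    exact ⟨j, by simp [S, hj]⟩
  obtain ⟨j, hj, hmin⟩ := S.exists_min_image (fun j => a (ℓ j) / b (ℓ j)) hS
  have hj' : b (ℓ j) ≠ 0 := by simpa [S] using hj
  refine ⟨a (ℓ j) / b (ℓ j), div_nonneg (ha j) (hb j), fun i => ?_, j, hj', ?_⟩
  · by_cases hi : b (ℓ i) = 0
    · rw [hi, mul_zero, sub_zero]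
      exact ha i
    · have h1 := hmin i (by simp [S, hi])
      have h2 : 0 < b (ℓ i) := lt_of_le_of_ne (hb i) (Ne.symm hi)
      rw [le_div_iff₀ h2] at h1
      linarith
  · rw [div_mul_cancel₀ _ hj', sub_self]

/-- The dual cone of a finitely generated cone is finitely generated. -/
theorem dual_fg (hsp : ∀ x : Dual ℝ V, (∀ j, x (ℓ j) = 0) → x = 0) :
    ∃ T : Finset (Dual ℝ V), (∀ x ∈ T, ∀ j, 0 ≤ x (ℓ j)) ∧
      ∀ x : Dual ℝ V, (∀ j, 0 ≤ x (ℓ j)) → x ∈ Submodule.span ℝ≥0 (T : Set (Dual ℝ V)) := by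
  classical
  let Q : Finset (Fin n) → Dual ℝ V → Prop := fun J x => (∀ j, 0 ≤ x (ℓ j)) ∧
    (∀ j ∈ J, x (ℓ j) = 0) ∧ ∀ u : Dual ℝ V, (∀ j, 0 ≤ u (ℓ j)) → (∀ j ∈ J, u (ℓ j) = 0) →
      ∃ t : ℝ, 0 ≤ t ∧ u = t • x
  let g : Finset (Fin n) → Dual ℝ V := fun J => if h : ∃ x, Q J x then h.choose else 0
  have hg : ∀ J, (∃ x, Q J x) → Q J (g J) := by
    intro J h
    show Q J (if h : ∃ x, Q J x then h.choose else 0)
    rw [dif_pos h]
    exact h.choose_spec
  have hg0 : ∀ J j, 0 ≤ g J (ℓ j) := by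
    intro J j
    by_cases h : ∃ x, Q J x
    · exact (hg J h).1 j
    · have : g J = 0 := dif_neg h
      rw [this]
      simp
  refine ⟨Finset.univ.image g, ?_, ?_⟩
  · intro x hx j
    obtain ⟨J, -, rfl⟩ := Finset.mem_image.1 hx
    exact hg0 J j
  let N : Dual ℝ V → ℕ := fun x => (Finset.univ.filter fun j => x (ℓ j) ≠ 0).card
  have key : ∀ (m : ℕ) (x : Dual ℝ V), N x ≤ m → (∀ j, 0 ≤ x (ℓ j)) →
      x ∈ Submodule.span ℝ≥0 ((Finset.univ.image g : Finset (Dual ℝ V)) : Set (Dual ℝ V)) := by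
    intro m
    induction m with
    | zero =>
      intro x hx _
      have h1 : x = 0 := by
        refine hsp x fun j => ?_
        have h2 := Finset.card_eq_zero.1 (Nat.le_zero.1 hx)
        by_contra h3
        have h4 : j ∈ (Finset.univ.filter fun j => x (ℓ j) ≠ 0) := by simp [h3]
        rw [h2] at h4
        exact absurd h4 (Finset.notMem_empty j)
      rw [h1]
      exact Submodule.zero_mem _
    | succ m ih =>
      intro x hx hx0
      by_cases hz : x = 0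
      · rw [hz]
        exact Submodule.zero_mem _
      let J : Finset (Fin n) := Finset.univ.filter fun j => x (ℓ j) = 0
      by_cases hQ : ∀ u : Dual ℝ V, (∀ j, 0 ≤ u (ℓ j)) → (∀ j ∈ J, u (ℓ j) = 0) →
          ∃ t : ℝ, 0 ≤ t ∧ u = t • x
      · have h1 : Q J x := ⟨hx0, fun j hj => by simpa [J] using hj, hQ⟩
        have h2 := hg J ⟨x, h1⟩
        obtain ⟨t, ht, h3⟩ := h2.2.2 x h1.1 h1.2.1
        have h4 : (⟨t, ht⟩ : ℝ≥0) • g J ∈
            Submodule.span ℝ≥0 ((Finset.univ.image g : Finset (Dual ℝ V)) : Set (Dual ℝ V)) :=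
          Submodule.smul_mem _ _ (Submodule.subset_span (by simp))
        have h5 : ∀ u : Dual ℝ V, u = x → u ∈ Submodule.span ℝ≥0
            ((Finset.univ.image g : Finset (Dual ℝ V)) : Set (Dual ℝ V)) → x ∈ Submodule.span ℝ≥0
            ((Finset.univ.image g : Finset (Dual ℝ V)) : Set (Dual ℝ V)) := fun u hu hu' => hu ▸ hu'
        exact h5 _ h3.symm h4
      · push Not at hQ
        obtain ⟨u, hu, huJ, hux⟩ := hQ
        have hxj : ∃ j, x (ℓ j) ≠ 0 := by
          by_contra hc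
          push Not at hc
          exact hz (hsp x hc)
        obtain ⟨s, hs, h1, j₀, h2, h3⟩ := exists_sub hu hx0 hxj
        let u' : Dual ℝ V := u - s • x
        have hu'v : ∀ v, u' v = u v - s * x v := fun v => rfl
        have hu'0 : ∃ j, u' (ℓ j) ≠ 0 := by
          by_contra hc
          push Not at hc
          exact hux s hs (sub_eq_zero.1 (hsp u' hc))
        have hu'1 : ∀ j, x (ℓ j) = 0 → u' (ℓ j) = 0 := by
          intro j hj
          rw [hu'v, huJ j (by simp [J, hj]), hj, mul_zero, sub_zero]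
        have hu'N : N u' < N x := by
          refine Finset.card_lt_card (Finset.ssubset_iff.2 ⟨j₀, ?_, ?_⟩)
          · simp only [Finset.mem_filter, Finset.mem_univ, true_and, not_not]
            exact h3
          · intro j hj
            rw [Finset.mem_insert] at hj
            rcases hj with rfl | hj
            · simpa using h2
            · simp only [Finset.mem_filter, Finset.mem_univ, true_and] at hj ⊢
              exact fun h4 => hj (hu'1 j h4)
        obtain ⟨r, hr, h4, j₁, h5, h6⟩ := exists_sub hx0 h1 hu'0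
        let x' : Dual ℝ V := x - r • u'
        have hx'v : ∀ v, x' v = x v - r * u' v := fun v => rfl
        have hx'N : N x' < N x := by
          refine Finset.card_lt_card (Finset.ssubset_iff.2 ⟨j₁, ?_, ?_⟩)
          · simp only [Finset.mem_filter, Finset.mem_univ, true_and, not_not]
            exact h6
          · intro j hj
            rw [Finset.mem_insert] at hj
            rcases hj with rfl | hj
            · simp only [Finset.mem_filter, Finset.mem_univ, true_and]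
              exact fun h7 => h5 (hu'1 _ h7)
            · simp only [Finset.mem_filter, Finset.mem_univ, true_and] at hj ⊢
              intro h7
              apply hj
              rw [hx'v, h7, hu'1 j h7, mul_zero, sub_zero]
        have h7 := ih u' (by omega) h1
        have h8 := ih x' (by omega) h4
        have h9 := Submodule.add_mem _ h8 (Submodule.smul_mem _ (⟨r, hr⟩ : ℝ≥0) h7)
        have h10 : x' + r • u' = x := sub_add_cancel _ _
        have h11 : ∀ u : Dual ℝ V, u = x → u ∈ Submodule.span ℝ≥0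
            ((Finset.univ.image g : Finset (Dual ℝ V)) : Set (Dual ℝ V)) → x ∈ Submodule.span ℝ≥0
            ((Finset.univ.image g : Finset (Dual ℝ V)) : Set (Dual ℝ V)) := fun u hu hu' => hu ▸ hu'
        exact h11 _ h10 h9
  exact fun x hx => key _ x le_rfl hx

/-- a small multiple of a functional can be added to an element `x` of the dual cone, if the functional
vanishes on the generators on which `x` vanishes -/
theorem exists_small {x φ : Dual ℝ V} (hx : ∀ j, 0 ≤ x (ℓ j))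
    (hφ : ∀ j, x (ℓ j) = 0 → φ (ℓ j) = 0) :
    ∃ ε : ℝ, 0 < ε ∧ ∀ j, 0 ≤ x (ℓ j) - ε * φ (ℓ j) ∧ 0 ≤ x (ℓ j) + ε * φ (ℓ j) := by
  classical
  have h1 : ∀ j, ∃ ε : ℝ, 0 < ε ∧ ∀ ε' : ℝ, 0 < ε' → ε' ≤ ε → ε' * |φ (ℓ j)| ≤ x (ℓ j) := by
    intro j
    by_cases hj : x (ℓ j) = 0
    · refine ⟨1, one_pos, fun ε' _ _ => ?_⟩
      rw [hφ j hj, hj, abs_zero, mul_zero]
    · have h2 : 0 < x (ℓ j) := lt_of_le_of_ne (hx j) (Ne.symm hj)
      refine ⟨x (ℓ j) / (|φ (ℓ j)| + 1), by positivity, fun ε' h3 h4 => ?_⟩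
      rw [le_div_iff₀ (by positivity)] at h4
      nlinarith [abs_nonneg (φ (ℓ j))]
  choose ε hε hε' using h1
  by_cases hn : Nonempty (Fin n)
  · obtain ⟨j₀, -, hj₀⟩ := Finset.univ.exists_min_image ε Finset.univ_nonempty
    refine ⟨ε j₀, hε j₀, fun j => ?_⟩
    have h2 := hε' j (ε j₀) (hε j₀) (hj₀ j (Finset.mem_univ j))
    have h3 := neg_abs_le (φ (ℓ j))
    have h4 := le_abs_self (φ (ℓ j))
    have h5 := hε j₀
    constructor <;> nlinarith
  · exact ⟨1, one_pos, fun j => absurd ⟨j⟩ hn⟩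

/-- the ray of an extremal element is cut out by the generators which vanish on it -/
theorem ray_of_vanish {x : Dual ℝ V} (hx : ∀ j, 0 ≤ x (ℓ j))
    (hext : ∀ a b : Dual ℝ V, (∀ j, 0 ≤ a (ℓ j)) → (∀ j, 0 ≤ b (ℓ j)) →
      (∃ t : ℝ, 0 ≤ t ∧ a + b = t • x) → (∃ t : ℝ, 0 ≤ t ∧ a = t • x) ∧ ∃ t : ℝ, 0 ≤ t ∧ b = t • x)
    {u : Dual ℝ V} (hu : ∀ j, 0 ≤ u (ℓ j)) (hux : ∀ j, x (ℓ j) = 0 → u (ℓ j) = 0) :
    ∃ t : ℝ, 0 ≤ t ∧ u = t • x := by
  obtain ⟨ε, hε, h1⟩ := exists_small hx hux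
  obtain ⟨-, t, ht, h2⟩ := hext (x - ε • u) (ε • u) (fun j => (h1 j).1)
    (fun j => mul_nonneg hε.le (hu j)) ⟨1, zero_le_one, by rw [sub_add_cancel, one_smul]⟩
  refine ⟨ε⁻¹ * t, by positivity, ?_⟩
  rw [mul_smul, ← h2, smul_smul, inv_mul_cancel₀ hε.ne', one_smul]

/-- a vector on which an extremal element vanishes is a combination of the generators on which it
vanishes -/
theorem span_of_vanish {x : Dual ℝ V} (hx : ∀ j, 0 ≤ x (ℓ j))
    (hext : ∀ a b : Dual ℝ V, (∀ j, 0 ≤ a (ℓ j)) → (∀ j, 0 ≤ b (ℓ j)) →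
      (∃ t : ℝ, 0 ≤ t ∧ a + b = t • x) → (∃ t : ℝ, 0 ≤ t ∧ a = t • x) ∧ ∃ t : ℝ, 0 ≤ t ∧ b = t • x)
    {v : V} (hv : x v = 0) : v ∈ Submodule.span ℝ (ℓ '' {j | x (ℓ j) = 0}) := by
  by_contra hc
  obtain ⟨φ, h1, h2⟩ := Submodule.exists_le_ker_of_notMem hc
  have h3 : ∀ j, x (ℓ j) = 0 → φ (ℓ j) = 0 := fun j hj =>
    h2 (Submodule.subset_span ⟨j, hj, rfl⟩)
  obtain ⟨ε, hε, h4⟩ := exists_small hx h3
  obtain ⟨-, t, ht, h5⟩ := hext (x - ε • φ) (x + ε • φ) (fun j => (h4 j).1) (fun j => (h4 j).2)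
    ⟨2, zero_le_two, by
      rw [two_smul]
      abel⟩
  apply h1
  have h6 : x v + ε * φ v = t * x v := congrArg (fun u : Dual ℝ V => u v) h5
  rw [hv, mul_zero, zero_add] at h6
  exact (mul_eq_zero.1 h6).resolve_left hε.ne'

/-- an irredundant finite set of generators -/
theorem exists_min' {NE : Set (Dual ℝ V)} {T₀ : Finset (Dual ℝ V)} (hT₀ : ∀ x ∈ T₀, x ∈ NE)
    (hNE : ∀ x ∈ NE, x ∈ Submodule.span ℝ≥0 (T₀ : Set (Dual ℝ V))) :
    ∃ T : Finset (Dual ℝ V), (∀ x ∈ T, x ∈ NE) ∧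
      (∀ x ∈ NE, x ∈ Submodule.span ℝ≥0 (T : Set (Dual ℝ V))) ∧
      ∀ x ∈ T, x ∉ Submodule.span ℝ≥0 ((T : Set (Dual ℝ V)) \ {x}) := by
  classical
  let P : Finset (Dual ℝ V) → Prop := fun T => (∀ x ∈ T, x ∈ NE) ∧
    ∀ x ∈ NE, x ∈ Submodule.span ℝ≥0 (T : Set (Dual ℝ V))
  have h1 : ∃ m, ∃ T, P T ∧ T.card = m := ⟨_, T₀, ⟨hT₀, hNE⟩, rfl⟩
  obtain ⟨T, hT, hcard⟩ := Nat.find_spec h1
  refine ⟨T, hT.1, hT.2, fun x hx hx1 => ?_⟩
  have h2 : P (T.erase x) := by
    refine ⟨fun u hu => hT.1 u (Finset.mem_of_mem_erase hu), fun u hu => ?_⟩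
    have h3 := hT.2 u hu
    have h4 : Submodule.span ℝ≥0 (T : Set (Dual ℝ V)) ≤
        Submodule.span ℝ≥0 ((T.erase x : Finset _) : Set (Dual ℝ V)) := by
      rw [Submodule.span_le]
      intro w hw
      by_cases hwx : w = x
      · rw [hwx, Finset.coe_erase]
        exact hx1
      · exact Submodule.subset_span (Finset.mem_coe.2 (Finset.mem_erase.2 ⟨hwx, hw⟩))
    exact h4 h3
  have h3 := Nat.find_min' h1 ⟨_, h2, rfl⟩
  rw [← hcard] at h3
  exact absurd (Finset.card_erase_lt_of_mem hx) (not_lt.2 h3)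

end dual

end Pool.Agent.L5helper21.FN
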