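import Pool.Agent.Helper386.D5V.Helper386_FF_RR

/-!
# Projective varieties by generic points: points, morphisms, curves, numerical classes

`k` is an algebraically closed field, `K` an extension field. The vector `y` of elements of `K` is
the generic point, in homogeneous coordinates, of a projective variety `X` over `k`: the forms over
`k` which vanish on `X` are those which vanish at `y`.
-/

set_option autoImplicit false

namespace Pool.Agent.L5helper21.FN

open MvPolynomial FF

section points

variable (k : Type) [Field k] {K : Type} [Field K] [Algebra k K] {ι τ : Type}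

/-- `p` are the homogeneous coordinates of a point, with coordinates in the extension field `F` of
`k`, of the projective variety over `k` with the generic point `y`. -/
def IsPt (y : ι → K) {F : Type} [Field F] [Algebra k F] (p : ι → F) : Prop :=
  p ≠ 0 ∧ ∀ (m : ℕ) (G : MvPolynomial ι k), G.IsHomogeneous m → aeval y G = 0 → aeval p G = 0

/-- The rational map from the variety with the generic point `y` to a projective space which maps
`y` to `z` is regular at the point `p` and maps it to the point `q`: near `p` it is given by forms
`A t` of the same degree which have no common zero at `p`. -/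
def Sends (y : ι → K) (z : τ → K) {F : Type} [Field F] [Algebra k F] (p : ι → F) (q : τ → F) :
    Prop :=
  q ≠ 0 ∧ ∃ (m : ℕ) (A : τ → MvPolynomial ι k) (c : K) (d : F), (∀ t, (A t).IsHomogeneous m) ∧
    c ≠ 0 ∧ d ≠ 0 ∧ (∀ t, aeval y (A t) = c * z t) ∧ ∀ t, aeval p (A t) = d * q t

/-- The rational map which maps the generic point `y` of `X` to `z` is a morphism from `X` to a
projective space: it is regular at all the points of `X`. -/
def IsMor (y : ι → K) (z : τ → K) : Prop :=
  z ≠ 0 ∧ ∀ p : ι → k, IsPt k y p → ∃ q : τ → k, Sends k y z p q

/-- The field of rational functions of the projective variety with the generic point `z`. -/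
def ratF (z : τ → K) : IntermediateField k K :=
  IntermediateField.adjoin k (Set.range fun s : τ × τ => z s.1 / z s.2)

/-- The local ring at the point `p` of the variety with the generic point `y`: the quotients of two
forms of the same degree such that the denominator is not zero at `p`. -/
def localRing (y : ι → K) (p : ι → k) : Subalgebra k K where
  carrier := {φ | ∃ (m : ℕ) (A B : MvPolynomial ι k), A.IsHomogeneous m ∧ B.IsHomogeneous m ∧
    aeval p B ≠ 0 ∧ φ * aeval y B = aeval y A}
  mul_mem' := by
    rintro a b ⟨m, A, B, hA, hB, h0, h1⟩ ⟨n, A', B', hA', hB', h0', h1'⟩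
    refine ⟨m + n, A * A', B * B', hA.mul hA', hB.mul hB', ?_, ?_⟩
    · rw [map_mul]; exact mul_ne_zero h0 h0'
    · rw [map_mul, map_mul, ← h1, ← h1']; ring
  add_mem' := by
    rintro a b ⟨m, A, B, hA, hB, h0, h1⟩ ⟨n, A', B', hA', hB', h0', h1'⟩
    refine ⟨m + n, A * B' + B * A', B * B', (hA.mul hB').add (hB.mul hA'), hB.mul hB', ?_, ?_⟩
    · rw [map_mul]; exact mul_ne_zero h0 h0'
    · rw [map_add, map_mul, map_mul, map_mul, ← h1, ← h1']; ring
  algebraMap_mem' := by
    intro c
    refine ⟨0, C c, 1, isHomogeneous_C _ _, isHomogeneous_one _ _, by simp, by simp⟩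

/-- The variety is locally factorial: its local rings are unique factorisation domains. -/
def LocallyFactorial (y : ι → K) : Prop :=
  ∀ p : ι → k, IsPt k y p → UniqueFactorizationMonoid (localRing k y p)

end points

section basic

variable {k : Type} [Field k] {K : Type} [Field K] [Algebra k K] {ι τ : Type}

theorem hom_smul {F : Type} [Field F] [Algebra k F] {G : MvPolynomial ι k} {m : ℕ}
    (hG : G.IsHomogeneous m) (c : F) (p : ι → F) :
    aeval (fun i => c * p i) G = c ^ m * aeval p G := by
  rw [aeval_def, aeval_def, eval₂_eq, eval₂_eq, Finset.mul_sum]
  refine Finset.sum_congr rfl fun d hd => ?_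
  have h1 := hG.degree_eq_sum_deg_support hd
  have h2 : ∏ i ∈ d.support, (c * p i) ^ d i = c ^ m * ∏ i ∈ d.support, p i ^ d i := by
    rw [h1, ← Finset.prod_pow_eq_pow_sum, ← Finset.prod_mul_distrib]
    exact Finset.prod_congr rfl fun i _ => mul_pow _ _ _
  rw [h2]; ring

variable {F : Type} [Field F] [Algebra k F]

theorem IsPt.smul {y : ι → K} {p : ι → F} (h : IsPt k y p) {c : F} (hc : c ≠ 0) :
    IsPt k y (fun i => c * p i) := by
  refine ⟨fun h0 => h.1 (funext fun i => ?_), fun m G hG h1 => ?_⟩
  · have := congrFun h0 i
    simp only [Pi.zero_apply, mul_eq_zero] at this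
    simpa [hc] using this
  · rw [hom_smul hG, h.2 m G hG h1, mul_zero]

/-- The image of a point is a point of the image. -/
theorem Sends.isPt {y : ι → K} {z : τ → K} {p : ι → F} {q : τ → F} (hp : IsPt k y p)
    (h : Sends k y z p q) : IsPt k z q := by
  obtain ⟨hq, m, A, c, d, hA, hc, hd, h1, h2⟩ := h
  refine ⟨hq, fun n G hG h0 => ?_⟩
  have e1 : aeval y (aeval A G) = 0 := by
    have : aeval y (aeval A G) = aeval (fun t => aeval y (A t)) G := by
      rw [← AlgHom.comp_apply]
      congr 1
      ext t; simp
    rw [this, funext h1, hom_smul hG, h0, mul_zero]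
  have e2 := hp.2 (m * n) (aeval A G) (hG.aeval A hA) e1
  have e3 : aeval p (aeval A G) = aeval (fun t => aeval p (A t)) G := by
    rw [← AlgHom.comp_apply]
    congr 1
    ext t; simp
  rw [e3, funext h2, hom_smul hG] at e2
  exact (mul_eq_zero.1 e2).resolve_left (pow_ne_zero _ hd)

end basic

section curves

variable (k : Type) [Field k] {K : Type} [Field K] [Algebra k K] {ι τ : Type}

/-- A curve on the variety `X` with the generic point `y`: a function field `F` of one variable over
`k` and a point of `X` with coordinates in `F`, that is, a morphism to `X` from the smooth projective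
curve with the function field `F`. -/
structure Curve (y : ι → K) where
  /-- the function field of the curve -/
  F : Type
  [field : Field F]
  [algebra : Algebra k F]
  ff : IsFF k F
  /-- the homogeneous coordinates of the generic point of the curve -/
  p : ι → F
  pt : IsPt k y p

attribute [instance] Curve.field Curve.algebra Curve.ff

/-- The smallest order at the place `v` of the coordinates of the vector `q`. -/
noncomputable def vmin {F : Type} [Field F] [Algebra k F] (v : Place k F) (q : τ → F) : ℤ :=
  ⨅ t : {t // q t ≠ 0}, v.ord (q t)

/-- The degree of the pull back of `O(1)` by the map, to a projective space, of the smooth projective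
curve with function field `F` given by the vector `q`. (The constant field is algebraically closed,
so all places have degree one.) -/
noncomputable def vdeg {F : Type} [Field F] [Algebra k F] (q : τ → F) : ℤ :=
  - ∑ᶠ v : Place k F, vmin k v q

/-- `ℓ` is the numerical class of the line bundle `z ^* O(1)` on `X`, as a function on the curves. -/
def IsClassOf (y : ι → K) (z : τ → K) (ℓ : Curve k y → ℝ) : Prop :=
  ∀ (C : Curve k y) (q : τ → C.F), Sends k y z C.p q → ℓ C = vdeg k q

/-- The real vector space `N^1(X)` of the numerical classes of line bundles with real coefficients,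
as functions on the curves on `X`. (Every line bundle on a projective variety is a difference of two
line bundles which are pull backs of `O(1)` by morphisms to projective spaces.) -/
def N1 (y : ι → K) : Submodule ℝ (Curve k y → ℝ) :=
  Submodule.span ℝ {ℓ | ∃ (n : ℕ) (z : Fin n → K), IsMor k y z ∧ IsClassOf k y z ℓ}

/-- The morphism `z` maps the curve `C` to a point. -/
def Contracts (y : ι → K) (z : τ → K) (C : Curve k y) : Prop :=
  ∃ q : τ → k, Sends k y z C.p (fun t => algebraMap k C.F (q t))

/-- The cone in the real vector space `V` is simplicial: it is the set of the vectors with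
nonnegative coordinates with respect to a basis. -/
def Simplicial {V : Type*} [AddCommGroup V] [Module ℝ V] (S : Set V) : Prop :=
  ∃ (n : ℕ) (b : Module.Basis (Fin n) ℝ V), S = {v | ∀ i, 0 ≤ b.repr v i}

end curves

end Pool.Agent.L5helper21.FN
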