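import Pool.Agent.L5helper21.FN.Sel

/-!
# Rational functions, local rings, and curves through general points
-/

set_option autoImplicit false

namespace Pool.Agent.L5helper21.FN

open MvPolynomial FF Module

section ratio

variable {k : Type} [Field k] {K : Type} [Field K] [Algebra k K] {ι τ : Type}

/-- rational functions are quotients of forms of the same degree -/
theorem exists_ratio {y : ι → K} {f : K} (hf : f ∈ ratF k y) :
    ∃ (d : ℕ) (A B : MvPolynomial ι k), A.IsHomogeneous d ∧ B.IsHomogeneous d ∧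
      aeval y B ≠ 0 ∧ f * aeval y B = aeval y A := by
  refine IntermediateField.adjoin_induction k (p := fun f _ => ∃ (d : ℕ) (A B : MvPolynomial ι k),
    A.IsHomogeneous d ∧ B.IsHomogeneous d ∧ aeval y B ≠ 0 ∧ f * aeval y B = aeval y A)
    ?_ ?_ ?_ ?_ ?_ hf
  · rintro _ ⟨⟨s, t⟩, rfl⟩
    by_cases ht : y t = 0
    · refine ⟨0, 0, 1, isHomogeneous_zero _ _ _, isHomogeneous_one _ _, by simp, ?_⟩
      simp [ht]
    · refine ⟨1, X s, X t, isHomogeneous_X _ _, isHomogeneous_X _ _, by simpa using ht, ?_⟩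
      rw [aeval_X, aeval_X]
      exact div_mul_cancel₀ _ ht
  · intro c
    exact ⟨0, C c, 1, isHomogeneous_C _ _, isHomogeneous_one _ _, by simp, by simp⟩
  · rintro a b _ _ ⟨m, A, B, hA, hB, h0, h1⟩ ⟨n, A', B', hA', hB', h0', h1'⟩
    refine ⟨m + n, A * B' + B * A', B * B', (hA.mul hB').add (hB.mul hA'), hB.mul hB', ?_, ?_⟩
    · rw [map_mul]; exact mul_ne_zero h0 h0'
    · rw [map_add, map_mul, map_mul, map_mul, ← h1, ← h1']; ring
  · rintro a _ ⟨m, A, B, hA, hB, h0, h1⟩
    by_cases ha : a = 0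
    · refine ⟨0, 0, 1, isHomogeneous_zero _ _ _, isHomogeneous_one _ _, by simp, ?_⟩
      simp [ha]
    · refine ⟨m, B, A, hB, hA, ?_, ?_⟩
      · rw [← h1]; exact mul_ne_zero ha h0
      · rw [← h1, inv_mul_cancel_left₀ ha]
  · rintro a b _ _ ⟨m, A, B, hA, hB, h0, h1⟩ ⟨n, A', B', hA', hB', h0', h1'⟩
    refine ⟨m + n, A * A', B * B', hA.mul hA', hB.mul hB', ?_, ?_⟩
    · rw [map_mul]; exact mul_ne_zero h0 h0'
    · rw [map_mul, map_mul, ← h1, ← h1']; ring

theorem ratio_mem (y : ι → K) (s t : ι) : y s / y t ∈ ratF k y :=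
  IntermediateField.subset_adjoin _ _ ⟨(s, t), rfl⟩

theorem inv_mul_mem (y : ι → K) (s t : ι) : (y t)⁻¹ * y s ∈ ratF k y := by
  rw [inv_mul_eq_div]; exact ratio_mem y s t

theorem ess_of_rat [Finite ι] {y : ι → K} (hK : ratF k y = ⊤) : Algebra.EssFiniteType k K := by
  have h1 : Algebra.EssFiniteType k (ratF k y) := by
    rw [IntermediateField.essFiniteType_iff]
    exact ⟨(Set.finite_range fun s : ι × ι => y s.1 / y s.2).toFinset, by simp [ratF]⟩
  rw [hK] at h1
  exact (Algebra.EssFiniteType.iff_of_algEquiv (IntermediateField.topEquiv (F := k) (E := K))).1 h1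

variable {F : Type} [Field F] [Algebra k F]

theorem rel_at {y : ι → K} {p : ι → F} (hp : IsPt k y p) {m : ℕ} {A B : MvPolynomial ι k}
    (hA : A.IsHomogeneous m) (hB : B.IsHomogeneous m) (h : aeval y A = aeval y B) :
    aeval p A = aeval p B := by
  have h1 : aeval y (A - B) = 0 := by rw [map_sub, h, sub_self]
  have h2 := hp.2 m _ (hA.sub hB) h1
  rw [map_sub] at h2
  exact sub_eq_zero.1 h2

/-- if the ratios of the coordinates are in the local ring, the map is regular -/
theorem sends_of_local [Finite τ] {y : ι → K} {z : τ → K} {x : ι → k} (hx : IsPt k y x) {t : τ}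
    (ht : z t ≠ 0) (h : ∀ s, z s / z t ∈ localRing k y x) : ∃ q : τ → k, Sends k y z x q := by
  classical
  have : Fintype τ := Fintype.ofFinite τ
  choose m C E hC hE hE0 hCE using h
  have hC' : ∀ s, aeval y (C s) = z s / z t * aeval y (E s) := fun s => (hCE s).symm
  have hEy : ∀ s, aeval y (E s) ≠ 0 := by
    intro s h0
    exact hE0 s (hx.2 _ _ (hE s) h0)
  let A : τ → MvPolynomial ι k := fun s => C s * ∏ s' ∈ Finset.univ.erase s, E s'
  have hA : ∀ s, (A s).IsHomogeneous (∑ s, m s) := by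
    intro s
    have h1 := (hC s).mul (IsHomogeneous.prod (Finset.univ.erase s) E m fun s' _ => hE s')
    rwa [Finset.add_sum_erase _ _ (Finset.mem_univ s)] at h1
  have hAy : ∀ s, aeval y (A s) = (∏ s, aeval y (E s)) / z t * z s := by
    intro s
    simp only [A, map_mul, map_prod]
    rw [hC', ← Finset.mul_prod_erase Finset.univ (fun s => aeval y (E s)) (Finset.mem_univ s)]
    field_simp
  have hAt : aeval x (A t) ≠ 0 := by
    simp only [A, map_mul, map_prod]
    refine mul_ne_zero ?_ (Finset.prod_ne_zero_iff.2 fun s _ => hE0 s)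
    have h1 : aeval y (C t) = aeval y (E t) := by rw [hC', div_self ht, one_mul]
    rw [rel_at hx (hC t) (hE t) h1]
    exact hE0 t
  refine ⟨fun s => aeval x (A s), fun h => hAt (congrFun h t), ∑ s, m s, A,
    (∏ s, aeval y (E s)) / z t, 1, hA, ?_, one_ne_zero, hAy, fun s => (one_mul _).symm⟩
  exact div_ne_zero (Finset.prod_ne_zero_iff.2 fun s _ => hEy s) ht

end ratio

section cls

variable {k : Type} [Field k] [IsAlgClosed k] [CharZero k] {K : Type} [Field K] [Algebra k K]
  {ι τ : Type} [Finite ι] [Finite τ] {y : ι → K} {z : τ → K}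

theorem exists_class (hz : IsMor k y z) : ∃ ℓ : Curve k y → ℝ, IsClassOf k y z ℓ := by
  refine ⟨fun C => vdeg k (hz.reg C.pt).choose, fun C q hq => ?_⟩
  obtain ⟨c, hc, h1⟩ := hq.unique C.pt (hz.reg C.pt).choose_spec
  show ((vdeg k (hz.reg C.pt).choose : ℤ) : ℝ) = _
  rw [funext h1, vdeg_smul hq.1 hc]

omit [IsAlgClosed k] [CharZero k] [Finite ι] in
theorem mem_N1 (hz : IsMor k y z) {ℓ : Curve k y → ℝ} (h : IsClassOf k y z ℓ) :
    ℓ ∈ N1 k y := by
  obtain ⟨n, ⟨e⟩⟩ := Finite.exists_equiv_fin τ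
  refine Submodule.subset_span ⟨n, fun j => z (e.symm j), ⟨fun h0 => hz.1 ?_, fun x hx => ?_⟩, ?_⟩
  · funext t
    have := congrFun h0 (e t)
    simpa using this
  · obtain ⟨q, hq, m, A, c, d, hA, hc, hd, h1, h2⟩ := hz.2 x hx
    refine ⟨fun j => q (e.symm j), fun h0 => hq ?_, m, fun j => A (e.symm j), c, d,
      fun j => hA _, hc, hd, fun j => h1 _, fun j => h2 _⟩
    funext t
    have := congrFun h0 (e t)
    simpa using this
  · rintro C q ⟨hq, m, A, c, d, hA, hc, hd, h1, h2⟩
    have h3 : Sends k y z C.p (fun t => q (e t)) := by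
      refine ⟨fun h0 => hq ?_, m, fun t => A (e t), c, d, fun t => hA _, hc, hd, fun t => ?_,
        fun t => h2 _⟩
      · funext j
        have := congrFun h0 (e.symm j)
        simpa using this
      · rw [h1]
        show c * z (e.symm (e t)) = _
        rw [e.symm_apply_apply]
    rw [h C _ h3]
    have h4 : ∀ v : Place k C.F, vmin k v (fun t => q (e t)) = vmin k v q := by
      intro v
      unfold vmin
      refine Equiv.iInf_congr (e.subtypeEquiv fun t => Iff.rfl) fun t => rfl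
    unfold vdeg
    simp only [h4]

/-- the hyperplane class -/
theorem exists_h (hy : y ≠ 0) : ∃ h : N1 k y, ∀ C : Curve k y, h.1 C = vdeg k C.p := by
  obtain ⟨ℓ, hℓ⟩ := exists_class (isMor_self (k := k) hy)
  exact ⟨⟨ℓ, mem_N1 (isMor_self hy) hℓ⟩, fun C => hℓ C _ (sends_self C.pt)⟩

end cls

section curve

variable {k : Type} [Field k] [IsAlgClosed k] [CharZero k] {K : Type} [Field K] [Algebra k K]
  {ι τ : Type} [Finite ι] [Finite τ] {y : ι → K} {z : τ → K}

/-- A curve, mapped to a point by the morphism `z`, through a general point, on which `t` is not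
constant. -/
theorem exists_curve_pt (hy : y ≠ 0) (hK : ratF k y = ⊤) (L : IntermediateField k K) {t : K}
    (ht : Transcendental L t) (G : Finset (MvPolynomial ι k))
    (hG : ∀ g ∈ G, (∃ m, g.IsHomogeneous m) ∧ aeval y g ≠ 0) (hz : IsMor k y z)
    (hzL : ∀ s t, z s / z t ∈ L) (E : Finset (MvPolynomial τ k))
    (hE : ∀ g ∈ E, (∃ m, g.IsHomogeneous m) ∧ aeval z g ≠ 0) :
    ∃ (C : Curve k y) (u : τ → k), (∀ g ∈ G, aeval C.p g ≠ 0) ∧
      Sends k y z C.p (fun s => algebraMap k C.F (u s)) ∧ (∀ g ∈ E, aeval u g ≠ 0) ∧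
      0 < vdeg k C.p ∧ ∀ (m : ℕ) (A B : MvPolynomial ι k), A.IsHomogeneous m →
        B.IsHomogeneous m → t * aeval y B = aeval y A → aeval C.p B ≠ 0 →
        Transcendental k (aeval C.p A / aeval C.p B) := by
  classical
  have : Fintype ι := Fintype.ofFinite ι
  have : Fintype τ := Fintype.ofFinite τ
  obtain ⟨a, ha⟩ := exists_ne hy
  obtain ⟨b, hb⟩ := exists_ne hz.1
  obtain ⟨dt, At, Bt, hAt, hBt, hBt0, hABt⟩ : ∃ (d : ℕ) (A B : MvPolynomial ι k),
      A.IsHomogeneous d ∧ B.IsHomogeneous d ∧ aeval y B ≠ 0 ∧ t * aeval y B = aeval y A :=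
    exists_ratio (by rw [hK]; trivial)
  let η : ι → K := fun i => (y a)⁻¹ * y i
  let ζ : τ → K := fun s => (z b)⁻¹ * z s
  have hηm : ∀ {m : ℕ} {g : MvPolynomial ι k}, g.IsHomogeneous m →
      aeval η g = (y a)⁻¹ ^ m * aeval y g := fun hg => hom_smul hg _ _
  have hζm : ∀ {m : ℕ} {g : MvPolynomial τ k}, g.IsHomogeneous m →
      aeval ζ g = (z b)⁻¹ ^ m * aeval z g := fun hg => hom_smul hg _ _
  let S : Finset K := Finset.univ.image η ∪ Finset.univ.image ζ ∪
    (insert Bt G).image (fun g => aeval η g) ∪ E.image (fun g => aeval ζ g)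
  obtain ⟨F, _, _, hff, R, _, _, j, φ, hj, ⟨r0, hr0, hr0'⟩, hS⟩ := exists_curve L ht S
  have e1 : ∀ i, ∃ r, j r = η i := fun i => by
    obtain ⟨r, hr, -⟩ := hS (η i) (by simp [S])
    exact ⟨r, hr⟩
  have e2 : ∀ s, ∃ r, j r = ζ s ∧ ∃ u : k, φ r = algebraMap k F u := fun s => by
    obtain ⟨r, hr, -, h2⟩ := hS (ζ s) (by simp [S])
    refine ⟨r, hr, h2 ?_⟩
    simp only [ζ]
    rw [inv_mul_eq_div]
    exact hzL s b
  choose ρ hρ using e1
  choose σ hσ u hu using e2
  have hjη : ∀ g : MvPolynomial ι k, j (aeval ρ g) = aeval η g := by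
    intro g
    rw [← aeval_comp', funext hρ]
  have hjζ : ∀ g : MvPolynomial τ k, j (aeval σ g) = aeval ζ g := by
    intro g
    rw [← aeval_comp', funext hσ]
  obtain ⟨hp, hpa⟩ := isPt_of_hom (k := k) ha j hj φ hρ
  have hub : u b = 1 := by
    have h1 : σ b = 1 := hj (by rw [hσ, map_one]; exact inv_mul_cancel₀ hb)
    have h2 := hu b
    rw [h1, map_one] at h2
    exact (algebraMap k F).injective (by rw [map_one]; exact h2.symm)
  have hu0 : u ≠ 0 := by
    rintro rfl
    exact zero_ne_one hub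
  have hφη : ∀ g ∈ insert Bt G, aeval η g ≠ 0 → aeval (fun i => φ (ρ i)) g ≠ 0 := by
    intro g hg h0
    obtain ⟨r, hr, h1, -⟩ := hS (aeval η g) (by
      simp only [S, Finset.mem_union]
      exact Or.inl (Or.inr (Finset.mem_image_of_mem _ hg)))
    have h2 : r = aeval ρ g := hj (by rw [hr, hjη])
    rw [aeval_comp', ← h2]
    exact h1 h0
  have hBtp : aeval (fun i => φ (ρ i)) Bt ≠ 0 := by
    refine hφη Bt (Finset.mem_insert_self _ _) ?_
    rw [hηm hBt]
    exact mul_ne_zero (pow_ne_zero _ (inv_ne_zero ha)) hBt0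
  -- the value of `t`
  have htr : ∀ (m : ℕ) (A B : MvPolynomial ι k), A.IsHomogeneous m →
        B.IsHomogeneous m → t * aeval y B = aeval y A → aeval (fun i => φ (ρ i)) B ≠ 0 →
        Transcendental k (aeval (fun i => φ (ρ i)) A / aeval (fun i => φ (ρ i)) B) := by
    intro m A B hA hB hAB hB0
    have h1 : r0 * aeval ρ B = aeval ρ A := by
      apply hj
      rw [map_mul, hr0, hjη, hjη, hηm hA, hηm hB, ← hAB]
      ring
    have h2 := congrArg φ h1
    rw [map_mul, ← aeval_comp', ← aeval_comp'] at h2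
    rw [← h2, mul_div_cancel_right₀ _ hB0]
    exact hr0'
  have hsends : Sends k y z (fun i => φ (ρ i)) (fun s => algebraMap k F (u s)) := by
    obtain ⟨r, hr⟩ := hz.reg hp
    have h1 : Sends k y z y z := by
      have := hz.gen hy (AlgHom.id k K)
      exact this
    have h2 : Sends k y z (fun i => j (ρ i)) (fun s => j (σ s)) := by
      rw [funext hρ, funext hσ]
      exact (h1.smul_left (inv_ne_zero ha)).smul (inv_ne_zero hb)
    have h3 : IsPt k y (fun i => j (ρ i)) := by
      rw [funext hρ]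
      exact (isPt_self hy).smul (inv_ne_zero ha)
    have h4 : (fun s => φ (σ s)) ≠ 0 := by
      rw [funext hu]
      intro h
      have := congrFun h b
      simp only [hub, map_one, Pi.zero_apply] at this
      exact one_ne_zero this
    have h5 := Sends.spec j hj φ h3 h4 h2 hr
    rwa [funext hu] at h5
  refine ⟨⟨F, hff, _, hp⟩, u, ?_, hsends, ?_, ?_, htr⟩
  · intro g hg
    obtain ⟨⟨m, hm⟩, h0⟩ := hG g hg
    refine hφη g (Finset.mem_insert_of_mem hg) ?_
    rw [hηm hm]
    exact mul_ne_zero (pow_ne_zero _ (inv_ne_zero ha)) h0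
  · intro g hg h0
    obtain ⟨⟨m, hm⟩, h1⟩ := hE g hg
    obtain ⟨r, hr, h2, -⟩ := hS (aeval ζ g) (by
      simp only [S, Finset.mem_union]
      exact Or.inr (Finset.mem_image_of_mem _ hg))
    have h3 : r = aeval σ g := hj (by rw [hr, hjζ])
    have h4 : aeval ζ g ≠ 0 := by
      rw [hζm hm]
      exact mul_ne_zero (pow_ne_zero _ (inv_ne_zero hb)) h1
    apply h2 h4
    rw [h3, ← aeval_comp', funext hu]
    have h5 := aeval_comp' (Algebra.ofId k F) u g
    rw [h0, map_zero] at h5
    exact h5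
  · show 0 < vdeg k (fun i => φ (ρ i))
    refine lt_of_le_of_ne (vdeg_nonneg hp.1) fun h => ?_
    obtain ⟨c, e, hc, he⟩ := const_of_vdeg hp.1 h.symm
    have h1 := htr dt At Bt hAt hBt hABt hBtp
    apply h1
    have h2 : ∀ {g : MvPolynomial ι k}, g.IsHomogeneous dt →
        aeval (fun i => φ (ρ i)) g = c ^ dt * algebraMap k F (aeval e g) := by
      intro g hg
      rw [funext he, hom_smul hg]
      congr 1
      exact aeval_comp' (Algebra.ofId k F) e g
    rw [h2 hAt, h2 hBt, mul_div_mul_left _ _ (pow_ne_zero _ hc), ← map_div₀]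
    exact isAlgebraic_algebraMap _

end curve

end Pool.Agent.L5helper21.FN
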