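import Pool.Agent.L5helper21.FN.Div1

/-!
# The polar divisor of a rational function on a locally factorial variety
-/

set_option autoImplicit false

namespace Pool.Agent.L5helper21.FN

open MvPolynomial FF Module

section val

variable {k : Type} [Field k] {K : Type} [Field K] [Algebra k K] {ι : Type} {y : ι → K} {x : ι → k}

/-- `a` is the value at the point `x` of the regular function `φ` -/
def Val (y : ι → K) (x : ι → k) (φ : K) (a : k) : Prop :=
  ∃ (m : ℕ) (A B : MvPolynomial ι k), A.IsHomogeneous m ∧ B.IsHomogeneous m ∧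
    aeval x B ≠ 0 ∧ φ * aeval y B = aeval y A ∧ aeval x A = a * aeval x B

theorem Val.mem {φ : K} {a : k} (h : Val y x φ a) : φ ∈ localRing k y x := by
  obtain ⟨m, A, B, hA, hB, h0, h1, -⟩ := h
  exact ⟨m, A, B, hA, hB, h0, h1⟩

theorem exists_val' {φ : K} (h : φ ∈ localRing k y x) : ∃ a, Val y x φ a := by
  obtain ⟨m, A, B, hA, hB, h0, h1⟩ := h
  exact ⟨aeval x A / aeval x B, m, A, B, hA, hB, h0, h1, (div_mul_cancel₀ _ h0).symm⟩

theorem Val.unique (hx : IsPt k y x) {φ : K} {a b : k} (h : Val y x φ a) (h' : Val y x φ b) :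
    a = b := by
  obtain ⟨m, A, B, hA, hB, h0, h1, h2⟩ := h
  obtain ⟨n, A', B', hA', hB', h0', h1', h2'⟩ := h'
  have h3 : aeval y (A * B') = aeval y (A' * B) := by
    rw [map_mul, map_mul, ← h1, ← h1']; ring
  have h4 := rel_at hx (hA.mul hB') (by rw [add_comm]; exact hA'.mul hB) h3
  rw [map_mul, map_mul, h2, h2'] at h4
  have h5 : (a - b) * (aeval x B * aeval x B') = 0 := by linear_combination h4
  exact sub_eq_zero.1 ((mul_eq_zero.1 h5).resolve_right (mul_ne_zero h0 h0'))

theorem Val.add {φ ψ : K} {a b : k} (h : Val y x φ a) (h' : Val y x ψ b) :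
    Val y x (φ + ψ) (a + b) := by
  obtain ⟨m, A, B, hA, hB, h0, h1, h2⟩ := h
  obtain ⟨n, A', B', hA', hB', h0', h1', h2'⟩ := h'
  refine ⟨m + n, A * B' + B * A', B * B', (hA.mul hB').add (hB.mul hA'), hB.mul hB', ?_, ?_, ?_⟩
  · rw [map_mul]; exact mul_ne_zero h0 h0'
  · rw [map_add, map_mul, map_mul, map_mul, ← h1, ← h1']; ring
  · rw [map_add, map_mul, map_mul, map_mul, h2, h2']; ring

theorem Val.mul {φ ψ : K} {a b : k} (h : Val y x φ a) (h' : Val y x ψ b) :
    Val y x (φ * ψ) (a * b) := by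
  obtain ⟨m, A, B, hA, hB, h0, h1, h2⟩ := h
  obtain ⟨n, A', B', hA', hB', h0', h1', h2'⟩ := h'
  refine ⟨m + n, A * A', B * B', hA.mul hA', hB.mul hB', ?_, ?_, ?_⟩
  · rw [map_mul]; exact mul_ne_zero h0 h0'
  · rw [map_mul, map_mul, ← h1, ← h1']; ring
  · rw [map_mul, map_mul, h2, h2']; ring

theorem val_const (c : k) : Val y x (algebraMap k K c) c :=
  ⟨0, C c, 1, isHomogeneous_C _ _, isHomogeneous_one _ _, by simp, by simp, by simp⟩

theorem Val.inv (hx : IsPt k y x) {φ : K} {a : k} (h : Val y x φ a) (ha : a ≠ 0) :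
    φ⁻¹ ∈ localRing k y x := by
  obtain ⟨m, A, B, hA, hB, h0, h1, h2⟩ := h
  have h3 : aeval x A ≠ 0 := by rw [h2]; exact mul_ne_zero ha h0
  have h4 : aeval y A ≠ 0 := fun h => h3 (hx.2 _ _ hA h)
  have h5 : φ ≠ 0 := by
    rintro rfl
    rw [zero_mul] at h1
    exact h4 h1.symm
  exact ⟨m, B, A, hB, hA, h3, by rw [← h1, inv_mul_cancel_left₀ h5]⟩

theorem val_coord {a : ι} (ha : x a ≠ 0) (i : ι) (hya : y a ≠ 0) :
    Val y x ((y a)⁻¹ * y i) ((x a)⁻¹ * x i) := by
  refine ⟨1, X i, X a, isHomogeneous_X _ _, isHomogeneous_X _ _, by simpa using ha, ?_, ?_⟩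
  · rw [aeval_X, aeval_X]; field_simp
  · rw [aeval_X, aeval_X]; field_simp

theorem val_poly {a : ι} (ha : x a ≠ 0) (hya : y a ≠ 0) (G : MvPolynomial ι k) :
    Val y x (aeval (fun i => (y a)⁻¹ * y i) G) (aeval (fun i => (x a)⁻¹ * x i) G) := by
  induction G using MvPolynomial.induction_on with
  | C c => simpa using val_const (y := y) (x := x) c
  | add p q hp hq => rw [map_add, map_add]; exact hp.add hq
  | mul_X p i hp =>
    rw [map_mul, map_mul, aeval_X, aeval_X]
    exact hp.mul (val_coord ha i hya)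

theorem val_sum_zero {α : Type*} (s : Finset α) (e u : α → K)
    (he : ∀ a ∈ s, e a ∈ localRing k y x) (hu : ∀ a ∈ s, Val y x (u a) 0) :
    Val y x (∑ a ∈ s, e a * u a) 0 := by
  classical
  induction s using Finset.induction_on with
  | empty => simpa using val_const (y := y) (x := x) (0 : k)
  | insert a s ha ih =>
    rw [Finset.sum_insert ha]
    obtain ⟨c, hc⟩ := exists_val' (he a (Finset.mem_insert_self _ _))
    have h1 := hc.mul (hu a (Finset.mem_insert_self _ _))
    have h2 := h1.add (ih (fun b hb => he b (Finset.mem_insert_of_mem hb))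
      (fun b hb => hu b (Finset.mem_insert_of_mem hb)))
    simpa using h2

end val

section main

variable {k : Type} [Field k] [IsAlgClosed k] {K : Type} [Field K] [Algebra k K]
  {ι : Type} [Finite ι] {y : ι → K}

/-- Forms `W s` without common zero outside of the polar divisor of `f = A / B`, which define a
morphism. -/
theorem exists_w (hy : y ≠ 0) (hfac : LocallyFactorial k y) {d : ℕ} {A B : MvPolynomial ι k}
    (hA : A.IsHomogeneous d) (hB : B.IsHomogeneous d) (hB0 : aeval y B ≠ 0) {f : K}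
    (hf : f * aeval y B = aeval y A) : ∃ (T : Type) (_ : Finite T) (m : ℕ)
      (W : T → MvPolynomial ι k), (∀ s, (W s).IsHomogeneous m) ∧
      IsMor k y (fun s => aeval y (W s)) ∧
      (∀ s, ∃ H : MvPolynomial ι k, H.IsHomogeneous m ∧ aeval y (W s) * f = aeval y H) ∧
      ∀ x : ι → k, IsPt k y x → f ∈ localRing k y x → ∃ s, aeval x (W s) ≠ 0 := by
  classical
  have : Fintype ι := Fintype.ofFinite ι
  let D : Set (MvPolynomial ι k) := {G | ∃ (n : ℕ) (H : MvPolynomial ι k), G.IsHomogeneous n ∧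
    H.IsHomogeneous n ∧ aeval y G * f = aeval y H}
  have hfg : (Ideal.span D).FG := IsNoetherian.noetherian _
  obtain ⟨T, hT, hspan⟩ := (Submodule.fg_span_iff_fg_span_finset_subset D).1 hfg
  have hgen : ∀ G ∈ D, ∃ M : MvPolynomial ι k → MvPolynomial ι k, G = ∑ g ∈ T, M g * g := by
    intro G hG
    have h1 : G ∈ Submodule.span (MvPolynomial ι k) D := Submodule.subset_span hG
    rw [hspan, Submodule.mem_span_finset] at h1
    obtain ⟨M, -, hM⟩ := h1
    exact ⟨M, hM.symm⟩
  have hTD : ∀ g : T, ∃ (n : ℕ) (H : MvPolynomial ι k), (g : MvPolynomial ι k).IsHomogeneous n ∧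
    H.IsHomogeneous n ∧ aeval y (g : MvPolynomial ι k) * f = aeval y H := fun g => hT g.2
  choose n H hg hH hgH using hTD
  let m := Finset.univ.sup n
  have hnm : ∀ g, n g ≤ m := fun g => Finset.le_sup (Finset.mem_univ g)
  let W : T × ι → MvPolynomial ι k := fun s => s.1.1 * X s.2 ^ (m - n s.1)
  have hW : ∀ s, (W s).IsHomogeneous m := by
    intro s
    have := (hg s.1).mul (isHomogeneous_X_pow (R := k) s.2 (m - n s.1))
    rwa [Nat.add_sub_cancel' (hnm s.1)] at this
  -- local generators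
  have hlocal : ∀ x : ι → k, IsPt k y x → ∃ t : T × ι, aeval y (W t) ≠ 0 ∧
      ∀ s, aeval y (W s) / aeval y (W t) ∈ localRing k y x := by
    intro x hx
    obtain ⟨a, ha⟩ := exists_ne hx.1
    have hya := hx.ne ha
    have hufm : UniqueFactorizationMonoid (localRing k y x) := hfac x hx
    let η : ι → K := fun i => (y a)⁻¹ * y i
    have hηO : ∀ G : MvPolynomial ι k, aeval η G ∈ localRing k y x := fun G =>
      (val_poly ha hya G).mem
    have hηm : ∀ {m : ℕ} {g : MvPolynomial ι k}, g.IsHomogeneous m →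
        aeval η g = (y a)⁻¹ ^ m * aeval y g := fun hg => hom_smul hg _ _
    have hBη : aeval η B ≠ 0 := by
      rw [hηm hB]; exact mul_ne_zero (pow_ne_zero _ (inv_ne_zero hya)) hB0
    have hfη : f * aeval η B = aeval η A := by
      rw [hηm hB, hηm hA, ← hf]; ring
    obtain ⟨a', b', c', hrel, ha', hb'⟩ := UniqueFactorizationMonoid.exists_reduced_factors'
      (⟨aeval η A, hηO A⟩ : localRing k y x) ⟨aeval η B, hηO B⟩
      (fun h => hBη (congrArg Subtype.val h))
    have ha'' : (c' : K) * a' = aeval η A := congrArg Subtype.val ha'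
    have hb'' : (c' : K) * b' = aeval η B := congrArg Subtype.val hb'
    have hc0 : (c' : K) ≠ 0 := by
      intro h
      rw [h, zero_mul] at hb''
      exact hBη hb''.symm
    have hb0 : (b' : K) ≠ 0 := by
      intro h
      rw [h, mul_zero] at hb''
      exact hBη hb''.symm
    have hfb : f * b' = a' := by
      apply mul_left_cancel₀ hc0
      rw [ha'', ← hfη, ← hb'']
      ring
    -- elements of the denominator ideal are divisible by `b'`
    have hdiv : ∀ h e : localRing k y x, (h : K) * f = e → ∃ u : localRing k y x,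
        (h : K) = b' * u := by
      intro h e hhe
      have h1 : h * a' = e * b' := by
        apply Subtype.ext
        show (h : K) * a' = e * b'
        rw [← hfb, ← hhe]
        ring
      have h2 : b' ∣ h * a' := ⟨e, by rw [h1, mul_comm]⟩
      obtain ⟨u, hu⟩ := hrel.symm.dvd_of_dvd_mul_right h2
      exact ⟨u, congrArg Subtype.val hu⟩
    have hu : ∀ g : T, ∃ u : localRing k y x, aeval η g.1 = b' * (u : K) := by
      intro g
      refine hdiv ⟨aeval η g.1, hηO _⟩ ⟨aeval η (H g), hηO _⟩ ?_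
      show aeval η g.1 * f = aeval η (H g)
      rw [hηm (hg g), hηm (hH g), ← hgH]
      ring
    choose u hu using hu
    -- `b'` is in the ideal generated by the `g`
    obtain ⟨e1, C1, E1, hC1, hE1, hE1x, hC1E1⟩ := b'.2
    obtain ⟨e2, C2, E2, hC2, hE2, hE2x, hC2E2⟩ := a'.2
    have hmem : C1 * E2 ∈ D := by
      refine ⟨e1 + e2, C2 * E1, hC1.mul hE2, by rw [add_comm]; exact hC2.mul hE1, ?_⟩
      rw [map_mul, map_mul, ← hC1E1, ← hC2E2, ← hfb]
      ring
    obtain ⟨M, hM⟩ := hgen _ hmem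
    have hsum : aeval η E1 * aeval η E2 = ∑ g : T, aeval η (M g.1) * (u g : K) := by
      apply mul_left_cancel₀ hb0
      have h1 : (b' : K) * (aeval η E1 * aeval η E2) = aeval η (C1 * E2) := by
        rw [map_mul, hηm hE1, hηm hC1, ← hC1E1]
        ring
      rw [h1, hM, map_sum, Finset.mul_sum, ← Finset.sum_coe_sort T
        (fun g => aeval η (M g * g))]
      refine Finset.sum_congr rfl fun g _ => ?_
      rw [map_mul, hu]
      ring
    obtain ⟨g₀, hg₀⟩ : ∃ g₀ : T, ¬ Val y x (u g₀ : K) 0 := by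
      by_contra hcon
      push Not at hcon
      have h1 := val_sum_zero (y := y) (x := x) Finset.univ (fun g : T => aeval η (M g.1))
        (fun g => (u g : K)) (fun g _ => hηO _) (fun g _ => hcon g)
      rw [← hsum] at h1
      have h2 := (val_poly ha hya E1).mul (val_poly ha hya E2)
      have h3 := Val.unique hx h2 h1
      rw [hom_smul hE1, hom_smul hE2] at h3
      have h4 : (x a)⁻¹ ≠ 0 := inv_ne_zero ha
      exact mul_ne_zero (mul_ne_zero (pow_ne_zero _ h4) hE1x)
        (mul_ne_zero (pow_ne_zero _ h4) hE2x) h3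
    obtain ⟨c₀, hc₀⟩ := exists_val' (u g₀).2
    have hc₀0 : c₀ ≠ 0 := by
      rintro rfl
      exact hg₀ hc₀
    have huinv : (u g₀ : K)⁻¹ ∈ localRing k y x := hc₀.inv hx hc₀0
    have hu0 : (u g₀ : K) ≠ 0 := by
      intro h
      have h1 : Val y x (u g₀ : K) 0 := by
        rw [h]
        simpa using val_const (y := y) (x := x) (0 : k)
      exact hg₀ h1
    have hWη : ∀ s, aeval y (W s) = y a ^ m * (b' * (u s.1 : K) * η s.2 ^ (m - n s.1)) := by
      intro s
      have h1 : aeval η (W s) = (y a)⁻¹ ^ m * aeval y (W s) := hηm (hW s)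
      have h2 : aeval η (W s) = b' * (u s.1 : K) * η s.2 ^ (m - n s.1) := by
        simp only [W, map_mul, map_pow, aeval_X]
        rw [hu]
      rw [← h2, h1, ← mul_assoc, ← mul_pow, mul_inv_cancel₀ hya, one_pow, one_mul]
    have hηa : η a = 1 := inv_mul_cancel₀ hya
    refine ⟨(g₀, a), ?_, fun s => ?_⟩
    · rw [hWη]
      simp only [hηa, one_pow, mul_one]
      exact mul_ne_zero (pow_ne_zero _ hya) (mul_ne_zero hb0 hu0)
    · rw [hWη, hWη]
      simp only [hηa, one_pow, mul_one]
      have h1 : y a ^ m * (b' * (u s.1 : K) * η s.2 ^ (m - n s.1)) /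
          (y a ^ m * (b' * (u g₀ : K))) = (u s.1 : K) * η s.2 ^ (m - n s.1) * (u g₀ : K)⁻¹ := by
        field_simp
      rw [h1]
      refine mul_mem (mul_mem (u s.1).2 (pow_mem ?_ _)) huinv
      have := hηO (X s.2)
      rwa [aeval_X] at this
  refine ⟨T × ι, inferInstance, m, W, hW, ⟨?_, fun x hx => ?_⟩, fun s => ?_, fun x hx hfx => ?_⟩
  · obtain ⟨x, hx⟩ := exists_kpt (k := k) hy
    obtain ⟨t, ht, -⟩ := hlocal x hx
    exact fun h => ht (congrFun h t)
  · obtain ⟨t, ht, h1⟩ := hlocal x hx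
    exact sends_of_local hx (z := fun s => aeval y (W s)) ht h1
  · refine ⟨H s.1 * X s.2 ^ (m - n s.1), ?_, ?_⟩
    · have := (hH s.1).mul (isHomogeneous_X_pow (R := k) s.2 (m - n s.1))
      rwa [Nat.add_sub_cancel' (hnm s.1)] at this
    · simp only [W, map_mul]
      rw [← hgH]
      ring
  · obtain ⟨e, C1, E1, hC1, hE1, hE1x, hC1E1⟩ := hfx
    have hmem : E1 ∈ D := ⟨e, C1, hE1, hC1, by rw [← hC1E1, mul_comm]⟩
    obtain ⟨M, hM⟩ := hgen _ hmem
    obtain ⟨a, ha⟩ := exists_ne hx.1
    by_contra hcon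
    push Not at hcon
    apply hE1x
    rw [hM, map_sum]
    refine Finset.sum_eq_zero fun g hg => ?_
    have h1 := hcon (⟨g, hg⟩, a)
    simp only [W, map_mul, map_pow, aeval_X] at h1
    rw [map_mul, (mul_eq_zero.1 h1).resolve_right (pow_ne_zero _ ha), mul_zero]

end main

end Pool.Agent.L5helper21.FN
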