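import Pool.Agent.L5helper21.FN.Div2

/-!
# The class of the polar divisor
-/

set_option autoImplicit false

namespace Pool.Agent.L5helper21.FN

open MvPolynomial FF Module

section red

variable {k : Type} [Field k] [IsAlgClosed k] [CharZero k] {F : Type} [Field F] [Algebra k F]
  [IsFF k F]

/-- reduction at a place -/
theorem exists_red (v : Place k F) : ∃ (R : Subalgebra k F) (π : R →ₐ[k] k),
    (∀ f, f ∈ R ↔ v.Reg f) ∧ ∀ r : R, π r ≠ 0 → (r : F) ≠ 0 ∧ v.ord (r : F) = 0 := by
  let R : Subalgebra k F :=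
    { v.O.toSubring.toSubsemiring with
      algebraMap_mem' := fun c => v.reg_const c }
  have hbij : Function.Bijective (algebraMap k v.RF) :=
    IsAlgClosed.algebraMap_bijective_of_isIntegral
  let e : k ≃ₐ[k] v.RF := AlgEquiv.ofBijective (Algebra.ofId k v.RF) hbij
  let g : R →+* v.RF := v.resHom
  have hg : ∀ r : R, g r = v.red r := fun r => (v.red_of_reg r.2).symm
  let γ : R →ₐ[k] v.RF := { g with
    commutes' := fun c => by
      show g (algebraMap k R c) = _
      rw [hg, Place.algebraMap_RF]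
      rfl }
  refine ⟨R, (e.symm : v.RF →ₐ[k] k).comp γ, fun f => Iff.rfl, fun r hr => ?_⟩
  have h1 : γ r ≠ 0 := by
    intro h
    apply hr
    show e.symm (γ r) = 0
    rw [h, map_zero]
  have h2 : v.red (r : F) ≠ 0 := by
    rw [← hg]
    exact h1
  rw [Ne, v.red_eq_zero_iff r.2, not_or, not_lt] at h2
  rcases r.2 with h3 | h3
  · exact absurd h3 h2.1
  · exact ⟨h2.1, le_antisymm h2.2 h3⟩

end red

section forms

variable {k : Type} [Field k] [IsAlgClosed k] [CharZero k] {F : Type} [Field F] [Algebra k F]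
  [IsFF k F] {K : Type} [Field K] [Algebra k K] {ι τ T : Type} [Finite ι] [Finite T] {y : ι → K}

omit [IsAlgClosed k] [CharZero k] [IsFF k F] [Finite T] in
/-- forms of degree `m` have order at least `m` times the smallest order -/
theorem vmin_forms (v : Place k F) {p : ι → F} (hp : p ≠ 0) {m : ℕ} {W : T → MvPolynomial ι k}
    (hW : ∀ s, (W s).IsHomogeneous m) (h0 : (fun s => aeval p (W s)) ≠ 0) :
    m * vmin k v p ≤ vmin k v (fun s => aeval p (W s)) :=
  le_vmin v h0 fun s hs => ord_form v hp (hW s) hs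

/-- the reduction of a point at a place, and of its image under a morphism -/
theorem exists_red_pt (v : Place k F) {p : ι → F} (hp : IsPt k y p) :
    ∃ x : ι → k, IsPt k y x ∧
      (∀ (m : ℕ) (G : MvPolynomial ι k), G.IsHomogeneous m → aeval x G ≠ 0 → aeval p G ≠ 0 ∧
        v.ord (aeval p G) = m * vmin k v p) ∧
      ∀ (τ : Type) (_ : Finite τ) (z : τ → K) (u : τ → k), IsMor k y z →
        Sends k y z p (fun s => algebraMap k F (u s)) → Sends k y z x u := by
  obtain ⟨R, π, hR, hπ⟩ := exists_red v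
  obtain ⟨t, ht, htv⟩ := exists_vmin v hp.1
  have hmem : ∀ i, (p t)⁻¹ * p i ∈ R := by
    intro i
    rw [hR, inv_mul_eq_div]
    refine reg_of_ge ht ?_
    by_cases hi : p i = 0
    · exact Or.inl hi
    · right; rw [htv]; exact vmin_le v p hi
  let p' : ι → R := fun i => ⟨(p t)⁻¹ * p i, hmem i⟩
  have h1 : π (p' t) = 1 := by
    have : p' t = 1 := Subtype.ext (inv_mul_cancel₀ ht)
    rw [this, map_one]
  have h0 : (fun i => π (p' i)) ≠ 0 := by
    intro h
    have := congrFun h t
    simp only [h1, Pi.zero_apply] at this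
    exact one_ne_zero this
  have hpt : IsPt k y (fun i => R.val (p' i)) := hp.smul (inv_ne_zero ht)
  have hx : IsPt k y (fun i => π (p' i)) := IsPt.spec R.val Subtype.val_injective π hpt h0
  refine ⟨fun i => π (p' i), hx, fun m G hG hG0 => ?_, fun τ _ z u hz h => ?_⟩
  · rw [aeval_comp'] at hG0
    obtain ⟨h2, h3⟩ := hπ _ hG0
    have h4 : (aeval p' G : R) = (p t)⁻¹ ^ m * aeval p G := by
      rw [← hom_smul hG]
      have := aeval_comp' R.val p' G
      exact this.symm
    rw [h4] at h2 h3
    have h5 : aeval p G ≠ 0 := right_ne_zero_of_mul h2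
    refine ⟨h5, ?_⟩
    rw [v.ord_mul (pow_ne_zero _ (inv_ne_zero ht)) h5, v.ord_pow, v.ord_inv, htv] at h3
    linarith
  · obtain ⟨r, hr⟩ := hz.reg hx
    have h2 : Sends k y z (fun i => R.val (p' i)) (fun s => R.val (algebraMap k R (u s))) :=
      h.smul_left (inv_ne_zero ht)
    have hu : u ≠ 0 := by
      rintro rfl
      apply h.1
      funext s
      simp
    have h3 : (fun s => π (algebraMap k R (u s))) = u := by
      funext s
      rw [AlgHom.commutes]
      rfl
    have h4 := Sends.spec R.val Subtype.val_injective π hpt (by rw [h3]; exact hu) h2 hr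
    rwa [h3] at h4

end forms

section integral

variable {k : Type} [Field k] {K : Type} [Field K] [Algebra k K] {ι τ : Type} {y : ι → K}

theorem frac_local (hK : ratF k y = ⊤) {x : ι → k} (hx : IsPt k y x) :
    IsFractionRing (localRing k y x) K := by
  refine IsFractionRing.of_field _ K fun f => ?_
  obtain ⟨d, A, B, hA, hB, hB0, hAB⟩ := exists_ratio (y := y) (f := f) (by rw [hK]; trivial)
  obtain ⟨a, ha⟩ := exists_ne hx.1
  have hya := hx.ne ha
  refine ⟨⟨_, (val_poly ha hya A).mem⟩, ⟨_, (val_poly ha hya B).mem⟩, ?_⟩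
  show f = aeval (fun i => (y a)⁻¹ * y i) A / aeval (fun i => (y a)⁻¹ * y i) B
  rw [hom_smul hA, hom_smul hB, ← hAB]
  have : (y a)⁻¹ ^ d ≠ 0 := pow_ne_zero _ (inv_ne_zero hya)
  field_simp

/-- A rational function which is algebraic over the rational functions of the image `Y` of a morphism
is regular at the points above the complement of a hypersurface in `Y`, on a normal variety. -/
theorem exists_form (hK : ratF k y = ⊤) (hfac : LocallyFactorial k y) {z : τ → K} {f : K}
    (hf : IsAlgebraic (ratF k z) f) : ∃ E : MvPolynomial τ k, (∃ n, E.IsHomogeneous n) ∧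
      aeval z E ≠ 0 ∧ ∀ (x : ι → k) (u : τ → k), IsPt k y x → Sends k y z x u →
        aeval u E ≠ 0 → f ∈ localRing k y x := by
  classical
  let μ := minpoly (ratF k z) f
  have hμ : μ.Monic := minpoly.monic hf.isIntegral
  choose d C E hC hE hE0 hCE using fun j => exists_ratio (μ.coeff j).2
  refine ⟨∏ j ∈ Finset.range (μ.natDegree + 1), E j,
    ⟨_, IsHomogeneous.prod _ E d fun j _ => hE j⟩, ?_, ?_⟩
  · rw [map_prod]
    exact Finset.prod_ne_zero_iff.2 fun j _ => hE0 j
  intro x u hx hs hu
  rw [map_prod, Finset.prod_ne_zero_iff] at hu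
  obtain ⟨-, m, A, c, e, hA, hc, he, h1, h2⟩ := hs
  have hcomp : ∀ {F : Type} [Field F] [Algebra k F] (w : ι → F) (G : MvPolynomial τ k),
      aeval w (aeval A G) = aeval (fun t => aeval w (A t)) G := by
    intro F _ _ w G
    rw [← AlgHom.comp_apply]
    congr 1
    ext t; simp
  have hcoef : ∀ j, (μ.coeff j : K) ∈ localRing k y x := by
    intro j
    by_cases hj : j ∈ Finset.range (μ.natDegree + 1)
    · refine ⟨m * d j, aeval A (C j), aeval A (E j), (hC j).aeval A hA, (hE j).aeval A hA, ?_, ?_⟩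
      · rw [hcomp, funext h2, hom_smul (hE j)]
        exact mul_ne_zero (pow_ne_zero _ he) (hu j hj)
      · rw [hcomp, hcomp, funext h1, hom_smul (hE j), hom_smul (hC j), ← hCE j]
        ring
    · rw [Finset.mem_range, not_lt] at hj
      rw [Polynomial.coeff_eq_zero_of_natDegree_lt (by omega)]
      exact (localRing k y x).zero_mem
  have hint : IsIntegral (localRing k y x) f := by
    let q : Polynomial K := μ.map (algebraMap (ratF k z) K)
    have hq : q ∈ Polynomial.lifts (algebraMap (localRing k y x) K) := by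
      rw [Polynomial.lifts_iff_coeff_lifts]
      intro j
      rw [Polynomial.coeff_map]
      exact ⟨⟨_, hcoef j⟩, rfl⟩
    obtain ⟨Q, h3, -, h4⟩ := Polynomial.lifts_and_natDegree_eq_and_monic hq (hμ.map _)
    refine ⟨Q, h4, ?_⟩
    rw [← Polynomial.eval_map, h3, Polynomial.eval_map]
    exact minpoly.aeval (ratF k z) f
  have := frac_local hK hx
  have := hfac x hx
  obtain ⟨w, hw⟩ := (IsIntegrallyClosed.isIntegral_iff (K := K)).1 hint
  rw [← hw]
  exact w.2

end integral

section main

variable {k : Type} [Field k] [IsAlgClosed k] [CharZero k] {K : Type} [Field K] [Algebra k K]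
  {ι : Type} [Finite ι] {y : ι → K}

/-- A nonconstant rational function gives a nonzero class which is nonnegative on general curves in
the fibres of the morphisms of fibre type, and zero on those of the morphisms such that the function
is constant on the fibres. -/
theorem caseA (hy : y ≠ 0) (hK : ratF k y = ⊤) (hfac : LocallyFactorial k y) {f : K}
    (hf : Transcendental k f) : ∃ δ : N1 k y, (∃ C : Curve k y, 0 < δ.1 C) ∧
      (∀ (τ : Type) (_ : Finite τ) (z : τ → K), IsMor k y z →
        (∃ t : K, Transcendental (ratF k z) t) →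
        ∃ C : Curve k y, Contracts k y z C ∧ cls C ≠ 0 ∧ 0 ≤ δ.1 C) ∧
      (∀ (τ : Type) (_ : Finite τ) (z : τ → K), IsMor k y z →
        (∃ t : K, Transcendental (ratF k z) t) → IsAlgebraic (ratF k z) f →
        ∃ C : Curve k y, Contracts k y z C ∧ cls C ≠ 0 ∧ δ.1 C = 0) := by
  classical
  obtain ⟨d, A, B, hA, hB, hB0, hAB⟩ : ∃ (d : ℕ) (A B : MvPolynomial ι k), A.IsHomogeneous d ∧
      B.IsHomogeneous d ∧ aeval y B ≠ 0 ∧ f * aeval y B = aeval y A :=
    exists_ratio (by rw [hK]; trivial)
  obtain ⟨T, _, m, W, hW, hw, hWf, hWx⟩ := exists_w hy hfac hA hB hB0 hAB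
  obtain ⟨ℓw, hℓw⟩ := exists_class hw
  obtain ⟨h, hh⟩ := exists_h (k := k) hy
  let δ : N1 k y := (m : ℝ) • h - ⟨ℓw, mem_N1 hw hℓw⟩
  have hδ : ∀ C : Curve k y, (fun s => aeval C.p (W s)) ≠ 0 →
      δ.1 C = m * vdeg k C.p - vdeg k (fun s => aeval C.p (W s)) := by
    intro C hC
    have h1 : Sends k y (fun s => aeval y (W s)) C.p (fun s => aeval C.p (W s)) :=
      ⟨hC, m, W, 1, 1, hW, one_ne_zero, one_ne_zero, fun s => (one_mul _).symm,
        fun s => (one_mul _).symm⟩
    show (m : ℝ) * h.1 C - ℓw C = _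
    rw [hh, hℓw C _ h1]
  have hcls : ∀ C : Curve k y, 0 < vdeg k C.p → cls C ≠ 0 := by
    intro C hC h0
    have h1 : cls C h = 0 := by rw [h0]; rfl
    have h2 : (vdeg k C.p : ℝ) = 0 := by rw [← hh]; exact h1
    have h3 : (0 : ℝ) < vdeg k C.p := by exact_mod_cast hC
    exact h3.ne' h2
  obtain ⟨s₀, hs₀⟩ := exists_ne hw.1
  refine ⟨δ, ?_, ?_, ?_⟩
  · -- a curve on which `f` is not constant
    have hbot : Transcendental (⊥ : IntermediateField k K) f := by
      intro h1
      apply hf
      have h2 : FiniteDimensional k (⊥ : IntermediateField k K) := by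
        infer_instance
      exact IsAlgebraic.restrictScalars k h1
    have hone : IsMor k y (fun _ : Unit => (1 : K)) := by
      refine ⟨fun h0 => one_ne_zero (congrFun h0 ()), fun x hx => ⟨fun _ => 1,
        fun h0 => one_ne_zero (congrFun h0 ()), 0, fun _ => 1, 1, 1,
        fun _ => isHomogeneous_one _ _, one_ne_zero, one_ne_zero, fun _ => by simp,
        fun _ => by simp⟩⟩
    obtain ⟨C, u, h1, -, -, -, h2⟩ := exists_curve_pt hy hK ⊥ hbot {B, W s₀}
      (fun g hg => by
        rw [Finset.mem_insert, Finset.mem_singleton] at hg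
        rcases hg with rfl | rfl
        · exact ⟨⟨d, hB⟩, hB0⟩
        · exact ⟨⟨m, hW s₀⟩, hs₀⟩) hone (fun s t => by
          rw [div_one]
          exact (⊥ : IntermediateField k K).one_mem) ∅
      (fun g hg => absurd hg (Finset.notMem_empty g))
    have hBp : aeval C.p B ≠ 0 := h1 B (Finset.mem_insert_self _ _)
    have h5 : (fun s => aeval C.p (W s)) ≠ 0 := fun h0 =>
      h1 (W s₀) (Finset.mem_insert_of_mem (Finset.mem_singleton_self _)) (congrFun h0 s₀)
    obtain ⟨v, hv0, hv⟩ := exists_pole (h2 d A B hA hB hAB hBp)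
    refine ⟨C, ?_⟩
    rw [hδ C h5]
    have h6 := vdeg_lt C.pt.1 h5 (n := m) (fun v => vmin_forms v C.pt.1 hW h5) ⟨v, by
      rw [Int.lt_iff_add_one_le]
      refine le_vmin v h5 fun s hs => ?_
      obtain ⟨H, hH, hWH⟩ := hWf s
      have e1 : aeval y (W s * A) = aeval y (B * H) := by
        rw [map_mul, map_mul, ← hWH, ← hAB]
        ring
      have e2 := rel_at C.pt ((hW s).mul hA) (by rw [add_comm]; exact hB.mul hH) e1
      rw [map_mul, map_mul] at e2
      have e3 : aeval C.p (W s) * (aeval C.p A / aeval C.p B) = aeval C.p H := by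
        field_simp
        exact e2
      have e4 : aeval C.p H ≠ 0 := by
        rw [← e3]
        exact mul_ne_zero hs hv0
      have e5 := ord_form v C.pt.1 hH e4
      rw [← e3, v.ord_mul hs hv0] at e5
      omega⟩
    have h7 : (vdeg k (fun s => aeval C.p (W s)) : ℝ) < m * vdeg k C.p := by exact_mod_cast h6
    linarith
  · intro τ _ z hz ⟨t, ht⟩
    obtain ⟨C, u, h1, h2, -, h4, -⟩ := exists_curve_pt hy hK (ratF k z) ht {W s₀}
      (fun g hg => by
        rw [Finset.mem_singleton] at hg
        rw [hg]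
        exact ⟨⟨m, hW s₀⟩, hs₀⟩) hz (ratio_mem z) ∅ (fun g hg => absurd hg (Finset.notMem_empty g))
    have h5 : (fun s => aeval C.p (W s)) ≠ 0 := fun h0 =>
      h1 (W s₀) (Finset.mem_singleton_self _) (congrFun h0 s₀)
    refine ⟨C, ⟨u, h2⟩, hcls C h4, ?_⟩
    rw [hδ C h5]
    have h6 := vdeg_mono C.pt.1 h5 fun v => vmin_forms v C.pt.1 hW h5
    have h7 : (vdeg k (fun s => aeval C.p (W s)) : ℝ) ≤ m * vdeg k C.p := by exact_mod_cast h6
    linarith
  · intro τ _ z hz ⟨t, ht⟩ hfz
    obtain ⟨E, hE, hE0, hEx⟩ := exists_form hK hfac hfz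
    obtain ⟨C, u, -, h2, h3, h4, -⟩ := exists_curve_pt hy hK (ratF k z) ht ∅
      (fun g hg => absurd hg (Finset.notMem_empty g)) hz (ratio_mem z) {E} (fun g hg => by
        rw [Finset.mem_singleton] at hg
        rw [hg]
        exact ⟨hE, hE0⟩)
    have hred : ∀ v : Place k C.F, ∃ s, aeval C.p (W s) ≠ 0 ∧
        v.ord (aeval C.p (W s)) = m * vmin k v C.p := by
      intro v
      obtain ⟨x, hx, hx1, hx2⟩ := exists_red_pt v C.pt
      have h5 := hx2 τ inferInstance z u hz h2
      have h6 := hEx x u hx h5 (h3 E (Finset.mem_singleton_self _))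
      obtain ⟨s, hs⟩ := hWx x hx h6
      exact ⟨s, hx1 m _ (hW s) hs⟩
    obtain ⟨v₀, -⟩ := exists_place (k := k) (K := C.F)
    have h5 : (fun s => aeval C.p (W s)) ≠ 0 := by
      obtain ⟨s, hs, -⟩ := hred v₀
      exact fun h0 => hs (congrFun h0 s)
    refine ⟨C, ⟨u, h2⟩, hcls C h4, ?_⟩
    rw [hδ C h5]
    have h6 : vdeg k (fun s => aeval C.p (W s)) = m * vdeg k C.p := by
      refine vdeg_congr C.pt.1 h5 fun v => le_antisymm (vmin_forms v C.pt.1 hW h5) ?_
      obtain ⟨s, hs, hs1⟩ := hred v
      rw [← hs1]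
      exact vmin_le v (fun s => aeval C.p (W s)) hs
    rw [h6]
    push_cast
    ring

end main

end Pool.Agent.L5helper21.FN
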