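import Pool.Agent.L5helper21.FN.Chain
import Pool.Agent.Y118.UL.Ld

/-!
# Independent generic points are connected by chains
-/

set_option autoImplicit false

namespace Pool.Agent.L5helper21.FN

open MvPolynomial FF Module TensorProduct
open Pool.Agent.Y118.UL (RAC dom_all)

section alg

variable {k : Type} [Field k] {K : Type} [Field K] [Algebra k K] (L : IntermediateField k K)

/-- the inclusion of `L ⊗ K` in `K ⊗ K` -/
noncomputable def psi : L ⊗[k] K →ₐ[k] K ⊗[k] K :=
  Algebra.TensorProduct.map L.val (AlgHom.id k K)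

theorem psi_tmul (a : L) (b : K) : psi L (a ⊗ₜ b) = (a : K) ⊗ₜ b := by
  simp [psi]

/-- decomposition with respect to a basis of `K` over `L` -/
theorem decomp {κ : Type} (n : Basis κ L K) (u : K ⊗[k] K) :
    ∃ w : κ →₀ L ⊗[k] K, u = w.sum fun j x => (n j ⊗ₜ[k] (1 : K)) * psi L x := by
  classical
  induction u using TensorProduct.induction_on with
  | zero => exact ⟨0, by simp⟩
  | add u v hu hv =>
    obtain ⟨w, hw⟩ := hu
    obtain ⟨w', hw'⟩ := hv
    refine ⟨w + w', ?_⟩
    rw [Finsupp.sum_add_index', ← hw, ← hw']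
    · intro j; simp
    · intro j x x'; rw [map_add, mul_add]
  | tmul a b =>
    refine ⟨(n.repr a).mapRange (fun c => c ⊗ₜ[k] b) (by simp), ?_⟩
    rw [Finsupp.sum_mapRange_index (by intro j; simp)]
    have h1 : a = (n.repr a).sum fun j c => (c : K) * n j := by
      conv_lhs => rw [← n.linearCombination_repr a]
      rw [Finsupp.linearCombination_apply]
      rfl
    conv_lhs => rw [h1]
    rw [Finsupp.sum, TensorProduct.sum_tmul, Finsupp.sum]
    refine Finset.sum_congr rfl fun j _ => ?_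
    rw [psi_tmul, Algebra.TensorProduct.tmul_mul_tmul, one_mul, mul_comm]

variable {β : Type} (B : Basis β k K)

theorem repr_psi (x : L ⊗[k] K) (b : β) :
    (Algebra.TensorProduct.basis K B).repr (psi L x) b =
      ((Algebra.TensorProduct.basis L B).repr x b : K) := by
  induction x using TensorProduct.induction_on with
  | zero => simp
  | add x x' hx hx' =>
    rw [map_add, map_add, Finsupp.add_apply, hx, hx', map_add, Finsupp.add_apply]
    rfl
  | tmul a c =>
    rw [psi_tmul, Algebra.TensorProduct.basis_repr_tmul, Algebra.TensorProduct.basis_repr_tmul]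
    simp

theorem repr_mul (a : K) (u : K ⊗[k] K) (b : β) :
    (Algebra.TensorProduct.basis K B).repr ((a ⊗ₜ[k] (1 : K)) * u) b =
      a * (Algebra.TensorProduct.basis K B).repr u b := by
  have : (a ⊗ₜ[k] (1 : K)) * u = a • u := by
    rw [Algebra.smul_def]; rfl
  rw [this, map_smul, Finsupp.smul_apply, smul_eq_mul]

end alg

section minimal

variable {k : Type} [Field k] {K : Type} [Field K] [Algebra k K]

/-- An ideal which is the kernel of a homomorphism to a field and is generated by elements of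
`L i ⊗ K` for all `i` is zero, if the intersection of the fields `L i` is `k`. -/
theorem ker_eq_bot {I : Type} (L : I → IntermediateField k K)
    (hint : ∀ x : K, (∀ i, x ∈ L i) → ∃ a : k, algebraMap k K a = x) {Ω : Type} [Field Ω]
    [Algebra k Ω] (f : K ⊗[k] K →ₐ[k] Ω)
    (hf : ∀ i u, f u = 0 → ∃ (κ : Type) (n : Basis κ (L i) K) (w : κ →₀ L i ⊗[k] K),
      u = (w.sum fun j x => (n j ⊗ₜ[k] (1 : K)) * psi (L i) x) ∧ ∀ j, f (psi (L i) (w j)) = 0) :
    Function.Injective f := by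
  classical
  rw [injective_iff_map_eq_zero]
  by_contra hcon
  push Not at hcon
  obtain ⟨u0, hu0, hu0'⟩ := hcon
  let B := Basis.ofVectorSpace k K
  let bA := Algebra.TensorProduct.basis K B
  -- minimal support
  obtain ⟨u, ⟨hu, hu'⟩, hmin⟩ : ∃ u, (f u = 0 ∧ u ≠ 0) ∧ ∀ v, (f v = 0 ∧ v ≠ 0) →
      (bA.repr u).support.card ≤ (bA.repr v).support.card := by
    have h1 : {m : ℕ | ∃ u, (f u = 0 ∧ u ≠ 0) ∧ (bA.repr u).support.card = m}.Nonempty :=
      ⟨_, u0, ⟨hu0, hu0'⟩, rfl⟩
    obtain ⟨u, hu, hu1⟩ := Nat.sInf_mem h1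
    exact ⟨u, hu, fun v hv => hu1.trans_le (Nat.sInf_le ⟨v, hv, rfl⟩)⟩
  obtain ⟨a, ha⟩ : ∃ a, bA.repr u a ≠ 0 := by
    by_contra hc
    push Not at hc
    exact hu' (bA.repr.map_eq_zero_iff.1 (Finsupp.ext hc))
  -- normalization
  let c := bA.repr u a
  let u1 := (c⁻¹ ⊗ₜ[k] (1 : K)) * u
  have hu1r : ∀ b, bA.repr u1 b = c⁻¹ * bA.repr u b := fun b => repr_mul B _ _ _
  have hu1 : f u1 = 0 := by simp only [u1]; rw [map_mul, hu, mul_zero]
  have hu1a : bA.repr u1 a = 1 := by rw [hu1r]; exact inv_mul_cancel₀ ha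
  have hsupp : ∀ v, f v = 0 → (∀ b, bA.repr u b = 0 → bA.repr v b = 0) → bA.repr v a = 0 →
      v = 0 := by
    intro v hv hv1 hv2
    by_contra hv0
    have h1 := hmin v ⟨hv, hv0⟩
    have h2 : (bA.repr v).support ⊂ (bA.repr u).support := by
      refine ⟨fun b hb => ?_, fun h => ?_⟩
      · rw [Finsupp.mem_support_iff] at hb ⊢
        exact fun h => hb (hv1 b h)
      · have := h (Finsupp.mem_support_iff.2 ha)
        exact (Finsupp.mem_support_iff.1 this) hv2
    exact absurd (Finset.card_lt_card h2) (by omega)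
  have hmem : ∀ b i, bA.repr u1 b ∈ L i := by
    intro b i
    obtain ⟨κ, n, w, hw, hw0⟩ := hf i u1 hu1
    let bL := Algebra.TensorProduct.basis (L i) B
    have hrep : ∀ b, bA.repr u1 b = ∑ j ∈ w.support, (bL.repr (w j) b : K) * n j := by
      intro b
      conv_lhs => rw [hw]
      rw [Finsupp.sum, map_sum, Finsupp.finsetSum_apply]
      refine Finset.sum_congr rfl fun j _ => ?_
      rw [repr_mul, repr_psi, mul_comm]
    have hz : ∀ b, bA.repr u1 b = 0 → ∀ j, bL.repr (w j) b = 0 := by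
      intro b hb j
      rw [hrep] at hb
      by_cases hj : j ∈ w.support
      · have h1 := linearIndependent_iff'.1 n.linearIndependent w.support
          (fun j => bL.repr (w j) b) (by simpa [Algebra.smul_def] using hb) j hj
        exact h1
      · rw [Finsupp.notMem_support_iff.1 hj]; simp
    obtain ⟨j, hj⟩ : ∃ j, bL.repr (w j) a ≠ 0 := by
      by_contra hc
      push Not at hc
      have h1 := hrep a
      rw [hu1a] at h1
      simp [hc] at h1
    let e : L i := bL.repr (w j) a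
    let v : K ⊗[k] K := (((e⁻¹ : L i) : K) ⊗ₜ[k] (1 : K)) * psi (L i) (w j)
    have hvr : ∀ b, bA.repr v b = ((e⁻¹ * bL.repr (w j) b : L i) : K) := by
      intro b
      simp only [v]
      rw [repr_mul, repr_psi]
      rfl
    have h2 : u1 - v = 0 := by
      apply hsupp
      · rw [map_sub, hu1, zero_sub, neg_eq_zero]
        simp only [v]
        rw [map_mul, hw0, mul_zero]
      · intro b hb
        rw [map_sub, Finsupp.sub_apply, hvr]
        have h3 : bA.repr u1 b = 0 := by rw [hu1r, hb, mul_zero]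
        rw [h3, hz b h3 j]
        simp
      · rw [map_sub, Finsupp.sub_apply, hvr, hu1a]
        have h3 : e⁻¹ * bL.repr (w j) a = 1 := inv_mul_cancel₀ hj
        rw [h3]
        simp
    rw [sub_eq_zero.1 h2, hvr]
    exact SetLike.coe_mem _
  choose g hg using fun b => hint _ (hmem b)
  -- `u1 = 1 ⊗ b`
  have h3 : u1 = (1 : K) ⊗ₜ[k] (∑ b ∈ (bA.repr u1).support, g b • B b) := by
    conv_lhs => rw [← bA.linearCombination_repr u1]
    rw [Finsupp.linearCombination_apply, Finsupp.sum, TensorProduct.tmul_sum]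
    refine Finset.sum_congr rfl fun b _ => ?_
    rw [Algebra.TensorProduct.basis_apply, ← hg b, algebraMap_smul, TensorProduct.tmul_smul]
  let σ : K →ₐ[k] Ω := f.comp Algebra.TensorProduct.includeRight
  have h4 : σ (∑ b ∈ (bA.repr u1).support, g b • B b) = 0 := by
    show f ((1 : K) ⊗ₜ[k] (∑ b ∈ (bA.repr u1).support, g b • B b)) = 0
    rw [← h3, hu1]
  rw [map_eq_zero] at h4
  rw [h4, TensorProduct.tmul_zero] at h3
  rw [h3] at hu1a
  simp at hu1a

end minimal

section step

variable {k : Type} [Field k] [CharZero k] {K : Type} [Field K] [Algebra k K]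

/-- the homomorphism which agrees with `f` on `L` and on the right factor and is free otherwise -/
theorem step_hom (L : IntermediateField k K) (hL : RAC L K) {Ω : Type} [Field Ω] [Algebra k Ω]
    (f : K ⊗[k] K →ₐ[k] Ω) : ∃ (Ω' : Type) (_ : Field Ω') (_ : Algebra k Ω') (ρ : Ω →ₐ[k] Ω')
      (f' : K ⊗[k] K →ₐ[k] Ω'), (∀ x, f' (psi L x) = ρ (f (psi L x))) ∧
      (∀ x : K, f' (1 ⊗ₜ x) = ρ (f (1 ⊗ₜ x))) ∧
      ∀ u, f' u = 0 → ∃ (κ : Type) (n : Basis κ L K) (w : κ →₀ L ⊗[k] K),
        u = (w.sum fun j x => (n j ⊗ₜ[k] (1 : K)) * psi L x) ∧ ∀ j, f (psi L (w j)) = 0 := by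
  classical
  have hchar : CharZero L := charZero_of_injective_algebraMap (algebraMap k L).injective
  let σ : L →ₐ[k] Ω := (f.comp Algebra.TensorProduct.includeLeft).comp L.val
  let _ : Algebra L Ω := σ.toRingHom.toAlgebra
  have hsm : ∀ (x : L) (w : Ω), x • w = σ x * w := fun x w => Algebra.smul_def x w
  have : IsScalarTower k L Ω := IsScalarTower.of_algebraMap_eq fun c => by
    show algebraMap k Ω c = σ (algebraMap k L c)
    rw [AlgHom.commutes]
  have hnz : NoZeroDivisors (K ⊗[L] Ω) := dom_all hL Ω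
  have : Module.Free L K := Module.Free.of_divisionRing L K
  have : Module.Flat L K := Module.Flat.of_free
  have hnt : Nontrivial (K ⊗[L] Ω) :=
    Algebra.TensorProduct.nontrivial_of_algebraMap_injective_of_flat_left L K Ω
      (algebraMap L Ω).injective
  have hdom : IsDomain (K ⊗[L] Ω) := NoZeroDivisors.to_isDomain _
  let ρ0 : Ω →ₐ[k] K ⊗[L] Ω := (Algebra.TensorProduct.includeRight : Ω →ₐ[L] K ⊗[L] Ω).restrictScalars k
  let l0 : K →ₐ[k] K ⊗[L] Ω := Algebra.TensorProduct.includeLeft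
  let f0 : K ⊗[k] K →ₐ[k] K ⊗[L] Ω := Algebra.TensorProduct.lift l0
    (ρ0.comp (f.comp Algebra.TensorProduct.includeRight)) (fun _ _ => Commute.all _ _)
  have hf0 : ∀ a b : K, f0 (a ⊗ₜ b) = a ⊗ₜ[L] f ((1 : K) ⊗ₜ b) := by
    intro a b
    simp only [f0, Algebra.TensorProduct.lift_tmul]
    show (a ⊗ₜ[L] (1 : Ω)) * ((1 : K) ⊗ₜ[L] f ((1 : K) ⊗ₜ b)) = _
    rw [Algebra.TensorProduct.tmul_mul_tmul, mul_one, one_mul]
  have h1 : ∀ x, f0 (psi L x) = ρ0 (f (psi L x)) := by
    intro x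
    induction x using TensorProduct.induction_on with
    | zero => simp
    | add x x' hx hx' => rw [map_add, map_add, hx, hx', map_add, map_add]
    | tmul a b =>
      rw [psi_tmul, hf0]
      have h2 : (a : K) ⊗ₜ[k] b = ((a : K) ⊗ₜ[k] (1 : K)) * ((1 : K) ⊗ₜ[k] b) := by
        rw [Algebra.TensorProduct.tmul_mul_tmul, mul_one, one_mul]
      rw [h2, map_mul]
      show _ = (1 : K) ⊗ₜ[L] (σ a * f ((1 : K) ⊗ₜ[k] b))
      rw [← hsm, TensorProduct.tmul_smul, TensorProduct.smul_tmul']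
      congr 1
      rw [Algebra.smul_def, mul_one]
      rfl
  let Ω' := FractionRing (K ⊗[L] Ω)
  let γ : K ⊗[L] Ω →ₐ[k] Ω' := IsScalarTower.toAlgHom k (K ⊗[L] Ω) Ω'
  have hγ : Function.Injective γ := IsFractionRing.injective (K ⊗[L] Ω) Ω'
  refine ⟨Ω', inferInstance, inferInstance, γ.comp ρ0, γ.comp f0, fun x => ?_, fun x => ?_,
    fun u hu => ?_⟩
  · show γ (f0 (psi L x)) = γ (ρ0 (f (psi L x)))
    rw [h1]
  · show γ (f0 (1 ⊗ₜ x)) = γ (ρ0 (f (1 ⊗ₜ x)))
    rw [hf0]
    rfl
  · have hu0 : f0 u = 0 := hγ (by rw [map_zero]; exact hu)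
    let n := Basis.ofVectorSpace L K
    obtain ⟨w, hw⟩ := decomp L n u
    refine ⟨_, n, w, hw, ?_⟩
    have h2 : (w.mapRange (fun x => f (psi L x)) (by simp)).sum (fun j x => n j ⊗ₜ[L] x) = 0 := by
      rw [Finsupp.sum_mapRange_index (by intro j; simp), ← hu0]
      conv_rhs => rw [hw]
      rw [Finsupp.sum, Finsupp.sum, map_sum]
      refine Finset.sum_congr rfl fun j _ => ?_
      rw [map_mul, h1, hf0]
      show _ = (n j ⊗ₜ[L] f ((1 : K) ⊗ₜ[k] (1 : K))) * ((1 : K) ⊗ₜ[L] f (psi L (w j)))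
      rw [Algebra.TensorProduct.tmul_mul_tmul, mul_one]
      have h3 : f ((1 : K) ⊗ₜ[k] (1 : K)) = 1 := map_one f
      rw [h3, one_mul]
    have h4 := TensorProduct.sum_tmul_basis_left_eq_zero n _ h2
    intro j
    have := DFunLike.congr_fun h4 j
    simpa using this

end step

section main

variable {k : Type} [Field k] [IsAlgClosed k] [CharZero k] {K : Type} [Field K] [Algebra k K]
  [Algebra.EssFiniteType k K] {ι I : Type} [Finite ι] {τ : I → Type}

/-- Two independent generic points are connected by a chain, if no nonconstant rational function is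
constant on the fibres of all the morphisms. -/
theorem genChain {y : ι → K} (hy : y ≠ 0) {z : ∀ i, τ i → K} (hz : ∀ i, IsMor k y (z i))
    (L : I → IntermediateField k K) (hL : ∀ i, RAC (L i) K)
    (hzL : ∀ i s t, z i s / z i t ∈ L i)
    (hint : ∀ x : K, (∀ i, x ∈ L i) → ∃ a : k, algebraMap k K a = x) :
    ∃ (Ω : Type) (_ : Field Ω) (_ : Algebra k Ω) (f : K ⊗[k] K →ₐ[k] Ω), Function.Injective f ∧
      Chain k y z (fun i => f (1 ⊗ₜ y i)) (fun i => f (y i ⊗ₜ 1)) := by
  classical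
  let Rel : Ideal (K ⊗[k] K) → Prop := fun P => ∃ (Ω : Type) (_ : Field Ω) (_ : Algebra k Ω)
    (f : K ⊗[k] K →ₐ[k] Ω), RingHom.ker f = P ∧
      Chain k y z (fun i => f (1 ⊗ₜ y i)) (fun i => f (y i ⊗ₜ 1))
  have hprime : ∀ P, Rel P → P.IsPrime := by
    rintro P ⟨Ω, _, _, f, rfl, -⟩
    exact RingHom.ker_isPrime f
  have h0 : Rel (RingHom.ker (Algebra.TensorProduct.lmul' k : K ⊗[k] K →ₐ[k] K)) := by
    refine ⟨K, inferInstance, inferInstance, _, rfl, ?_⟩
    have h1 : (fun i => (Algebra.TensorProduct.lmul' k : K ⊗[k] K →ₐ[k] K) (1 ⊗ₜ y i)) = y := by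
      funext i; simp
    have h2 : (fun i => (Algebra.TensorProduct.lmul' k : K ⊗[k] K →ₐ[k] K) (y i ⊗ₜ 1)) = y := by
      funext i; simp
    rw [h1, h2]
    exact .refl (isPt_self hy)
  have hnoeth : IsNoetherianRing (K ⊗[k] K) := Algebra.EssFiniteType.isNoetherianRing K _
  -- minimal height
  obtain ⟨P, hP, hmin⟩ : ∃ P, Rel P ∧ ∀ Q, Rel Q → P.height ≤ Q.height := by
    have h1 : {m : ℕ∞ | ∃ P, Rel P ∧ P.height = m}.Nonempty := ⟨_, _, h0, rfl⟩
    obtain ⟨P, hP, hP1⟩ := csInf_mem h1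
    exact ⟨P, hP, fun Q hQ => hP1.trans_le (csInf_le' ⟨Q, hQ, rfl⟩)⟩
  have hPp := hprime P hP
  obtain ⟨Ω, _, _, f, hf, hch⟩ := hP
  refine ⟨Ω, _, _, f, ker_eq_bot L hint f fun i u hu => ?_, hch⟩
  obtain ⟨Ω', _, _, ρ, f', h1, h2, h3⟩ := step_hom (L i) (hL i) f
  have hle : RingHom.ker f' ≤ P := by
    intro v hv
    obtain ⟨κ, n, w, hw, hw0⟩ := h3 v hv
    rw [← hf, RingHom.mem_ker, hw, Finsupp.sum, map_sum]
    refine Finset.sum_eq_zero fun j _ => ?_
    rw [map_mul, hw0, mul_zero]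
  have hrel : Rel (RingHom.ker f') := by
    refine ⟨Ω', _, _, f', rfl, ?_⟩
    have h4 := hch.map ρ
    have e1 : (fun i => ρ (f (1 ⊗ₜ y i))) = fun i => f' (1 ⊗ₜ y i) := by
      funext i; rw [h2]
    rw [e1] at h4
    -- the last step
    let σ : K →ₐ[k] Ω' := (ρ.comp f).comp Algebra.TensorProduct.includeLeft
    let σ' : K →ₐ[k] Ω' := f'.comp Algebra.TensorProduct.includeLeft
    obtain ⟨t, ht⟩ := exists_ne (hz i).1
    have hs : ∀ x ∈ L i, σ x = σ' x := by
      intro x hx
      have h5 := h1 ((⟨x, hx⟩ : L i) ⊗ₜ 1)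
      rw [psi_tmul] at h5
      exact h5.symm
    have h6 := ((hz i).gen hy σ).smul (c := (σ (z i t))⁻¹) (inv_ne_zero ((map_ne_zero σ).2 ht))
    have h7 := ((hz i).gen hy σ').smul (c := (σ' (z i t))⁻¹) (inv_ne_zero ((map_ne_zero σ').2 ht))
    have h8 : (fun s => (σ (z i t))⁻¹ * σ (z i s)) = fun s => (σ' (z i t))⁻¹ * σ' (z i s) := by
      funext s
      have h9 := hs _ (hzL i s t)
      rw [map_div₀, map_div₀] at h9
      rw [inv_mul_eq_div, inv_mul_eq_div]
      exact h9
    rw [h8] at h6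
    exact h4.step i _ (isPt_gen hy σ') h6 h7
  have hker : RingHom.ker f' = P := by
    have hp' := hprime _ hrel
    exact Ideal.eq_of_le_of_height_le (I := RingHom.ker f') (J := P) hle (hmin _ hrel)
  apply h3
  have : u ∈ RingHom.ker f' := by rw [hker, ← hf, RingHom.mem_ker]; exact hu
  exact this

end main

end Pool.Agent.L5helper21.FN
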