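import Pool.Agent.L5helper21.FN.Defs

/-!
# Auxiliary definitions (not used in the final statement)
-/

set_option autoImplicit false

namespace Pool.Agent.L5helper21.FN

open MvPolynomial FF

section curves

variable (k : Type) [Field k] {K : Type} [Field K] [Algebra k K] {ι τ : Type}

variable {k} in
/-- The image of a curve under a morphism. -/
def Curve.map {y : ι → K} {z : τ → K} (C : Curve k y) (q : τ → C.F) (h : Sends k y z C.p q) :
    Curve k z where
  F := C.F
  ff := C.ff
  p := q
  pt := h.isPt C.pt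

variable {k} in
/-- The class of a curve in `N_1(X)`, the dual space of `N^1(X)`. -/
def cls {y : ι → K} (C : Curve k y) : Module.Dual ℝ (N1 k y) where
  toFun ℓ := ℓ.1 C
  map_add' _ _ := rfl
  map_smul' _ _ := rfl

/-- The nef cone. -/
def Nef (y : ι → K) : Set (N1 k y) := {ℓ | ∀ C : Curve k y, 0 ≤ ℓ.1 C}

/-- The closed cone of curves: the dual cone of the nef cone. -/
def NE (y : ι → K) : Set (Module.Dual ℝ (N1 k y)) := {x | ∀ ℓ ∈ Nef k y, 0 ≤ x ℓ}

/-- The closed cone of curves is spanned by the classes of finitely many curves. -/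
def Polyhedral (y : ι → K) : Prop :=
  ∃ (n : ℕ) (C : Fin n → Curve k y), ∀ x ∈ NE k y, ∃ t : Fin n → ℝ, (∀ i, 0 ≤ t i) ∧
    x = ∑ i, t i • cls (C i)

/-- `R` is an extremal ray of the closed cone of curves. -/
def IsExtremalRay (y : ι → K) (R : Set (Module.Dual ℝ (N1 k y))) : Prop :=
  (∃ x ∈ NE k y, x ≠ 0 ∧ R = {u | ∃ t : ℝ, 0 ≤ t ∧ u = t • x}) ∧
    ∀ a ∈ NE k y, ∀ b ∈ NE k y, a + b ∈ R → a ∈ R ∧ b ∈ R

/-- The morphism `z` from `X` onto its image `Y` is the contraction of the extremal ray `R`, as in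
the contraction theorem: it maps to points exactly the curves with classes in `R`, and the classes
in `N^1(X)` which vanish on `R` are the pull backs of the classes in `N^1(Y)`. -/
def IsContraction (y : ι → K) (R : Set (Module.Dual ℝ (N1 k y))) (z : τ → K) : Prop :=
  IsMor k y z ∧ (∀ C : Curve k y, Contracts k y z C ↔ cls C ∈ R) ∧
    ∀ ℓ : N1 k y, (∀ x ∈ R, x ℓ = 0) → ∃ m : N1 k z, ∀ (C : Curve k y) (q : τ → C.F)
      (h : Sends k y z C.p q), ℓ.1 C = m.1 (C.map q h)

end curves

end Pool.Agent.L5helper21.FN
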