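import Pool.Agent.L5helper21.FN.CaseB
import Pool.Agent.L5helper21.FN.Div3
import Pool.Agent.L5helper21.FN.Convex

/-!
# The nef cone is simplicial
-/

set_option autoImplicit false

namespace Pool.Agent.L5helper21.FN

open MvPolynomial FF Module
open scoped NNReal
open Pool.Agent.Y118.UL (RAC)

section pre

variable {k : Type} [Field k] {K : Type} [Field K] [Algebra k K]

/-- if the transcendence degree drops there is a transcendental element -/
theorem exists_tr (L : IntermediateField k K) (h : Algebra.trdeg k L < Algebra.trdeg k K) :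
    ∃ t : K, Transcendental L t := by
  by_contra hc
  have h1 : Algebra.IsAlgebraic L K := ⟨fun t => by
    by_contra h2
    exact hc ⟨t, h2⟩⟩
  have h2 := trdeg_add_eq k L (A := K)
  have h3 : Algebra.trdeg L K = 0 := by
    rw [trdeg_eq_zero_iff]
    exact h1
  rw [h3, add_zero] at h2
  exact h.ne h2

/-- the algebraic closure of an intermediate field -/
noncomputable def clo (L : IntermediateField k K) : IntermediateField k K :=
  (algebraicClosure L K).restrictScalars k

theorem mem_clo (L : IntermediateField k K) (x : K) : x ∈ clo L ↔ IsAlgebraic L x :=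
  mem_algebraicClosure_iff

theorem rac_clo (L : IntermediateField k K) : RAC (clo L) K := by
  intro e he
  refine ⟨⟨e, ?_⟩, rfl⟩
  rw [mem_clo]
  have h1 : IsAlgebraic (algebraicClosure L K) e := he
  exact h1.restrictScalars L

theorem le_clo (L : IntermediateField k K) {x : K} (hx : x ∈ L) : x ∈ clo L := by
  rw [mem_clo]
  exact isAlgebraic_algebraMap (⟨x, hx⟩ : L)

end pre

section main

variable {k : Type} [Field k] [IsAlgClosed k] [CharZero k] {K : Type} [Field K] [Algebra k K]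
  {ι : Type} [Finite ι] {y : ι → K}

/-- the class of a curve which is constant is zero -/
theorem cls_const (C : Curve k y) {c : C.F} {a : ι → k} (hc : c ≠ 0)
    (ha : ∀ t, C.p t = c * algebraMap k C.F (a t)) : cls C = 0 := by
  obtain ⟨F, hF, p, hp⟩ := C
  change F at c
  change ∀ t, p t = c * algebraMap k F (a t) at ha
  have e1 : p = fun i => c * algebraMap k F (a i) := funext ha
  have h3 : IsPt k y (fun i => algebraMap k F (a i)) := by
    have h4 := hp.smul (inv_ne_zero hc)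
    have e2 : (fun i => c⁻¹ * p i) = fun i => algebraMap k F (a i) := by
      funext i
      rw [ha, ← mul_assoc, inv_mul_cancel₀ hc, one_mul]
    rwa [e2] at h4
  have hx : IsPt k y a := by
    refine ⟨fun h0 => h3.1 (funext fun i => ?_), fun m G hG h0 => ?_⟩
    · rw [h0]
      simp
    · have h5 := h3.2 m G hG h0
      have h6 := aeval_comp' (Algebra.ofId k F) a G
      have h7 : algebraMap k F (aeval a G) = 0 := h6.symm.trans h5
      exact (map_eq_zero (algebraMap k F)).1 h7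
  subst e1
  ext ℓ
  show ℓ.1 _ = 0
  have h4 := N1.scale ℓ h3 hc hp
  have h5 := N1.const ℓ hx h3
  exact h4.trans h5

/-- a curve with nonzero class has positive degree -/
theorem cls_pos {h : N1 k y} (hh : ∀ C : Curve k y, h.1 C = vdeg k C.p) (C : Curve k y) :
    cls C = 0 ∨ 0 < cls C h := by
  have h1 : cls C h = vdeg k C.p := hh C
  rcases (vdeg_nonneg (k := k) C.pt.1).eq_or_lt with h2 | h2
  · left
    obtain ⟨c, a, hc, ha⟩ := const_of_vdeg C.pt.1 h2.symm
    exact cls_const C hc ha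
  · right
    rw [h1]
    exact_mod_cast h2

/-- The theorem for finitely many morphisms. -/
theorem exists_delta (hy : y ≠ 0) (hK : ratF k y = ⊤) (hfac : LocallyFactorial k y)
    {T : Finset (Dual ℝ (N1 k y))} {σ : T → Type} [∀ x, Finite (σ x)] {z : ∀ x : T, σ x → K}
    (hz : ∀ x : T, IsContraction k y {u | ∃ t : ℝ, 0 ≤ t ∧ u = t • (x : Dual ℝ (N1 k y))} (z x))
    (htr : ∀ x : T, Algebra.trdeg k (ratF k (z x)) < Algebra.trdeg k K)
    {Y : Set (Dual ℝ (N1 k y))} (hY : Y ⊆ (T : Set (Dual ℝ (N1 k y)))) {ℓ : N1 k y}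
    (hℓ : ℓ ≠ 0) (hℓY : ∀ x ∈ Y, x ℓ = 0) :
    ∃ δ : N1 k y, δ ≠ 0 ∧ (∀ x ∈ (T : Set (Dual ℝ (N1 k y))), 0 ≤ x δ) ∧ ∀ x ∈ Y, x δ = 0 := by
  classical
  have hess := ess_of_rat hK
  by_cases hf : ∃ f : K, Transcendental k f ∧ ∀ x : T, (x : Dual ℝ (N1 k y)) ∈ Y →
      IsAlgebraic (ratF k (z x)) f
  · obtain ⟨f, hf, hfY⟩ := hf
    obtain ⟨δ, ⟨C, hC⟩, h1, h2⟩ := caseA hy hK hfac hf
    refine ⟨δ, ?_, fun x hx => ?_, fun x hx => ?_⟩
    · rintro rfl
      exact lt_irrefl _ hC
    · obtain ⟨C, h3, h4, h5⟩ := h1 _ inferInstance (z ⟨x, hx⟩) (hz _).1 (exists_tr _ (htr _))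
      obtain ⟨t, ht, ht1⟩ := ((hz ⟨x, hx⟩).2.1 C).1 h3
      have h6 : δ.1 C = t * x δ := congrArg (fun u : Dual ℝ (N1 k y) => u δ) ht1
      rw [h6] at h5
      have h7 : t ≠ 0 := by
        rintro rfl
        exact h4 (by rw [ht1, zero_smul])
      have h8 : 0 < t := lt_of_le_of_ne ht h7.symm
      exact nonneg_of_mul_nonneg_right h5 h8
    · obtain ⟨C, h3, h4, h5⟩ := h2 _ inferInstance (z ⟨x, hY hx⟩) (hz _).1 (exists_tr _ (htr _))
        (hfY _ hx)
      obtain ⟨t, ht, ht1⟩ := ((hz ⟨x, hY hx⟩).2.1 C).1 h3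
      have h6 : δ.1 C = t * x δ := congrArg (fun u : Dual ℝ (N1 k y) => u δ) ht1
      rw [h6] at h5
      have h7 : t ≠ 0 := by
        rintro rfl
        exact h4 (by rw [ht1, zero_smul])
      exact (mul_eq_zero.1 h5).resolve_left h7
  · exfalso
    push Not at hf
    apply hℓ
    let E : T ≃ Fin T.card := T.equivFin
    let e : {i : Fin T.card // (E.symm i : Dual ℝ (N1 k y)) ∈ Y} → T := fun i => E.symm i
    refine caseB (τ := fun x => σ (e x)) (z := fun x => z (e x)) hy (fun x => (hz _).1)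
      (fun x => clo (ratF k (z (e x)))) (fun x => rac_clo _) (fun x s t => le_clo _ (ratio_mem _ s t))
      (fun f hf1 => ?_) ℓ fun x => ?_
    · by_contra h1
      have h2 : Transcendental k f := fun h3 => h1 (mem_of_alg h3)
      obtain ⟨x, hx, hx1⟩ := hf f h2
      have h3 := hf1 ⟨E x, by rw [E.symm_apply_apply]; exact hx⟩
      have h4 : e ⟨E x, by rw [E.symm_apply_apply]; exact hx⟩ = x := E.symm_apply_apply x
      rw [h4] at h3
      exact hx1 ((mem_clo _ _).1 h3)
    · refine (hz (e x)).2.2 ℓ ?_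
      rintro u ⟨t, -, rfl⟩
      show t * (e x : Dual ℝ (N1 k y)) ℓ = 0
      rw [hℓY _ x.2, mul_zero]

/-- **Main theorem.** -/
theorem simplicial (hy : y ≠ 0) (hK : ratF k y = ⊤) (hfac : LocallyFactorial k y)
    (hpoly : Polyhedral k y)
    (hcontr : ∀ R, IsExtremalRay k y R → ∃ (M : ℕ) (z : Fin (M + 1) → K), IsContraction k y R z ∧
      Algebra.trdeg k (ratF k z) < Algebra.trdeg k K) : Simplicial (Nef k y) := by
  classical
  obtain ⟨h, hh⟩ := exists_h (k := k) hy
  obtain ⟨n, C₀, hC₀⟩ := hpoly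
  have hclsNE : ∀ C : Curve k y, cls C ∈ NE k y := fun C ℓ hℓ => hℓ C
  obtain ⟨T, hTS, hTNE, hmin⟩ := exists_min (S := Set.range (cls (k := k) (y := y)))
    (fun i => cls (C₀ i)) (fun i => ⟨_, rfl⟩) hC₀
  have hcone : ∀ v : N1 k y, (∀ x ∈ (T : Set (Dual ℝ (N1 k y))), 0 ≤ x v) → v ∈ Nef k y := by
    intro v hv C
    exact cone_nonneg hv (hTNE _ (hclsNE C))
  have hsep : ∀ v : N1 k y, (∀ x ∈ (T : Set (Dual ℝ (N1 k y))), x v = 0) → v = 0 := by
    intro v hv
    have h1 := hcone v fun x hx => (hv x hx).ge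
    have h2 := hcone (-v) fun x hx => by rw [map_neg, hv x hx, neg_zero]
    apply Subtype.ext
    funext C
    have h3 : 0 ≤ v.1 C := h1 C
    have h4 : 0 ≤ - v.1 C := h2 C
    have h5 : v.1 C = 0 := le_antisymm (by linarith) h3
    exact h5
  have hfd : FiniteDimensional ℝ (N1 k y) := by
    let φ : N1 k y →ₗ[ℝ] (T → ℝ) := LinearMap.pi fun x => (x : Dual ℝ (N1 k y))
    refine FiniteDimensional.of_injective φ ?_
    rw [← LinearMap.ker_eq_bot, LinearMap.ker_eq_bot']
    intro v hv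
    exact hsep v fun x hx => congrFun hv ⟨x, hx⟩
  have hpos : ∀ x ∈ (T : Set (Dual ℝ (N1 k y))), x = 0 ∨ 0 < x h := by
    intro x hx
    obtain ⟨C, rfl⟩ := hTS x hx
    exact cls_pos hh C
  have hray : ∀ x : T, IsExtremalRay k y
      {u | ∃ t : ℝ, 0 ≤ t ∧ u = t • (x : Dual ℝ (N1 k y))} := by
    intro x
    refine ⟨⟨x, ?_, ?_, rfl⟩, fun a ha b hb hab => ?_⟩
    · obtain ⟨C, hC⟩ := hTS x x.2
      rw [← hC]
      exact hclsNE C
    · intro h0
      apply hmin x x.2
      rw [h0]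
      exact Submodule.zero_mem _
    · exact extremal hpos hTNE x.2 (hmin x x.2) ha hb hab
  choose M z hz htr using fun x : T => hcontr _ (hray x)
  have hli := indep (T := (T : Set (Dual ℝ (N1 k y)))) hmin hsep fun Y hY ⟨ℓ, hℓ, hℓY⟩ =>
    exists_delta hy hK hfac hz htr hY hℓ hℓY
  obtain ⟨m, b, e, hb⟩ := exists_basis (T := (T : Set (Dual ℝ (N1 k y)))) T.finite_toSet hsep hli
  refine ⟨m, b, Set.ext fun v => ⟨fun hv i => ?_, fun hv => hcone v fun x hx => ?_⟩⟩
  · rw [hb]
    obtain ⟨C, hC⟩ := hTS _ (e i).2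
    rw [← hC]
    exact hv C
  · have h1 := hv (e.symm ⟨x, hx⟩)
    rw [hb, e.apply_symm_apply] at h1
    exact h1

end main

end Pool.Agent.L5helper21.FN
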