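import Pool.Agent.L5helper21.FN.Div1

/-!
# Products of morphisms to projective spaces
-/

set_option autoImplicit false

namespace Pool.Agent.L5helper21.FN

open MvPolynomial FF Module

section general

variable {k : Type} [Field k] {K : Type} [Field K] [Algebra k K] {ι τ υ : Type}
variable {F : Type} [Field F] [Algebra k F]

theorem comp_aeval {R : Type*} [CommRing R] [Algebra k R] (p : ι → R) (A : τ → MvPolynomial ι k)
    (G : MvPolynomial τ k) : aeval p (aeval A G) = aeval (fun t => aeval p (A t)) G := by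
  rw [← AlgHom.comp_apply]
  congr 1
  ext t; simp

/-- composition of maps -/
theorem Sends.comp {y : ι → K} {z : τ → K} {w : υ → K} {p : ι → F} {q : τ → F} {r : υ → F}
    (h : Sends k y z p q) (h' : Sends k z w q r) : Sends k y w p r := by
  obtain ⟨-, m, A, c, d, hA, hc, hd, h1, h2⟩ := h
  obtain ⟨hr, n, B, c', d', hB, hc', hd', h1', h2'⟩ := h'
  refine ⟨hr, m * n, fun s => aeval A (B s), c ^ n * c', d ^ n * d', fun s => (hB s).aeval A hA,
    mul_ne_zero (pow_ne_zero _ hc) hc', mul_ne_zero (pow_ne_zero _ hd) hd', fun s => ?_,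
    fun s => ?_⟩
  · rw [comp_aeval, funext h1, hom_smul (hB s), h1', mul_assoc]
  · rw [comp_aeval, funext h2, hom_smul (hB s), h2', mul_assoc]

variable {J : Type} [Fintype J] {σ : J → Type} {w : ∀ j, σ j → K}

/-- the product of maps to projective spaces, in Segre coordinates -/
theorem sends_prod {y : ι → K} {p : ι → F} {q : ∀ j, σ j → F} (e : τ ≃ ∀ j, σ j)
    (h : ∀ j, Sends k y (w j) p (q j)) :
    Sends k y (fun a => ∏ j, w j (e a j)) p (fun a => ∏ j, q j (e a j)) := by
  choose hq m A c d hA hc hd h1 h2 using h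
  choose s hs using fun j => exists_ne (hq j)
  refine ⟨fun h0 => ?_, ∑ j, m j, fun a => ∏ j, A j (e a j), ∏ j, c j, ∏ j, d j, fun a =>
    IsHomogeneous.prod _ _ _ fun j _ => hA j _, Finset.prod_ne_zero_iff.2 fun j _ => hc j,
    Finset.prod_ne_zero_iff.2 fun j _ => hd j, fun a => ?_, fun a => ?_⟩
  · have h3 := congrFun h0 (e.symm s)
    simp only [e.apply_symm_apply, Pi.zero_apply] at h3
    exact Finset.prod_ne_zero_iff.2 (fun j _ => hs j) h3
  · rw [map_prod, ← Finset.prod_mul_distrib]
    exact Finset.prod_congr rfl fun j _ => h1 j _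
  · rw [map_prod, ← Finset.prod_mul_distrib]
    exact Finset.prod_congr rfl fun j _ => h2 j _

theorem isMor_prod {y : ι → K} (e : τ ≃ ∀ j, σ j) (h : ∀ j, IsMor k y (w j)) :
    IsMor k y (fun a => ∏ j, w j (e a j)) := by
  choose s hs using fun j => exists_ne (h j).1
  refine ⟨fun h0 => ?_, fun p hp => ?_⟩
  · have h3 := congrFun h0 (e.symm s)
    simp only [e.apply_symm_apply, Pi.zero_apply] at h3
    exact Finset.prod_ne_zero_iff.2 (fun j _ => hs j) h3
  · choose q hq using fun j => (h j).2 p hp
    exact ⟨_, sends_prod e hq⟩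

/-- the projections of a product are morphisms -/
theorem isMor_proj [DecidableEq J] (e : τ ≃ ∀ j, σ j) (hw : ∀ j, w j ≠ 0) (j : J) :
    IsMor k (fun a => ∏ j, w j (e a j)) (w j) := by
  refine ⟨hw j, fun q hq => ?_⟩
  obtain ⟨a, ha⟩ := exists_ne hq.1
  have h0 := hq.ne ha
  have h1 : ∀ s, e (e.symm (Function.update (e a) j s)) = Function.update (e a) j s := fun s =>
    e.apply_symm_apply _
  have h2 : ∏ i ∈ Finset.univ.erase j, w i (e a i) ≠ 0 := by
    refine Finset.prod_ne_zero_iff.2 fun i _ => ?_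
    exact Finset.prod_ne_zero_iff.1 h0 i (Finset.mem_univ i)
  refine ⟨fun s => q (e.symm (Function.update (e a) j s)), fun h3 => ha ?_, 1,
    fun s => X (e.symm (Function.update (e a) j s)), ∏ i ∈ Finset.univ.erase j, w i (e a i), 1,
    fun s => isHomogeneous_X _ _, h2, one_ne_zero, fun s => ?_, fun s => by simp⟩
  · have := congrFun h3 (e a j)
    simpa using this
  · rw [aeval_X, h1, ← Finset.prod_erase_mul _ _ (Finset.mem_univ j), Function.update_self]
    congr 1
    refine Finset.prod_congr rfl fun i hi => ?_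
    rw [Function.update_of_ne (Finset.ne_of_mem_erase hi)]

end general

section classes

variable {k : Type} [Field k] [IsAlgClosed k] [CharZero k] {K : Type} [Field K] [Algebra k K]
  {ι τ : Type} [Finite ι] {y : ι → K}

/-- a morphism contracts a curve if and only if the degree is zero -/
theorem contracts_iff [Finite τ] {w : τ → K} (hw : IsMor k y w) {ℓ : Curve k y → ℝ}
    (hℓ : IsClassOf k y w ℓ) (C : Curve k y) : Contracts k y w C ↔ ℓ C = 0 := by
  constructor
  · rintro ⟨u, hu⟩
    rw [hℓ C _ hu]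
    have hu0 : u ≠ 0 := by
      rintro rfl
      apply hu.1
      funext s
      simp
    rw [vdeg_const (F := C.F) u hu0, Int.cast_zero]
  · intro h
    obtain ⟨q, hq⟩ := hw.reg C.pt
    rw [hℓ C q hq] at h
    obtain ⟨c, a, hc, ha⟩ := const_of_vdeg hq.1 (by exact_mod_cast h)
    refine ⟨a, ?_⟩
    have h1 := hq.smul (inv_ne_zero hc)
    have h2 : (fun t => c⁻¹ * q t) = fun t => algebraMap k C.F (a t) := by
      funext t
      rw [ha, ← mul_assoc, inv_mul_cancel₀ hc, one_mul]
    rwa [h2] at h1

variable {J : Type} [Fintype J] {σ : J → Type} [∀ j, Finite (σ j)] {w : ∀ j, σ j → K}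

/-- the product contracts a curve if and only if all the factors do -/
theorem contracts_prod (e : τ ≃ ∀ j, σ j) (hw : ∀ j, IsMor k y (w j)) (C : Curve k y) :
    Contracts k y (fun a => ∏ j, w j (e a j)) C ↔ ∀ j, Contracts k y (w j) C := by
  classical
  constructor
  · rintro ⟨u, hu⟩ j
    have h1 := hu.isPt C.pt
    have h2 : IsPt k (fun a => ∏ j, w j (e a j)) u := by
      refine ⟨?_, fun m G hG h0 => ?_⟩
      · rintro rfl
        apply hu.1
        funext s
        simp
      · have h5 := h1.2 m G hG h0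
        have h6 := aeval_comp' (Algebra.ofId k C.F) u G
        have h7 : algebraMap k C.F (aeval u G) = 0 := h6.symm.trans h5
        exact (map_eq_zero (algebraMap k C.F)).1 h7
    obtain ⟨r, hr⟩ := (isMor_proj e (fun j => (hw j).1) j).2 u h2
    exact ⟨r, hu.comp hr.ext'⟩
  · intro h
    choose u hu using h
    refine ⟨fun a => ∏ j, u j (e a j), ?_⟩
    have h1 := sends_prod e hu
    simp only [map_prod]
    exact h1

/-- the class of a factor is a pull back from the product -/
theorem class_prod [Finite τ] (e : τ ≃ ∀ j, σ j) (hw : ∀ j, IsMor k y (w j)) {j : J}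
    {ℓ : Curve k y → ℝ} (hℓ : IsClassOf k y (w j) ℓ) :
    ∃ m : N1 k (fun a => ∏ j, w j (e a j)), ∀ (C : Curve k y) (q : τ → C.F)
      (h : Sends k y (fun a => ∏ j, w j (e a j)) C.p q), ℓ C = m.1 (C.map q h) := by
  classical
  have h1 := isMor_proj (k := k) e (fun j => (hw j).1) j
  obtain ⟨m, hm⟩ := exists_class h1
  refine ⟨⟨m, mem_N1 h1 hm⟩, fun C q h => ?_⟩
  have h2 : IsPt k (fun a => ∏ j, w j (e a j)) q := h.isPt C.pt
  obtain ⟨r, hr⟩ := h1.reg h2
  rw [hℓ C r (h.comp hr)]
  exact (hm (C.map q h) r hr).symm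

end classes

end Pool.Agent.L5helper21.FN
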