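import Pool.Agent.L5helper21.FN.Main
import Pool.Agent.L5helper21.FN.Convex2
import Pool.Agent.L5helper21.FN.Prod

/-!
# The nef cone is simplicial: the case of finitely many semiample generators
-/

set_option autoImplicit false

namespace Pool.Agent.L5helper21.FN

open MvPolynomial FF Module
open scoped NNReal

section defs

variable (k : Type) [Field k] {K : Type} [Field K] [Algebra k K] {ι : Type}

/-- The nef cone is spanned by finitely many semiample classes, that is, by the numerical classes of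
finitely many morphisms to projective spaces. -/
def NefSemiample (y : ι → K) : Prop :=
  ∃ (n : ℕ) (ℓ : Fin n → N1 k y),
    (∀ j, ∃ (m : ℕ) (w : Fin m → K), IsMor k y w ∧ IsClassOf k y w (ℓ j).1) ∧
    ∀ v ∈ Nef k y, ∃ t : Fin n → ℝ, (∀ j, 0 ≤ t j) ∧ v = ∑ j, t j • ℓ j

/-- All extremal contractions are fibrations: a morphism which maps to points exactly the curves with
classes in an extremal ray has an image of smaller dimension. -/
def AllFibrations (y : ι → K) : Prop :=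
  ∀ R, IsExtremalRay k y R → ∀ (M : ℕ) (z : Fin M → K), IsMor k y z →
    (∀ C : Curve k y, Contracts k y z C ↔ cls C ∈ R) →
    Algebra.trdeg k (ratF k z) < Algebra.trdeg k K

end defs

section main

variable {k : Type} [Field k] [IsAlgClosed k] [CharZero k] {K : Type} [Field K] [Algebra k K]
  {ι : Type} [Finite ι] {y : ι → K}

theorem nef_class {n : ℕ} {w : Fin n → K} (hw : IsMor k y w) {ℓ : Curve k y → ℝ}
    (hℓ : IsClassOf k y w ℓ) (C : Curve k y) : 0 ≤ ℓ C := by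
  obtain ⟨q, hq⟩ := hw.reg C.pt
  rw [hℓ C q hq]
  exact_mod_cast vdeg_nonneg hq.1

/-- the contraction of an extremal ray -/
theorem exists_contraction {n : ℕ} {ℓ : Fin n → N1 k y}
    (hℓ : ∀ j, ∃ (m : ℕ) (w : Fin m → K), IsMor k y w ∧ IsClassOf k y w (ℓ j).1)
    {x : Dual ℝ (N1 k y)} (hx : ∀ j, 0 ≤ x (ℓ j))
    (hext : ∀ a b : Dual ℝ (N1 k y), (∀ j, 0 ≤ a (ℓ j)) → (∀ j, 0 ≤ b (ℓ j)) →
      (∃ t : ℝ, 0 ≤ t ∧ a + b = t • x) →
      (∃ t : ℝ, 0 ≤ t ∧ a = t • x) ∧ ∃ t : ℝ, 0 ≤ t ∧ b = t • x) :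
    ∃ (M : ℕ) (z : Fin M → K), IsContraction k y {u | ∃ t : ℝ, 0 ≤ t ∧ u = t • x} z := by
  classical
  choose m w hw hcl using hℓ
  let J : Type := {j : Fin n // x (ℓ j) = 0}
  let σ : J → Type := fun j => Fin (m j.1)
  let e : Fin (Fintype.card (∀ j, σ j)) ≃ ∀ j, σ j := (Fintype.equivFin _).symm
  have hw' : ∀ j : J, IsMor k y (w j.1) := fun j => hw j.1
  refine ⟨_, fun a => ∏ j : J, w j.1 (e a j), isMor_prod e hw', fun C => ?_, fun v hv => ?_⟩
  · rw [contracts_prod e hw' C]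
    constructor
    · intro h
      refine ray_of_vanish hx hext (fun j => nef_class (hw j) (hcl j) C) fun j hj => ?_
      exact (contracts_iff (hw j) (hcl j) C).1 (h ⟨j, hj⟩)
    · rintro ⟨t, -, ht⟩ j
      refine (contracts_iff (hw j.1) (hcl j.1) C).2 ?_
      have h1 : (ℓ j.1).1 C = t * x (ℓ j.1) :=
        congrArg (fun u : Dual ℝ (N1 k y) => u (ℓ j.1)) ht
      rw [h1, j.2, mul_zero]
  · have h1 : x v = 0 := hv x ⟨1, zero_le_one, (one_smul _ _).symm⟩
    have h2 := span_of_vanish hx hext h1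
    have key : ∀ v ∈ Submodule.span ℝ (ℓ '' {j | x (ℓ j) = 0}),
        ∃ m' : N1 k (fun a => ∏ j : J, w j.1 (e a j)), ∀ (C : Curve k y)
          (q : Fin (Fintype.card (∀ j, σ j)) → C.F)
          (h : Sends k y (fun a => ∏ j : J, w j.1 (e a j)) C.p q), v.1 C = m'.1 (C.map q h) := by
      intro v hv
      induction hv using Submodule.span_induction with
      | mem u hu =>
        obtain ⟨j, hj, rfl⟩ := hu
        exact class_prod (j := (⟨j, hj⟩ : J)) e hw' (hcl j)
      | zero => exact ⟨0, fun C q h => rfl⟩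
      | add a b _ _ ha hb =>
        obtain ⟨m₁, h₁⟩ := ha
        obtain ⟨m₂, h₂⟩ := hb
        refine ⟨m₁ + m₂, fun C q h => ?_⟩
        show a.1 C + b.1 C = m₁.1 (C.map q h) + m₂.1 (C.map q h)
        rw [h₁ C q h, h₂ C q h]
      | smul c a _ ha =>
        obtain ⟨m₁, h₁⟩ := ha
        refine ⟨c • m₁, fun C q h => ?_⟩
        show c * a.1 C = c * m₁.1 (C.map q h)
        rw [h₁ C q h]
    exact key v h2

/-- **Main theorem.** -/
theorem simplicial' (hy : y ≠ 0) (hK : ratF k y = ⊤) (hfac : LocallyFactorial k y)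
    (hsemi : NefSemiample k y) (hfib : AllFibrations k y) : Simplicial (Nef k y) := by
  classical
  obtain ⟨n, ℓ, hℓ, hgen⟩ := hsemi
  have hNefℓ : ∀ j, ℓ j ∈ Nef k y := by
    intro j C
    obtain ⟨m, w, hw, hcl⟩ := hℓ j
    exact nef_class hw hcl C
  have hclsNE : ∀ C : Curve k y, cls C ∈ NE k y := fun C ℓ hℓ => hℓ C
  have hNE : ∀ x : Dual ℝ (N1 k y), x ∈ NE k y ↔ ∀ j, 0 ≤ x (ℓ j) := by
    intro x
    refine ⟨fun hx j => hx _ (hNefℓ j), fun hx v hv => ?_⟩
    obtain ⟨t, ht, rfl⟩ := hgen v hv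
    rw [map_sum]
    refine Finset.sum_nonneg fun j _ => ?_
    rw [map_smul]
    exact mul_nonneg (ht j) (hx j)
  -- the generators span
  have hspan : ∀ v : N1 k y, v ∈ Submodule.span ℝ (Set.range ℓ) := by
    have h1 : ∀ v ∈ Nef k y, v ∈ Submodule.span ℝ (Set.range ℓ) := by
      intro v hv
      obtain ⟨t, -, rfl⟩ := hgen v hv
      exact Submodule.sum_mem _ fun j _ => Submodule.smul_mem _ _ (Submodule.subset_span ⟨j, rfl⟩)
    intro v
    have h2 : ∀ a (ha : a ∈ N1 k y), (⟨a, ha⟩ : N1 k y) ∈ Submodule.span ℝ (Set.range ℓ) := by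
      intro a ha
      refine Submodule.span_induction (p := fun a ha => (⟨a, ha⟩ : N1 k y) ∈
        Submodule.span ℝ (Set.range ℓ)) ?_ ?_ ?_ ?_ ha
      · rintro a ⟨n, z, hz, hcl⟩
        exact h1 _ fun C => nef_class hz hcl C
      · exact Submodule.zero_mem _
      · intro a b ha hb h3 h4
        exact Submodule.add_mem _ h3 h4
      · intro c a ha h3
        exact Submodule.smul_mem _ c h3
    exact h2 v.1 v.2
  have hfd : FiniteDimensional ℝ (N1 k y) := by
    have h1 : (⊤ : Submodule ℝ (N1 k y)) = Submodule.span ℝ (Set.range ℓ) :=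
      (eq_top_iff.2 fun v _ => hspan v).symm
    exact ⟨by rw [h1]; exact Submodule.fg_span (Set.finite_range ℓ)⟩
  have hsp : ∀ x : Dual ℝ (N1 k y), (∀ j, x (ℓ j) = 0) → x = 0 := by
    intro x hx
    ext v
    have h1 := hspan v
    induction h1 using Submodule.span_induction with
    | mem u hu =>
      obtain ⟨j, rfl⟩ := hu
      exact hx j
    | zero => exact map_zero x
    | add a b _ _ ha hb => rw [map_add, ha, hb, map_add]
    | smul c a _ ha => rw [map_smul, ha, map_smul]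
  obtain ⟨T₀, hT₀, hT₀'⟩ := dual_fg hsp
  obtain ⟨T, hTNE, hTgen, hmin⟩ := exists_min' (NE := NE k y) (T₀ := T₀)
    (fun x hx => (hNE x).2 (hT₀ x hx)) (fun x hx => hT₀' x ((hNE x).1 hx))
  have hcone : ∀ v : N1 k y, (∀ x ∈ (T : Set (Dual ℝ (N1 k y))), 0 ≤ x v) → v ∈ Nef k y := by
    intro v hv C
    exact cone_nonneg hv (hTgen _ (hclsNE C))
  have hsep : ∀ v : N1 k y, (∀ x ∈ (T : Set (Dual ℝ (N1 k y))), x v = 0) → v = 0 := by
    intro v hv
    have h1 := hcone v fun x hx => (hv x hx).ge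
    have h2 := hcone (-v) fun x hx => by rw [map_neg, hv x hx, neg_zero]
    apply Subtype.ext
    funext C
    have h3 : 0 ≤ v.1 C := h1 C
    have h4 : 0 ≤ - v.1 C := h2 C
    have h5 : v.1 C = 0 := le_antisymm (by linarith) h3
    exact h5
  have hpos : ∀ x ∈ (T : Set (Dual ℝ (N1 k y))), x = 0 ∨ 0 < x (∑ j, ℓ j) := by
    intro x hx
    have h1 := (hNE x).1 (hTNE x hx)
    rw [map_sum]
    rcases (Finset.sum_nonneg fun j (_ : j ∈ Finset.univ) => h1 j).eq_or_lt with h2 | h2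
    · left
      refine hsp x fun j => ?_
      exact (Finset.sum_eq_zero_iff_of_nonneg fun j _ => h1 j).1 h2.symm j (Finset.mem_univ j)
    · exact Or.inr h2
  have hext : ∀ x : T, ∀ a b : Dual ℝ (N1 k y), (∀ j, 0 ≤ a (ℓ j)) → (∀ j, 0 ≤ b (ℓ j)) →
      (∃ t : ℝ, 0 ≤ t ∧ a + b = t • (x : Dual ℝ (N1 k y))) →
      (∃ t : ℝ, 0 ≤ t ∧ a = t • (x : Dual ℝ (N1 k y))) ∧
        ∃ t : ℝ, 0 ≤ t ∧ b = t • (x : Dual ℝ (N1 k y)) := fun x a b ha hb hab =>
    extremal hpos hTgen x.2 (hmin x x.2) ((hNE a).2 ha) ((hNE b).2 hb) hab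
  have hray : ∀ x : T, IsExtremalRay k y
      {u | ∃ t : ℝ, 0 ≤ t ∧ u = t • (x : Dual ℝ (N1 k y))} := by
    intro x
    refine ⟨⟨x, hTNE x x.2, ?_, rfl⟩, fun a ha b hb hab => ?_⟩
    · intro h0
      apply hmin x x.2
      rw [h0]
      exact Submodule.zero_mem _
    · exact hext x a b ((hNE a).1 ha) ((hNE b).1 hb) hab
  choose M z hz using fun x : T =>
    exists_contraction hℓ (x := (x : Dual ℝ (N1 k y))) ((hNE x).1 (hTNE x x.2)) (hext x)
  have htr : ∀ x : T, Algebra.trdeg k (ratF k (z x)) < Algebra.trdeg k K := fun x =>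
    hfib _ (hray x) (M x) (z x) (hz x).1 (hz x).2.1
  have hli := indep (T := (T : Set (Dual ℝ (N1 k y)))) hmin hsep fun Y hY ⟨ℓ, hℓ, hℓY⟩ =>
    exists_delta hy hK hfac hz htr hY hℓ hℓY
  obtain ⟨m, b, e, hb⟩ := exists_basis (T := (T : Set (Dual ℝ (N1 k y)))) T.finite_toSet hsep hli
  refine ⟨m, b, Set.ext fun v => ⟨fun hv i => ?_, fun hv => hcone v fun x hx => ?_⟩⟩
  · rw [hb]
    exact hTNE _ (e i).2 v hv
  · have h1 := hv (e.symm ⟨x, hx⟩)
    rw [hb, e.apply_symm_apply] at h1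
    exact h1

end main

end Pool.Agent.L5helper21.FN
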