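import Pool.Agent.L5helper21.FN.GenChain

/-!
# Extension of specializations to valuation rings
-/

set_option autoImplicit false

namespace Pool.Agent.L5helper21.FN

open MvPolynomial FF Module TensorProduct IsLocalRing

/-- amalgamation of two fields over a ring -/
theorem amalg {R A B : Type} [CommRing R] [Field A] [Field B] (f : R →+* A) (g : R →+* B)
    (h : ∀ r, f r = 0 ↔ g r = 0) : ∃ (C : Type) (_ : Field C) (u : A →+* C) (v : B →+* C),
      ∀ r, u (f r) = v (g r) := by
  let P := RingHom.ker f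
  have hfg : ∀ r ∈ P, g r = 0 := fun r hr => (h r).1 ((RingHom.mem_ker).1 hr)
  let f1 : R ⧸ P →+* A := Ideal.Quotient.lift P f fun r hr => (RingHom.mem_ker).1 hr
  let g1 : R ⧸ P →+* B := Ideal.Quotient.lift P g hfg
  have hf1 : Function.Injective f1 := by
    rw [injective_iff_map_eq_zero]
    intro x hx
    obtain ⟨r, rfl⟩ := Ideal.Quotient.mk_surjective x
    exact Ideal.Quotient.eq_zero_iff_mem.2 hx
  have hg1 : Function.Injective g1 := by
    rw [injective_iff_map_eq_zero]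
    intro x hx
    obtain ⟨r, rfl⟩ := Ideal.Quotient.mk_surjective x
    exact Ideal.Quotient.eq_zero_iff_mem.2 ((h r).2 hx)
  let _ : Algebra (R ⧸ P) A := f1.toAlgebra
  let _ : Algebra (R ⧸ P) B := g1.toAlgebra
  have hnt : Nontrivial (A ⊗[R ⧸ P] B) :=
    Algebra.TensorProduct.nontrivial_of_algebraMap_injective_of_isDomain (R ⧸ P) A B hf1 hg1
  obtain ⟨m, hm⟩ := Ideal.exists_maximal (A ⊗[R ⧸ P] B)
  let _ : Field ((A ⊗[R ⧸ P] B) ⧸ m) := Ideal.Quotient.field m
  refine ⟨(A ⊗[R ⧸ P] B) ⧸ m, inferInstance,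
    (Ideal.Quotient.mk m).comp
      (Algebra.TensorProduct.includeLeft : A →ₐ[R ⧸ P] A ⊗[R ⧸ P] B).toRingHom,
    (Ideal.Quotient.mk m).comp
      (Algebra.TensorProduct.includeRight : B →ₐ[R ⧸ P] A ⊗[R ⧸ P] B).toRingHom, fun r => ?_⟩
  have h1 : f r = algebraMap (R ⧸ P) A (Ideal.Quotient.mk P r) := rfl
  have h2 : g r = algebraMap (R ⧸ P) B (Ideal.Quotient.mk P r) := rfl
  rw [h1, h2]
  simp only [RingHom.comp_apply, AlgHom.toRingHom_eq_coe, RingHom.coe_coe, AlgHom.commutes]

section place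

variable {k : Type} [Field k]

/-- A homomorphism from a subring of `Ω` to a field extends to a valuation ring, up to an extension
of the field. -/
theorem exists_val {Ω F R : Type} [Field Ω] [Algebra k Ω] [Field F] [Algebra k F] [CommRing R]
    [Algebra k R] (j : R →ₐ[k] Ω) (hj : Function.Injective j) (β : R →ₐ[k] F) :
    ∃ (V : Subalgebra k Ω) (hV : ∀ r, j r ∈ V) (F' : Type) (_ : Field F') (_ : Algebra k F')
      (ρ : F →ₐ[k] F') (π : V →ₐ[k] F'), (∀ r, π ⟨j r, hV r⟩ = ρ (β r)) ∧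
      (∀ x, IsIntegral V x → x ∈ V) ∧ (∀ v : V, π v ≠ 0 → (v : Ω)⁻¹ ∈ V) ∧
      ∀ (T : Type) [Finite T] (u : T → Ω), u ≠ 0 → ∃ c : Ω, c ≠ 0 ∧ ∃ v : T → V,
        (∀ t, V.val (v t) = c * u t) ∧ (fun t => π (v t)) ≠ 0 := by
  let S : Subring Ω := j.toRingHom.range
  let e : R ≃+* S := RingEquiv.ofBijective j.toRingHom.rangeRestrict
    ⟨fun a b h => hj (congrArg Subtype.val h), j.toRingHom.rangeRestrict_surjective⟩
  let P : Ideal S := RingHom.ker (β.toRingHom.comp e.symm.toRingHom)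
  have hP : P.IsPrime := RingHom.ker_isPrime _
  obtain ⟨W, hW⟩ := (LocalSubring.ofPrime S P).exists_le_valuationSubring
  have hSW : ∀ r, j r ∈ W := fun r => hW.1 (LocalSubring.le_ofPrime S P ⟨r, rfl⟩)
  have hunit : ∀ r, residue W ⟨j r, hSW r⟩ = 0 ↔ β r = 0 := by
    intro r
    have hr : (⟨j r, ⟨r, rfl⟩⟩ : S) ∈ P ↔ β r = 0 := by
      rw [RingHom.mem_ker]
      have : e.symm ⟨j r, ⟨r, rfl⟩⟩ = r := by
        rw [RingEquiv.symm_apply_eq]
        rfl
      show β (e.symm ⟨j r, ⟨r, rfl⟩⟩) = 0 ↔ _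
      rw [this]
    rw [← hr, residue_eq_zero_iff, mem_maximalIdeal, mem_nonunits_iff]
    have h1 : IsUnit (⟨j r, hSW r⟩ : W) ↔
        IsUnit (algebraMap S (LocalSubring.ofPrime S P).toSubring ⟨j r, ⟨r, rfl⟩⟩) := by
      constructor
      · intro h
        have := hW.2
        exact IsUnit.of_map (Subring.inclusion hW.1) _ h
      · intro h
        exact h.map (Subring.inclusion hW.1)
    rw [h1, IsLocalization.AtPrime.isUnit_to_map_iff (LocalSubring.ofPrime S P).toSubring P]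
    simp [Ideal.primeCompl]
  obtain ⟨F', _, u, v, huv⟩ := amalg
    ((residue W).comp (j.toRingHom.codRestrict W.toSubring hSW)) β.toRingHom hunit
  let _ : Algebra k F' := (v.comp (algebraMap k F)).toAlgebra
  let V : Subalgebra k Ω :=
    { W.toSubring.toSubsemiring with
      algebraMap_mem' := fun c => by
        have := hSW (algebraMap k R c)
        rw [AlgHom.commutes] at this
        exact this }
  let ρ : F →ₐ[k] F' := { v with commutes' := fun c => rfl }
  let π0 : V →+* F' := u.comp ((residue W).comp (RingHom.id W))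
  have hπ0 : ∀ r (h : j r ∈ V), π0 ⟨j r, h⟩ = ρ (β r) := fun r h => huv r
  let π : V →ₐ[k] F' := { π0 with
    commutes' := fun c => by
      have h2 : (algebraMap k V c) = ⟨j (algebraMap k R c), hSW _⟩ := by
        apply Subtype.ext
        exact (AlgHom.commutes j c).symm
      show π0 (algebraMap k V c) = _
      rw [h2]
      refine (hπ0 _ (hSW _)).trans ?_
      rw [AlgHom.commutes β, AlgHom.commutes ρ] }
  refine ⟨V, hSW, F', inferInstance, inferInstance, ρ, π, fun r => hπ0 r (hSW r), ?_, ?_, ?_⟩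
  · intro x hx
    have hx' : IsIntegral W x := hx
    obtain ⟨w, hw⟩ := IsIntegrallyClosed.isIntegral_iff.1 hx'
    rw [← hw]
    exact w.2
  · intro w hw
    have h1 : residue W (w : W) ≠ 0 := by
      intro h0
      apply hw
      show u (residue W w) = 0
      rw [h0, map_zero]
    rw [Ne, residue_eq_zero_iff, mem_maximalIdeal, mem_nonunits_iff, not_not] at h1
    obtain ⟨w', hw'⟩ := isUnit_iff_exists_inv.1 h1
    have h2 : (w : Ω) * (w' : Ω) = 1 := congrArg Subtype.val hw'
    have h3 : (w : Ω)⁻¹ = w' := inv_eq_of_mul_eq_one_right h2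
    rw [h3]
    exact w'.2
  intro T _ w hw
  obtain ⟨t1, ht1⟩ := exists_ne hw
  have : Nonempty T := ⟨t1⟩
  obtain ⟨t0, ht0⟩ := Finite.exists_max (fun t => W.valuation (w t))
  have hwt : w t0 ≠ 0 := by
    intro h0
    have := ht0 t1
    rw [h0, map_zero, le_zero_iff, map_eq_zero] at this
    exact ht1 this
  have hmem : ∀ t, (w t0)⁻¹ * w t ∈ W := by
    intro t
    rw [← W.valuation_le_one_iff, map_mul, map_inv₀]
    have h1 : W.valuation (w t0) ≠ 0 := (Valuation.ne_zero_iff _).2 hwt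
    rw [inv_mul_le_one₀ (zero_lt_iff.2 h1)]
    exact ht0 t
  refine ⟨(w t0)⁻¹, inv_ne_zero hwt, fun t => ⟨(w t0)⁻¹ * w t, hmem t⟩, fun t => rfl, ?_⟩
  intro h
  have h1 := congrFun h t0
  have h2 : (⟨(w t0)⁻¹ * w t0, hmem t0⟩ : V) = 1 := Subtype.ext (inv_mul_cancel₀ hwt)
  simp only [Pi.zero_apply] at h1
  rw [h2, map_one] at h1
  exact one_ne_zero h1

end place

end Pool.Agent.L5helper21.FN
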