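import Pool.Agent.L5helper21.FN.Vdeg

/-!
# Points of varieties and specialization
-/

set_option autoImplicit false

namespace Pool.Agent.L5helper21.FN

open MvPolynomial FF Module

section general

variable {k : Type} [Field k] {K : Type} [Field K] [Algebra k K] {ι τ : Type}
variable {F : Type} [Field F] [Algebra k F]

theorem Sends.smul {y : ι → K} {z : τ → K} {p : ι → F} {q : τ → F} (h : Sends k y z p q) {c : F}
    (hc : c ≠ 0) : Sends k y z p (fun t => c * q t) := by
  obtain ⟨hq, m, A, e, d, hA, he, hd, h1, h2⟩ := h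
  refine ⟨smul_ne hq hc, m, A, e, d * c⁻¹, hA, he, mul_ne_zero hd (inv_ne_zero hc), h1, fun t => ?_⟩
  rw [h2 t]
  field_simp

theorem Sends.smul_left {y : ι → K} {z : τ → K} {p : ι → F} {q : τ → F} (h : Sends k y z p q) {c : F}
    (hc : c ≠ 0) : Sends k y z (fun i => c * p i) q := by
  obtain ⟨hq, m, A, e, d, hA, he, hd, h1, h2⟩ := h
  refine ⟨hq, m, A, e, c ^ m * d, hA, he, mul_ne_zero (pow_ne_zero _ hc) hd, h1, fun t => ?_⟩
  rw [hom_smul (hA t), h2 t, mul_assoc]

/-- two representations of a map give the same value -/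
theorem cross {y : ι → K} {z : τ → K} {p : ι → F} (hp : IsPt k y p) {m n : ℕ}
    {A B : τ → MvPolynomial ι k} (hA : ∀ t, (A t).IsHomogeneous m) (hB : ∀ t, (B t).IsHomogeneous n)
    {c d : K} (h1 : ∀ t, aeval y (A t) = c * z t) (h2 : ∀ t, aeval y (B t) = d * z t) (s t : τ) :
    aeval p (A s) * aeval p (B t) = aeval p (A t) * aeval p (B s) := by
  have h3 : aeval y (A s * B t - A t * B s) = 0 := by
    rw [map_sub, map_mul, map_mul, h1, h2, h1, h2]; ring
  have h4 := hp.2 (m + n) (A s * B t - A t * B s)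
    (((hA s).mul (hB t)).sub ((hA t).mul (hB s))) h3
  rw [map_sub, map_mul, map_mul] at h4
  exact sub_eq_zero.1 h4

theorem prop_of_cross {q r : τ → F} (hq : q ≠ 0) (hr : r ≠ 0)
    (h : ∀ s t, q s * r t = q t * r s) : ∃ c : F, c ≠ 0 ∧ ∀ t, r t = c * q t := by
  obtain ⟨t, ht⟩ := exists_ne hq
  have hrt : r t ≠ 0 := by
    intro h0
    apply hr
    ext s
    have := h s t
    rw [h0, mul_zero] at this
    exact (mul_eq_zero.1 this.symm).resolve_left ht
  refine ⟨r t / q t, div_ne_zero hrt ht, fun s => ?_⟩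
  have := h s t
  field_simp
  linear_combination -this

theorem Sends.unique {y : ι → K} {z : τ → K} {p : ι → F} (hp : IsPt k y p) {q r : τ → F}
    (h : Sends k y z p q) (h' : Sends k y z p r) : ∃ c : F, c ≠ 0 ∧ ∀ t, r t = c * q t := by
  obtain ⟨hq, m, A, e, d, hA, he, hd, h1, h2⟩ := h
  obtain ⟨hr, n, B, e', d', hB, he', hd', h1', h2'⟩ := h'
  refine prop_of_cross hq hr fun s t => ?_
  have := cross hp hA hB h1 h1' s t
  rw [h2, h2, h2', h2'] at this
  have h3 : d * d' * (q s * r t - q t * r s) = 0 := by linear_combination this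
  exact sub_eq_zero.1 ((mul_eq_zero.1 h3).resolve_left (mul_ne_zero hd hd'))

/-- the point given by homogeneous coordinates of the generic point in a larger field -/
theorem isPt_gen {y : ι → K} (hy : y ≠ 0) (σ : K →ₐ[k] F) : IsPt k y (fun i => σ (y i)) := by
  obtain ⟨i, hi⟩ := exists_ne hy
  refine ⟨fun h => hi ?_, fun m G _ h => ?_⟩
  · exact (map_eq_zero σ).1 (congrFun h i)
  · have : aeval (fun i => σ (y i)) G = σ (aeval y G) := by
      rw [← AlgHom.comp_apply]
      congr 1
      ext i; simp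
    rw [this, h, map_zero]

theorem aeval_comp' {R S : Type*} [CommRing R] [CommRing S] [Algebra k R] [Algebra k S]
    (π : R →ₐ[k] S) (p : ι → R) (G : MvPolynomial ι k) :
    aeval (fun i => π (p i)) G = π (aeval p G) := by
  rw [← AlgHom.comp_apply]
  congr 1
  ext i; simp

/-- Specialization of points. -/
theorem IsPt.spec {y : ι → K} {R Ω : Type} [CommRing R] [Algebra k R] [Field Ω] [Algebra k Ω]
    (j : R →ₐ[k] Ω) (hj : Function.Injective j) (π : R →ₐ[k] F) {p : ι → R}
    (hp : IsPt k y (fun i => j (p i))) (hp' : (fun i => π (p i)) ≠ 0) :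
    IsPt k y (fun i => π (p i)) := by
  refine ⟨hp', fun m G hG h => ?_⟩
  have h1 := hp.2 m G hG h
  rw [aeval_comp'] at h1 ⊢
  have h2 : aeval p G = 0 := hj (by rw [h1, map_zero])
  rw [h2, map_zero]

/-- A map which is regular at a specialization of a point is regular at the point, and the value is
specialized. -/
theorem Sends.spec {y : ι → K} {z : τ → K} {R Ω : Type} [CommRing R] [Algebra k R] [Field Ω]
    [Algebra k Ω] (j : R →ₐ[k] Ω) (hj : Function.Injective j) (π : R →ₐ[k] F) {p : ι → R}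
    {q : τ → R} (hp : IsPt k y (fun i => j (p i))) (hq : (fun t => π (q t)) ≠ 0)
    (h : Sends k y z (fun i => j (p i)) (fun t => j (q t))) {r : τ → F}
    (hr : Sends k y z (fun i => π (p i)) r) : Sends k y z (fun i => π (p i)) (fun t => π (q t)) := by
  have hr0 := hr
  obtain ⟨hj0, m, A, e, d, hA, he, hd, h1, h2⟩ := h
  obtain ⟨hr', n, B, e', d', hB, he', hd', h1', h2'⟩ := hr
  have h3 : ∀ s t, aeval p (B s) * q t = aeval p (B t) * q s := by
    intro s t
    apply hj
    rw [map_mul, map_mul, ← aeval_comp', ← aeval_comp']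
    have := cross hp hB hA h1' h1 s t
    rw [h2, h2] at this
    have h4 : d * (aeval (fun i => j (p i)) (B s) * j (q t) -
        aeval (fun i => j (p i)) (B t) * j (q s)) = 0 := by linear_combination this
    exact sub_eq_zero.1 ((mul_eq_zero.1 h4).resolve_left hd)
  have h5 : ∀ s t, r s * π (q t) = r t * π (q s) := by
    intro s t
    have := congrArg π (h3 s t)
    rw [map_mul, map_mul, ← aeval_comp', ← aeval_comp', h2', h2'] at this
    have h4 : d' * (r s * π (q t) - r t * π (q s)) = 0 := by linear_combination this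
    exact sub_eq_zero.1 ((mul_eq_zero.1 h4).resolve_left hd')
  obtain ⟨c, hc, h6⟩ := prop_of_cross hr' hq h5
  rw [funext h6]
  exact hr0.smul hc

theorem Sends.of_spec {y : ι → K} {z : τ → K} {R Ω : Type} [CommRing R] [Algebra k R] [Field Ω]
    [Algebra k Ω] (j : R →ₐ[k] Ω) (hj : Function.Injective j) (π : R →ₐ[k] F) {p : ι → R}
    {r : τ → F} (hr : Sends k y z (fun i => π (p i)) r) :
    ∃ q : τ → Ω, Sends k y z (fun i => j (p i)) q := by
  obtain ⟨hr', n, B, e', d', hB, he', hd', h1', h2'⟩ := hr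
  refine ⟨fun t => j (aeval p (B t)), ?_, n, B, e', 1, hB, he', one_ne_zero, h1', fun t => ?_⟩
  · obtain ⟨t, ht⟩ := exists_ne hr'
    intro h
    have h1 : aeval p (B t) = 0 := hj (by rw [map_zero]; exact congrFun h t)
    have h2 := h2' t
    rw [aeval_comp', h1, map_zero] at h2
    exact mul_ne_zero hd' ht h2.symm
  · rw [aeval_comp', one_mul]

/-- polynomial relations between the affine coordinates -/
theorem IsPt.affine {y : ι → K} {p : ι → F} (hp : IsPt k y p) {a : ι} (ha : p a ≠ 0)
    {G : MvPolynomial ι k} (h : aeval (fun i => (y a)⁻¹ * y i) G = 0) :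
    aeval (fun i => (p a)⁻¹ * p i) G = 0 := by
  classical
  have hya : y a ≠ 0 := by
    intro h0
    have := hp.2 1 (X a) (isHomogeneous_X _ _) (by simpa using h0)
    rw [aeval_X] at this
    exact ha this
  -- homogenization
  let N := G.totalDegree
  let H : MvPolynomial ι k := ∑ d ∈ Finset.range (N + 1), X a ^ (N - d) * homogeneousComponent d G
  have hH : H.IsHomogeneous N := by
    apply IsHomogeneous.sum
    intro d hd
    have h1 := (isHomogeneous_X_pow (R := k) a (N - d)).mul (homogeneousComponent_isHomogeneous d G)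
    rwa [Nat.sub_add_cancel (Nat.lt_succ_iff.1 (Finset.mem_range.1 hd))] at h1
  have key : ∀ {E : Type} [Field E] [Algebra k E] (u : ι → E), u a ≠ 0 →
      aeval u H = u a ^ N * aeval (fun i => (u a)⁻¹ * u i) G := by
    intro E _ _ u hu
    have h1 : aeval (fun i => (u a)⁻¹ * u i) G =
        ∑ d ∈ Finset.range (N + 1), (u a)⁻¹ ^ d * aeval u (homogeneousComponent d G) := by
      conv_lhs => rw [← sum_homogeneousComponent G, map_sum]
      exact Finset.sum_congr rfl fun d _ => hom_smul (homogeneousComponent_isHomogeneous d G) _ _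
    rw [h1, Finset.mul_sum]
    simp only [H, map_sum, map_mul, map_pow, aeval_X]
    refine Finset.sum_congr rfl fun d hd => ?_
    have h2 : d ≤ N := Nat.lt_succ_iff.1 (Finset.mem_range.1 hd)
    rw [← mul_assoc]
    congr 1
    rw [inv_pow, ← div_eq_mul_inv, pow_sub₀ _ hu h2, div_eq_mul_inv]
  have h1 := key y hya
  rw [h, mul_zero] at h1
  have h2 := hp.2 N H hH h1
  rw [key p ha] at h2
  exact (mul_eq_zero.1 h2).resolve_left (pow_ne_zero _ ha)

theorem IsPt.ne {y : ι → K} {p : ι → F} (hp : IsPt k y p) {a : ι} (ha : p a ≠ 0) : y a ≠ 0 := by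
  intro h0
  have := hp.2 1 (X a) (isHomogeneous_X _ _) (by simpa using h0)
  rw [aeval_X] at this
  exact ha this

theorem exists_lift {P R S : Type*} [CommRing P] [CommRing R] [CommRing S] [Algebra k P]
    [Algebra k R] [Algebra k S] (f : P →ₐ[k] R) (hf : Function.Surjective f) (g : P →ₐ[k] S)
    (h : ∀ x, f x = 0 → g x = 0) : ∃ φ : R →ₐ[k] S, ∀ x, φ (f x) = g x := by
  let e := Ideal.quotientKerAlgEquivOfSurjective hf
  let φ : (P ⧸ RingHom.ker f) →ₐ[k] S :=
    Ideal.Quotient.liftₐ _ g fun x hx => h x ((RingHom.mem_ker).1 hx)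
  refine ⟨φ.comp e.symm.toAlgHom, fun x => ?_⟩
  have h1 : e.symm (f x) = Ideal.Quotient.mk _ x := by
    rw [AlgEquiv.symm_apply_eq]
    rfl
  show φ (e.symm (f x)) = _
  rw [h1]
  rfl

/-- the coordinate ring of the chart `y a ≠ 0` -/
noncomputable def chart (k : Type) [Field k] {K : Type} [Field K] [Algebra k K] {ι : Type}
    (y : ι → K) (a : ι) : Subalgebra k K :=
  (aeval (fun i => (y a)⁻¹ * y i) : MvPolynomial ι k →ₐ[k] K).range

/-- the affine coordinates -/
noncomputable def chx (y : ι → K) (a i : ι) : chart k y a := ⟨(y a)⁻¹ * y i, X i, by simp⟩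

/-- evaluation of the functions in a chart at a point -/
theorem exists_ev {y : ι → K} {p : ι → F} (hp : IsPt k y p) {a : ι} (ha : p a ≠ 0) :
    ∃ φ : chart k y a →ₐ[k] F, ∀ i, φ (chx y a i) = (p a)⁻¹ * p i := by
  let f : MvPolynomial ι k →ₐ[k] K := aeval (fun i => (y a)⁻¹ * y i)
  let g : MvPolynomial ι k →ₐ[k] F := aeval (fun i => (p a)⁻¹ * p i)
  obtain ⟨φ, hφ⟩ := exists_lift f.rangeRestrict f.rangeRestrict_surjective g (by
    intro G hG
    apply hp.affine ha
    exact congrArg Subtype.val hG)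
  refine ⟨φ, fun i => ?_⟩
  have h1 : f.rangeRestrict (X i) = chx y a i := by
    apply Subtype.ext
    simp [f, chx]
  have h2 := hφ (X i)
  rw [h1] at h2
  exact h2.trans (by simp [g])

theorem isPt_self {y : ι → K} (hy : y ≠ 0) : IsPt k y y := by
  refine ⟨hy, fun m G _ h => h⟩

/-- homomorphisms from subalgebras of `K` which contain affine coordinates give points -/
theorem isPt_of_hom {y : ι → K} {a : ι} (ha : y a ≠ 0) {R : Type} [CommRing R] [Algebra k R]
    (j : R →ₐ[k] K) (hj : Function.Injective j) (φ : R →ₐ[k] F) {x : ι → R}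
    (hx : ∀ i, j (x i) = (y a)⁻¹ * y i) :
    IsPt k y (fun i => φ (x i)) ∧ φ (x a) = 1 := by
  have h1 : x a = 1 := hj (by rw [hx, map_one, inv_mul_cancel₀ ha])
  have h2 : φ (x a) = 1 := by rw [h1, map_one]
  refine ⟨IsPt.spec j hj φ ?_ ?_, h2⟩
  · rw [funext hx]
    exact (isPt_self (fun h => ha (congrFun h a))).smul (inv_ne_zero ha)
  · intro h
    have := congrFun h a
    simp only [Pi.zero_apply] at this
    rw [h2] at this
    exact one_ne_zero this

/-- affine coordinates as ratios -/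
theorem sends_self {y : ι → K} {p : ι → F} (hp : IsPt k y p) : Sends k y y p p := by
  refine ⟨hp.1, 1, fun i => X i, 1, 1, fun i => isHomogeneous_X _ _, one_ne_zero, one_ne_zero,
    fun i => by simp, fun i => by simp⟩

theorem isMor_self {y : ι → K} (hy : y ≠ 0) : IsMor k y y :=
  ⟨hy, fun p hp => ⟨p, sends_self hp⟩⟩

end general

section closed

variable {k : Type} [Field k] [IsAlgClosed k]

theorem exists_point {A : Type*} [CommRing A] [IsDomain A] [Algebra k A] [Algebra.FiniteType k A]
    {c : A} (hc : c ≠ 0) : ∃ φ : A →ₐ[k] k, φ c ≠ 0 := by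
  have hJ : IsJacobsonRing A := isJacobsonRing_of_finiteType (A := k)
  have hbot : (⊥ : Ideal A).jacobson = ⊥ := by
    rw [← Ideal.radical_eq_jacobson]
    exact (Ideal.isPrime_bot (α := A)).radical
  obtain ⟨m, hm, hmc⟩ : ∃ m : Ideal A, m.IsMaximal ∧ c ∉ m := by
    by_contra hno
    push Not at hno
    have h1 : c ∈ (⊥ : Ideal A).jacobson := by
      rw [Ideal.jacobson, Ideal.mem_sInf]
      exact fun {I} hI => hno I hI.2
    rw [hbot, Ideal.mem_bot] at h1
    exact hc h1
  let _ : Field (A ⧸ m) := Ideal.Quotient.field m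
  have : Algebra.FiniteType k (A ⧸ m) :=
    Algebra.FiniteType.of_surjective (Ideal.Quotient.mkₐ k m) (Ideal.Quotient.mkₐ_surjective k m)
  have : Module.Finite k (A ⧸ m) := finite_of_finite_type_of_isJacobsonRing k (A ⧸ m)
  have hbij : Function.Bijective (algebraMap k (A ⧸ m)) :=
    IsAlgClosed.algebraMap_bijective_of_isIntegral
  let e : k ≃ₐ[k] (A ⧸ m) := AlgEquiv.ofBijective (Algebra.ofId k (A ⧸ m)) hbij
  refine ⟨(e.symm : (A ⧸ m) →ₐ[k] k).comp (Ideal.Quotient.mkₐ k m), fun h => hmc ?_⟩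
  have h1 : e.symm (Ideal.Quotient.mk m c) = 0 := h
  rw [map_eq_zero_iff _ e.symm.injective] at h1
  exact Ideal.Quotient.eq_zero_iff_mem.1 h1

variable {K : Type} [Field K] [Algebra k K] {ι τ : Type} {F : Type} [Field F] [Algebra k F]

omit [IsAlgClosed k] in
theorem ft_range {A B : Type*} [CommRing A] [CommRing B] [Algebra k A] [Algebra k B]
    [Algebra.FiniteType k A] (f : A →ₐ[k] B) : Algebra.FiniteType k f.range :=
  Algebra.FiniteType.of_surjective f.rangeRestrict f.rangeRestrict_surjective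

omit [IsAlgClosed k] in
instance [Finite ι] (y : ι → K) (a : ι) : Algebra.FiniteType k (chart k y a) :=
  ft_range _

/-- specializations of a point to closed points -/
theorem exists_spec [Finite ι] {y : ι → K} {p : ι → F} (hp : IsPt k y p) {a : ι} (ha : p a ≠ 0) :
    ∃ (R : Subalgebra k F) (x : ι → R) (χ : R →ₐ[k] k), (∀ i, (x i : F) = (p a)⁻¹ * p i) ∧
      IsPt k y (fun i => χ (x i)) := by
  let R : Subalgebra k F := (aeval (fun i => (p a)⁻¹ * p i) : MvPolynomial ι k →ₐ[k] F).range
  have hft : Algebra.FiniteType k R := ft_range _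
  obtain ⟨χ, -⟩ := exists_point (k := k) (A := R) one_ne_zero
  let x : ι → R := fun i => ⟨(p a)⁻¹ * p i, X i, by simp⟩
  refine ⟨R, x, χ, fun i => rfl, ?_⟩
  refine IsPt.spec R.val Subtype.val_injective χ (p := x) (hp.smul (inv_ne_zero ha)) ?_
  intro h
  have h1 : x a = 1 := Subtype.ext (inv_mul_cancel₀ ha)
  have := congrFun h a
  simp only [Pi.zero_apply] at this
  rw [h1, map_one] at this
  exact one_ne_zero this

/-- a morphism is regular at the points with coordinates in extension fields -/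
theorem IsMor.reg [Finite ι] {y : ι → K} {z : τ → K} (hz : IsMor k y z) {p : ι → F}
    (hp : IsPt k y p) : ∃ q : τ → F, Sends k y z p q := by
  obtain ⟨a, ha⟩ := exists_ne hp.1
  obtain ⟨R, x, χ, hx, h1⟩ := exists_spec hp ha
  obtain ⟨r, hr⟩ := hz.2 _ h1
  obtain ⟨q, hq⟩ := hr.of_spec R.val Subtype.val_injective χ
  have h2 : (fun i => R.val (x i)) = fun i => (p a)⁻¹ * p i := funext hx
  rw [h2] at hq
  have h3 := hq.smul_left ha
  refine ⟨q, ?_⟩
  convert h3 using 2
  rw [mul_inv_cancel_left₀ ha]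

/-- the image of the generic point in a larger field -/
theorem IsMor.gen [Finite ι] {y : ι → K} {z : τ → K} (hy : y ≠ 0) (hz : IsMor k y z)
    (σ : K →ₐ[k] F) : Sends k y z (fun i => σ (y i)) (fun t => σ (z t)) := by
  obtain ⟨q, hq, m, A, c, d, hA, hc, hd, h1, h2⟩ := hz.reg (isPt_gen hy σ)
  refine ⟨?_, m, A, c, σ c, hA, hc, (map_ne_zero σ).2 hc, h1, fun t => ?_⟩
  · obtain ⟨t, ht⟩ := exists_ne hz.1
    intro h
    exact ht ((map_eq_zero σ).1 (congrFun h t))
  · rw [aeval_comp', h1, map_mul]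

theorem exists_kpt [Finite ι] {y : ι → K} (hy : y ≠ 0) : ∃ x : ι → k, IsPt k y x := by
  obtain ⟨a, ha⟩ := exists_ne hy
  obtain ⟨R, x, χ, -, h1⟩ := exists_spec (isPt_self (k := k) hy) ha
  exact ⟨_, h1⟩

omit [IsAlgClosed k] in
/-- points with coordinates in `k`, in an extension field -/
theorem IsPt.ext {y : ι → K} {x : ι → k} (hx : IsPt k y x) :
    IsPt k y (fun i => algebraMap k F (x i)) := by
  obtain ⟨i, hi⟩ := exists_ne hx.1
  refine ⟨fun h => hi ((map_eq_zero (algebraMap k F)).1 (congrFun h i)), fun m G hG h => ?_⟩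
  have h1 := aeval_comp' (Algebra.ofId k F) x G
  rw [hx.2 m G hG h, map_zero] at h1
  exact h1

omit [IsAlgClosed k] in
theorem Sends.ext' {y : ι → K} {z : τ → K} {x : ι → k} {q : τ → k} (h : Sends k y z x q) :
    Sends k y z (fun i => algebraMap k F (x i)) (fun t => algebraMap k F (q t)) := by
  obtain ⟨hq, m, A, c, d, hA, hc, hd, h1, h2⟩ := h
  obtain ⟨t, ht⟩ := exists_ne hq
  refine ⟨fun h => ht ((map_eq_zero (algebraMap k F)).1 (congrFun h t)), m, A, c, algebraMap k F d,
    hA, hc, (map_ne_zero _).2 hd, h1, fun t => ?_⟩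
  have h3 := aeval_comp' (Algebra.ofId k F) x (A t)
  rw [h2] at h3
  exact h3.trans (map_mul _ _ _)

end closed

end Pool.Agent.L5helper21.FN
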