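import Pool.Agent.L5helper21.FN.CaseB

/-!
# Curves through general points in the fibres of a morphism
-/

set_option autoImplicit false

namespace Pool.Agent.L5helper21.FN

open FF Module Polynomial

section alg

variable {k : Type} [Field k] {K : Type} [Field K] [Algebra k K]

/-- a ring over which `t` is transcendental such that `K` is algebraic over the ring with `t` -/
theorem exists_E (L : IntermediateField k K) {t : K} (ht : Transcendental L t) :
    ∃ E : Subalgebra L K, Transcendental E t ∧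
      Algebra.IsAlgebraic (Algebra.adjoin E ({t} : Set K)) K := by
  classical
  have hs : AlgebraicIndepOn L id ({t} : Set K) := by
    have h1 : AlgebraicIndependent L (fun x : ({t} : Set K) => (x : K)) := by
      rw [algebraicIndependent_unique_type_iff]
      exact ht
    exact h1
  obtain ⟨T, hT, hT'⟩ := exists_isTranscendenceBasis_superset hs
  let i0 : T := ⟨t, hT rfl⟩
  let E : Subalgebra L K := Algebra.adjoin L (((↑) : T → K) '' {u | u ≠ i0})
  refine ⟨E, hT'.1.transcendental_adjoin (s := {u | u ≠ i0}) (i := i0) (by simp), ?_⟩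
  have h1 : Algebra.IsAlgebraic (Algebra.adjoin L (Set.range ((↑) : T → K))) K := hT'.isAlgebraic
  have h2 : Algebra.adjoin L (Set.range ((↑) : T → K)) ≤
      (Algebra.adjoin E ({t} : Set K)).restrictScalars L := by
    rw [Algebra.adjoin_le_iff]
    rintro _ ⟨u, rfl⟩
    by_cases hu : u = i0
    · have h3 : t ∈ Algebra.adjoin E ({t} : Set K) := Algebra.subset_adjoin (Set.mem_singleton t)
      rw [hu]
      exact h3
    · have h3 : (u : K) ∈ E := Algebra.subset_adjoin ⟨u, hu, rfl⟩
      have h4 := Subalgebra.algebraMap_mem (Algebra.adjoin E ({t} : Set K)) (⟨u, h3⟩ : E)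
      exact h4
  constructor
  intro x
  let f := Subalgebra.inclusion h2
  let _ : Algebra (Algebra.adjoin L (Set.range ((↑) : T → K))) (Algebra.adjoin E ({t} : Set K)) :=
    f.toRingHom.toAlgebra
  have : IsScalarTower (Algebra.adjoin L (Set.range ((↑) : T → K)))
      (Algebra.adjoin E ({t} : Set K)) K := IsScalarTower.of_algebraMap_eq fun x => rfl
  refine (h1.isAlgebraic x).extendScalars ?_
  exact Subalgebra.inclusion_injective h2

/-- lifting of polynomials to subrings -/
theorem lift_poly {E : Type} [CommRing E] [Algebra E K] {E₀ : Subalgebra k K} {t : K} (a : E[X])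
    (ha : ∀ i, algebraMap E K (a.coeff i) ∈ E₀) : ∃ a₀ : E₀[X], aeval t a₀ = aeval t a := by
  refine ⟨∑ i ∈ a.support, monomial i (⟨_, ha i⟩ : E₀), ?_⟩
  rw [map_sum, aeval_eq_sum_range' (Nat.lt_succ_self _), Finset.sum_subset (s₁ := a.support)
    (s₂ := Finset.range (a.natDegree + 1))]
  · refine Finset.sum_congr rfl fun i _ => ?_
    rw [aeval_monomial, Algebra.smul_def]
    rfl
  · exact fun i hi => Finset.mem_range.2 (Nat.lt_succ_iff.2 (le_natDegree_of_mem_supp i hi))
  · intro i _ hi
    rw [aeval_monomial]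
    have h1 : a.coeff i = 0 := notMem_support_iff.1 hi
    have h2 : (algebraMap E₀ K) ⟨_, ha i⟩ = 0 := by
      show algebraMap E K (a.coeff i) = 0
      rw [h1, map_zero]
    rw [h2, zero_mul]

end alg

section curve

variable {k : Type} [Field k] [IsAlgClosed k] {K : Type} [Field K] [Algebra k K]

omit [IsAlgClosed k] in
theorem ff_ratFunc : IsFF k (RatFunc k) := by
  refine IsFF.of_finite (f := (RatFunc.X : RatFunc k)) RatFunc.transcendental_X ?_
  rw [RatFunc.adjoin_X]
  exact Module.Finite.of_surjective (Algebra.linearMap (⊤ : IntermediateField k (RatFunc k))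
    (RatFunc k)) fun z => ⟨⟨z, trivial⟩, rfl⟩

/-- Specialization to a function field of one variable such that `t` stays transcendental, the
elements of `S` are regular and the nonzero ones do not vanish, and those in `L` become constant. -/
theorem exists_curve (L : IntermediateField k K) {t : K} (ht : Transcendental L t) (S : Finset K) :
    ∃ (F : Type) (_ : Field F) (_ : Algebra k F) (_ : IsFF k F) (R : Type) (_ : CommRing R)
      (_ : Algebra k R) (j : R →ₐ[k] K) (φ : R →ₐ[k] F), Function.Injective j ∧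
      (∃ r, j r = t ∧ Transcendental k (φ r)) ∧
      ∀ s ∈ S, ∃ r, j r = s ∧ (s ≠ 0 → φ r ≠ 0) ∧ (s ∈ L → ∃ a : k, φ r = algebraMap k F a) := by
  classical
  obtain ⟨E, hE, halg⟩ := exists_E L ht
  let S' : Finset K := S ∪ S.image (fun s => s⁻¹)
  obtain ⟨c, hc, hint⟩ := Algebra.IsAlgebraic.exists_integral_multiples
    (Algebra.adjoin E ({t} : Set K)) S'
  have hpoly : ∀ a : Algebra.adjoin E ({t} : Set K), ∃ p : E[X], aeval t p = (a : K) := by
    intro a
    have h : (a : K) ∈ (aeval t : E[X] →ₐ[E] K).range := by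
      rw [← Algebra.adjoin_singleton_eq_range_aeval]
      exact a.2
    exact h
  choose P hP using hpoly
  choose Q hQm hQ using hint
  -- the coefficients
  let D : Set K := (⋃ (s : S') (i : ℕ) (_ : i ∈ (Q s.1 s.2).support) (l : ℕ)
    (_ : l ∈ (P ((Q s.1 s.2).coeff i)).support),
      {algebraMap E K ((P ((Q s.1 s.2).coeff i)).coeff l)}) ∪
    (⋃ (l : ℕ) (_ : l ∈ (P c).support), {algebraMap E K ((P c).coeff l)}) ∪
    {s | s ∈ S ∧ s ∈ L}
  have hD : D.Finite := by
    refine Set.Finite.union (Set.Finite.union ?_ ?_) ?_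
    · refine Set.finite_iUnion fun s => ?_
      refine Set.Finite.biUnion (Finset.finite_toSet _) fun i _ => ?_
      exact Set.Finite.biUnion (Finset.finite_toSet _) fun l _ => Set.finite_singleton _
    · exact Set.Finite.biUnion (Finset.finite_toSet _) fun l _ => Set.finite_singleton _
    · exact S.finite_toSet.subset fun s hs => hs.1
  let E₀ : Subalgebra k K := Algebra.adjoin k D
  have hE₀E : ∀ x ∈ E₀, x ∈ E := by
    have h1 : E₀ ≤ E.restrictScalars k := by
      rw [Algebra.adjoin_le_iff]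
      rintro x ((hx | hx) | hx)
      · simp only [Set.mem_iUnion, Set.mem_singleton_iff] at hx
        obtain ⟨s, i, -, l, -, rfl⟩ := hx
        exact SetLike.coe_mem _
      · simp only [Set.mem_iUnion, Set.mem_singleton_iff] at hx
        obtain ⟨l, -, rfl⟩ := hx
        exact SetLike.coe_mem _
      · exact Subalgebra.algebraMap_mem E (⟨x, hx.2⟩ : L)
    exact h1
  have hft : Algebra.FiniteType k E₀ := by
    rw [← Subalgebra.fg_iff_finiteType]
    exact ⟨hD.toFinset, by simp [E₀]⟩
  have htE₀ : Transcendental E₀ t := by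
    intro halg0
    apply hE
    let f : E₀ →+* E := (Subring.inclusion (S := E₀.toSubring) (T := E.toSubring) hE₀E)
    have hf : Function.Injective f := by
      intro a b h
      have h' := congrArg (fun x : E => (x : K)) h
      exact Subtype.ext h'
    obtain ⟨p, hp, hp0⟩ := halg0
    refine ⟨p.map f, ?_, ?_⟩
    · rw [Ne, Polynomial.map_eq_zero_iff hf]
      exact hp
    · rw [aeval_def, eval₂_map]
      exact hp0
  -- the homomorphism on the polynomial ring
  let j₀ : E₀[X] →ₐ[k] K := (aeval t : E₀[X] →ₐ[E₀] K).restrictScalars k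
  have hj₀ : Function.Injective j₀ := transcendental_iff_injective.1 htE₀
  have hPc : ∀ i, algebraMap E K ((P c).coeff i) ∈ E₀ := by
    intro i
    by_cases hi : i ∈ (P c).support
    · apply Algebra.subset_adjoin
      left; right
      simp only [Set.mem_iUnion, Set.mem_singleton_iff]
      exact ⟨i, hi, rfl⟩
    · rw [notMem_support_iff.1 hi, map_zero]
      exact E₀.zero_mem
  obtain ⟨c₀, hc₀⟩ := lift_poly (t := t) (P c) hPc
  rw [hP] at hc₀
  have hc₀0 : c₀ ≠ 0 := by
    rintro rfl
    rw [map_zero] at hc₀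
    exact hc (Subtype.ext hc₀.symm)
  obtain ⟨χ, hχ⟩ := exists_point (k := k) (A := E₀) (leadingCoeff_ne_zero.2 hc₀0)
  let β : E₀[X] →ₐ[k] RatFunc k :=
    (IsScalarTower.toAlgHom k k[X] (RatFunc k)).comp (Polynomial.mapAlgHom χ)
  have hβ : ∀ a, β a = algebraMap k[X] (RatFunc k) (a.map χ.toRingHom) := fun a => rfl
  obtain ⟨V, hV, F', _, _, ρ, π, hπ, hVint, hVinv, -⟩ := exists_val j₀ hj₀ β
  have hβc : β c₀ ≠ 0 := by
    rw [hβ, Ne, map_eq_zero_iff _ (RatFunc.algebraMap_injective k)]
    intro h0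
    apply hχ
    have := congrArg (fun p => p.coeff c₀.natDegree) h0
    simpa using this
  have hcV : (c : K) ∈ V := by
    have := hV c₀
    rwa [show j₀ c₀ = (c : K) from hc₀] at this
  have hπc : π ⟨c, hcV⟩ = ρ (β c₀) := by
    rw [← hπ]
    congr 1
    exact Subtype.ext hc₀.symm
  have hπc0 : π ⟨c, hcV⟩ ≠ 0 := by
    rw [hπc]
    exact (map_ne_zero ρ).2 hβc
  have hcinv : (c : K)⁻¹ ∈ V := hVinv _ hπc0
  have hc0 : (c : K) ≠ 0 := fun h => hc (Subtype.ext h)
  -- integrality of the multiples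
  have hmul : ∀ s ∈ S', ∃ Q₀ : E₀[X][X], Q₀.Monic ∧ eval₂ j₀.toRingHom ((c : K) * s) Q₀ = 0 := by
    intro s hs
    let q : K[X] := (Q s hs).map (algebraMap (Algebra.adjoin E ({t} : Set K)) K)
    have hq : q ∈ lifts j₀.toRingHom := by
      rw [lifts_iff_coeff_lifts]
      intro i
      rw [coeff_map]
      by_cases hi : i ∈ (Q s hs).support
      · have h1 : ∀ l, algebraMap E K ((P ((Q s hs).coeff i)).coeff l) ∈ E₀ := by
          intro l
          by_cases hl : l ∈ (P ((Q s hs).coeff i)).support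
          · apply Algebra.subset_adjoin
            left; left
            simp only [Set.mem_iUnion, Set.mem_singleton_iff]
            exact ⟨⟨s, hs⟩, i, hi, l, hl, rfl⟩
          · rw [notMem_support_iff.1 hl, map_zero]
            exact E₀.zero_mem
        obtain ⟨a₀, ha₀⟩ := lift_poly (t := t) _ h1
        rw [hP] at ha₀
        exact ⟨a₀, ha₀⟩
      · rw [notMem_support_iff.1 hi, map_zero]
        exact ⟨0, map_zero _⟩
    obtain ⟨Q₀, h1, -, h3⟩ := lifts_and_natDegree_eq_and_monic hq ((hQm s hs).map _)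
    refine ⟨Q₀, h3, ?_⟩
    rw [← eval_map, h1, eval_map]
    have := hQ s hs
    rw [Algebra.smul_def] at this
    exact this
  have hmulV : ∀ s ∈ S', (c : K) * s ∈ V := by
    intro s hs
    obtain ⟨Q₀, h1, h2⟩ := hmul s hs
    apply hVint
    let f : E₀[X] →+* V := j₀.toRingHom.codRestrict V.toSubring hV
    refine ⟨Q₀.map f, h1.map f, ?_⟩
    rw [eval₂_map]
    exact h2
  have hSV : ∀ s ∈ S', s ∈ V := by
    intro s hs
    have := V.mul_mem hcinv (hmulV s hs)
    rwa [inv_mul_cancel_left₀ hc0] at this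
  -- the residue field
  let _ : Algebra (RatFunc k) F' := ρ.toRingHom.toAlgebra
  have : IsScalarTower k (RatFunc k) F' := IsScalarTower.of_algebraMap_eq fun c =>
    (ρ.commutes c).symm
  have halgπ : ∀ s (hs : s ∈ S'), IsIntegral (RatFunc k) (π ⟨s, hSV s hs⟩) := by
    intro s hs
    obtain ⟨Q₀, h1, h2⟩ := hmul s hs
    have h3 : IsIntegral (RatFunc k) (π ⟨(c : K) * s, hmulV s hs⟩) := by
      refine ⟨Q₀.map β.toRingHom, h1.map _, ?_⟩
      rw [eval₂_map]
      let f : E₀[X] →+* V := j₀.toRingHom.codRestrict V.toSubring hV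
      have h4 : (algebraMap (RatFunc k) F').comp β.toRingHom = π.toRingHom.comp f := by
        ext a
        · exact (hπ (C a)).symm
        · exact (hπ X).symm
      rw [h4]
      have h5 : eval₂ f ⟨(c : K) * s, hmulV s hs⟩ Q₀ = 0 := by
        apply Subtype.ext
        have h6 := hom_eval₂ Q₀ f V.val.toRingHom ⟨(c : K) * s, hmulV s hs⟩
        exact h6.trans h2
      have h6 := hom_eval₂ Q₀ f π.toRingHom ⟨(c : K) * s, hmulV s hs⟩
      rw [h5, map_zero] at h6
      exact h6.symm
    have h7 : π ⟨(c : K) * s, hmulV s hs⟩ = algebraMap (RatFunc k) F' (β c₀) * π ⟨s, hSV s hs⟩ := by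
      have h8 : (⟨(c : K) * s, hmulV s hs⟩ : V) = ⟨c, hcV⟩ * ⟨s, hSV s hs⟩ := rfl
      rw [h8, map_mul, hπc]
      rfl
    rw [h7] at h3
    have h9 : π ⟨s, hSV s hs⟩ = algebraMap (RatFunc k) F' (β c₀)⁻¹ *
        (algebraMap (RatFunc k) F' (β c₀) * π ⟨s, hSV s hs⟩) := by
      rw [← mul_assoc, ← map_mul, inv_mul_cancel₀ hβc, map_one, one_mul]
    rw [h9]
    exact isIntegral_algebraMap.mul h3
  let Z : Set F' := Set.range fun s : S' => π ⟨s.1, hSV s.1 s.2⟩
  have hZ : Z.Finite := Set.finite_range _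
  let F₀ : IntermediateField (RatFunc k) F' := IntermediateField.adjoin (RatFunc k) Z
  have hfin : FiniteDimensional (RatFunc k) F₀ := by
    have := hZ.to_subtype
    refine IntermediateField.finiteDimensional_adjoin ?_
    rintro _ ⟨s, rfl⟩
    exact halgπ s.1 s.2
  have hffr := ff_ratFunc (k := k)
  have hff : IsFF k F₀ := ff_finite (F := RatFunc k)
  let G : Subalgebra k F' := (F₀.restrictScalars k).toSubalgebra
  let R : Subalgebra k V := G.comap π
  let φ : R →ₐ[k] F₀ := (π.comp R.val).codRestrict G (fun r => r.2)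
  have hmemG : ∀ x : RatFunc k, ρ x ∈ G := fun x => F₀.algebraMap_mem x
  let w : F₀ →ₐ[k] F' := F₀.val.restrictScalars k
  have hφ : ∀ r : R, w (φ r) = π r.1 := fun r => rfl
  refine ⟨F₀, inferInstance, inferInstance, hff, R, inferInstance, inferInstance,
    V.val.comp R.val, φ, ?_, ?_, ?_⟩
  · exact Subtype.val_injective.comp Subtype.val_injective
  · have h1 : π ⟨j₀ X, hV X⟩ ∈ G := by rw [hπ]; exact hmemG _
    refine ⟨⟨⟨j₀ X, hV X⟩, h1⟩, ?_, ?_⟩
    · show aeval t (X : E₀[X]) = t
      rw [aeval_X]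
    · intro h
      have h2 : IsAlgebraic k (π ⟨j₀ X, hV X⟩) := h.algHom w
      rw [hπ] at h2
      have h3 : IsAlgebraic k (β X) := by
        rw [← isAlgebraic_algebraMap_iff (R := k) (A := F') (algebraMap (RatFunc k) F').injective]
        exact h2
      rw [hβ, Polynomial.map_X, RatFunc.algebraMap_X] at h3
      exact RatFunc.transcendental_X h3
  · intro s hs
    have hs' : s ∈ S' := Finset.mem_union_left _ hs
    have hsZ : π ⟨s, hSV s hs'⟩ ∈ Z := ⟨⟨s, hs'⟩, rfl⟩
    have hsF : π ⟨s, hSV s hs'⟩ ∈ F₀ := IntermediateField.subset_adjoin (RatFunc k) Z hsZ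
    have hsG : π ⟨s, hSV s hs'⟩ ∈ G := hsF
    refine ⟨⟨⟨s, hSV s hs'⟩, hsG⟩, rfl, fun hs0 h => ?_, fun hsL => ?_⟩
    · have hsi : s⁻¹ ∈ S' := Finset.mem_union_right _ (Finset.mem_image_of_mem _ hs)
      have h1 : π ⟨s, hSV s hs'⟩ = 0 := by
        rw [← hφ ⟨⟨s, hSV s hs'⟩, hsG⟩, h, map_zero]
      have h2 : (⟨s, hSV s hs'⟩ : V) * ⟨s⁻¹, hSV _ hsi⟩ = 1 :=
        Subtype.ext (mul_inv_cancel₀ hs0)
      have h3 := congrArg π h2
      rw [map_mul, h1, zero_mul, map_one] at h3
      exact zero_ne_one h3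
    · have hsE : s ∈ E₀ := Algebra.subset_adjoin (Or.inr ⟨hs, hsL⟩)
      refine ⟨χ ⟨s, hsE⟩, ?_⟩
      apply Subtype.ext
      show π ⟨s, hSV s hs'⟩ = algebraMap k F' (χ ⟨s, hsE⟩)
      have h1 : (⟨s, hSV s hs'⟩ : V) = ⟨j₀ (C ⟨s, hsE⟩), hV _⟩ := by
        apply Subtype.ext
        show s = aeval t (C (⟨s, hsE⟩ : E₀))
        rw [aeval_C]
        rfl
      rw [h1, hπ, hβ, Polynomial.map_C]
      have h2 : algebraMap k[X] (RatFunc k) (C (χ.toRingHom ⟨s, hsE⟩)) =
          algebraMap k (RatFunc k) (χ ⟨s, hsE⟩) := by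
        rw [IsScalarTower.algebraMap_apply k k[X] (RatFunc k)]
        rfl
      rw [h2, AlgHom.commutes]

end curve

end Pool.Agent.L5helper21.FN
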