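import Pool.Agent.L5helper21.FN.Defs

/-!
# The Néron–Severi space, the nef cone, the cone of curves and extremal contractions

`y` is the generic point of the projective variety `X` over `k` (see `Defs.lean`).
-/

set_option autoImplicit false

namespace Pool.Agent.L5helper21.FN

section defs

variable (k : Type) [Field k] {K : Type} [Field K] [Algebra k K] {ι τ : Type}

/-- The real vector space `N^1(X)` of numerical classes. -/
def NS (y : ι → K) : Type 1 := N1 k y

noncomputable instance NS.grp (y : ι → K) : AddCommGroup (NS k y) := Submodule.addCommGroup (N1 k y)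

noncomputable instance NS.mod (y : ι → K) : Module ℝ (NS k y) := Submodule.module (N1 k y)

variable {k} in
/-- The intersection number of a numerical class and a curve. -/
def inter {y : ι → K} (ℓ : NS k y) (C : Curve k y) : ℝ := ℓ.1 C

/-- The space `N_1(X)`, the dual of `N^1(X)`. -/
abbrev NC (y : ι → K) : Type 1 := Module.Dual ℝ (NS k y)

variable {k} in
/-- The class of a curve in `N_1(X)`. -/
def curveClass {y : ι → K} (C : Curve k y) : NC k y where
  toFun ℓ := inter ℓ C
  map_add' _ _ := rfl
  map_smul' _ _ := rfl

/-- The nef cone. -/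
def NefCone (y : ι → K) : Set (NS k y) := {ℓ | ∀ C : Curve k y, 0 ≤ inter ℓ C}

/-- The closed cone of curves: the dual cone of the nef cone. -/
def CurveCone (y : ι → K) : Set (NC k y) := {x | ∀ ℓ ∈ NefCone k y, 0 ≤ x ℓ}

/-- The nef cone is spanned by finitely many semiample classes, that is, by the numerical classes of
finitely many morphisms to projective spaces. -/
def FinSemiample (y : ι → K) : Prop :=
  ∃ (n : ℕ) (ℓ : Fin n → NS k y),
    (∀ j, ∃ (m : ℕ) (w : Fin m → K), IsMor k y w ∧ IsClassOf k y w (inter (ℓ j))) ∧
    ∀ v ∈ NefCone k y, ∃ t : Fin n → ℝ, (∀ j, 0 ≤ t j) ∧ v = ∑ j, t j • ℓ j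

variable {k} in
/-- The ray spanned by `x`. -/
def ray {y : ι → K} (x : NC k y) : Set (NC k y) := {u | ∃ t : ℝ, 0 ≤ t ∧ u = t • x}

/-- `R` is an extremal ray of the closed cone of curves. -/
def ExtremalRay (y : ι → K) (R : Set (NC k y)) : Prop :=
  (∃ x ∈ CurveCone k y, x ≠ 0 ∧ R = ray x) ∧
    ∀ a ∈ CurveCone k y, ∀ b ∈ CurveCone k y, a + b ∈ R → a ∈ R ∧ b ∈ R

/-- The morphism `z` contracts the extremal ray `R`: it maps to points exactly the curves with classes
in `R`. -/
def ContractsRay (y : ι → K) (R : Set (NC k y)) (z : τ → K) : Prop :=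
  IsMor k y z ∧ ∀ C : Curve k y, Contracts k y z C ↔ curveClass C ∈ R

/-- All extremal contractions are fibrations: a morphism which contracts an extremal ray (maps to
points exactly the curves with classes in the ray) has an image of smaller dimension. -/
def FibreType (y : ι → K) : Prop :=
  ∀ R, ExtremalRay k y R → ∀ (M : ℕ) (z : Fin M → K), ContractsRay k y R z →
    Algebra.trdeg k (ratF k z) < Algebra.trdeg k K

end defs

end Pool.Agent.L5helper21.FN
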