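import Pool.Agent.L5helper21.FN.Inner

/-!
# Degrees of vectors over function fields of one variable
-/

set_option autoImplicit false

namespace Pool.Agent.L5helper21.FN

open MvPolynomial FF Module IntermediateField

section vmin

variable {k : Type} [Field k] {F : Type} [Field F] [Algebra k F] {τ σ : Type}

theorem vmin_le [Finite τ] (v : Place k F) (q : τ → F) {t : τ} (ht : q t ≠ 0) :
    vmin k v q ≤ v.ord (q t) :=
  ciInf_le (Set.finite_range _).bddBelow (⟨t, ht⟩ : {t // q t ≠ 0})

theorem exists_ne {q : τ → F} (hq : q ≠ 0) : ∃ t, q t ≠ 0 := by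
  by_contra h
  push Not at h
  exact hq (funext h)

theorem exists_vmin [Finite τ] (v : Place k F) {q : τ → F} (hq : q ≠ 0) :
    ∃ t, q t ≠ 0 ∧ v.ord (q t) = vmin k v q := by
  obtain ⟨t0, ht0⟩ := exists_ne hq
  have : Nonempty {t // q t ≠ 0} := ⟨⟨t0, ht0⟩⟩
  obtain ⟨t, ht⟩ := exists_eq_ciInf_of_finite (f := fun t : {t // q t ≠ 0} => v.ord (q t))
  exact ⟨t.1, t.2, ht⟩

theorem le_vmin (v : Place k F) {q : τ → F} (hq : q ≠ 0) {n : ℤ}
    (h : ∀ t, q t ≠ 0 → n ≤ v.ord (q t)) : n ≤ vmin k v q := by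
  obtain ⟨t0, ht0⟩ := exists_ne hq
  have : Nonempty {t // q t ≠ 0} := ⟨⟨t0, ht0⟩⟩
  exact le_ciInf fun t => h t.1 t.2

theorem vmin_eq [Finite τ] (v : Place k F) {q : τ → F} {n : ℤ}
    (h : ∀ t, q t ≠ 0 → n ≤ v.ord (q t)) {t : τ} (ht : q t ≠ 0) (h1 : v.ord (q t) = n) :
    vmin k v q = n :=
  le_antisymm (h1 ▸ vmin_le v q ht) (le_vmin v (fun h0 => ht (congrFun h0 t)) h)

theorem smul_ne {q : τ → F} (hq : q ≠ 0) {c : F} (hc : c ≠ 0) : (fun t => c * q t) ≠ 0 := by
  obtain ⟨t, ht⟩ := exists_ne hq
  exact fun h => mul_ne_zero hc ht (congrFun h t)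

theorem vmin_smul [Finite τ] (v : Place k F) {q : τ → F} (hq : q ≠ 0) {c : F} (hc : c ≠ 0) :
    vmin k v (fun t => c * q t) = v.ord c + vmin k v q := by
  obtain ⟨t, ht, h1⟩ := exists_vmin v hq
  refine vmin_eq v (fun s hs => ?_) (mul_ne_zero hc ht) (by rw [v.ord_mul hc ht, h1])
  have hs' : q s ≠ 0 := right_ne_zero_of_mul hs
  rw [v.ord_mul hc hs']
  have := vmin_le v q hs'
  omega

theorem reg_of_ge {v : Place k F} {a b : F} (hb : b ≠ 0) (h : a = 0 ∨ v.ord b ≤ v.ord a) :
    v.Reg (a / b) := by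
  rcases h with h | h
  · left; rw [h, zero_div]
  · by_cases ha : a = 0
    · left; rw [ha, zero_div]
    · right; rw [v.ord_div ha hb]; omega

theorem reg_sum {α : Type*} {v : Place k F} {s : Finset α} {f : α → F} (h : ∀ a ∈ s, v.Reg (f a)) :
    v.Reg (∑ a ∈ s, f a) := by
  classical
  induction s using Finset.induction_on with
  | empty => left; simp
  | insert a s ha ih =>
    rw [Finset.sum_insert ha]
    exact v.reg_add (h a (Finset.mem_insert_self _ _))
      (ih fun b hb => h b (Finset.mem_insert_of_mem hb))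

theorem reg_prod {α : Type*} {v : Place k F} {s : Finset α} {f : α → F} (h : ∀ a ∈ s, v.Reg (f a)) :
    v.Reg (∏ a ∈ s, f a) := by
  classical
  induction s using Finset.induction_on with
  | empty => rw [Finset.prod_empty]; exact v.reg_one
  | insert a s ha ih =>
    rw [Finset.prod_insert ha]
    exact v.reg_mul (h a (Finset.mem_insert_self _ _))
      (ih fun b hb => h b (Finset.mem_insert_of_mem hb))

theorem reg_pow {v : Place k F} {a : F} (h : v.Reg a) (n : ℕ) : v.Reg (a ^ n) := by
  induction n with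
  | zero => rw [pow_zero]; exact v.reg_one
  | succ n ih => rw [pow_succ]; exact v.reg_mul ih h

theorem reg_aeval {v : Place k F} {p : σ → F} (h : ∀ i, v.Reg (p i)) (G : MvPolynomial σ k) :
    v.Reg (aeval p G) := by
  rw [aeval_def, eval₂_eq]
  exact reg_sum fun d _ => v.reg_mul (v.reg_const _) (reg_prod fun i _ => reg_pow (h i) _)

/-- a form of degree `m` has order at least `m` times the smallest order of the coordinates -/
theorem ord_form [Finite σ] (v : Place k F) {p : σ → F} (hp : p ≠ 0) {G : MvPolynomial σ k} {m : ℕ}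
    (hG : G.IsHomogeneous m) (h : aeval p G ≠ 0) : m * vmin k v p ≤ v.ord (aeval p G) := by
  obtain ⟨t, ht, h1⟩ := exists_vmin v hp
  have h2 : ∀ i, v.Reg ((p t)⁻¹ * p i) := by
    intro i
    rw [inv_mul_eq_div]
    refine reg_of_ge ht ?_
    by_cases hi : p i = 0
    · exact Or.inl hi
    · right; rw [h1]; exact vmin_le v p hi
  have h3 := reg_aeval h2 G
  rw [hom_smul hG] at h3
  have h4 : (p t)⁻¹ ^ m ≠ 0 := pow_ne_zero _ (inv_ne_zero ht)
  rcases h3 with h3 | h3
  · exact absurd h3 (mul_ne_zero h4 h)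
  · rw [v.ord_mul h4 h, v.ord_pow, v.ord_inv, h1] at h3
    linarith

/-- linear combinations with constant coefficients -/
noncomputable def lin [Fintype τ] (q : τ → F) : (τ → k) →ₗ[k] F where
  toFun a := ∑ t, algebraMap k F (a t) * q t
  map_add' a b := by simp [add_mul, Finset.sum_add_distrib]
  map_smul' c a := by simp [Finset.mul_sum, mul_assoc, Algebra.smul_def]

theorem lin_apply [Fintype τ] (q : τ → F) (a : τ → k) :
    lin q a = ∑ t, algebraMap k F (a t) * q t := rfl

theorem reg_lin [Fintype τ] {v : Place k F} {q : τ → F} {b : F} (hb : b ≠ 0)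
    (h : ∀ t, q t = 0 ∨ v.ord b ≤ v.ord (q t)) (a : τ → k) : v.Reg (lin q a / b) := by
  rw [lin_apply, Finset.sum_div]
  refine reg_sum fun t _ => ?_
  rw [mul_div_assoc]
  exact v.reg_mul (v.reg_const _) (reg_of_ge hb (h t))

theorem lin_ge [Fintype τ] {v : Place k F} {q : τ → F} (hq : q ≠ 0) (a : τ → k)
    (h : lin q a ≠ 0) : vmin k v q ≤ v.ord (lin q a) := by
  obtain ⟨t, ht, h1⟩ := exists_vmin v hq
  have h2 := reg_lin (v := v) ht (fun s => by
    by_cases hs : q s = 0
    · exact Or.inl hs
    · right; rw [h1]; exact vmin_le v q hs) a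
  rcases h2 with h2 | h2
  · exact absurd h2 (div_ne_zero h ht)
  · rw [v.ord_div h ht, h1] at h2
    omega

/-- the linear combinations whose order is too large form a proper subspace -/
noncomputable def bad [Fintype τ] (v : Place k F) (q : τ → F) : Submodule k (τ → k) where
  carrier := {a | lin q a = 0 ∨ vmin k v q < v.ord (lin q a)}
  zero_mem' := by left; simp
  add_mem' := by
    intro a b ha hb
    simp only [Set.mem_ofPred_eq] at ha hb ⊢
    rw [map_add]
    by_cases h0 : lin q a = 0
    · rw [h0, zero_add]; exact hb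
    by_cases h1 : lin q b = 0
    · rw [h1, add_zero]; exact ha
    by_cases h2 : lin q a + lin q b = 0
    · exact Or.inl h2
    · right
      have := v.ord_add h0 h1 h2
      have h3 := ha.resolve_left h0
      have h4 := hb.resolve_left h1
      omega
  smul_mem' := by
    intro c a ha
    simp only [Set.mem_ofPred_eq] at ha ⊢
    rw [map_smul, Algebra.smul_def]
    by_cases hc : c = 0
    · left; simp [hc]
    · rcases ha with ha | ha
      · left; rw [ha, mul_zero]
      · by_cases h0 : lin q a = 0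
        · left; rw [h0, mul_zero]
        · right
          rw [v.ord_mul (by simpa using hc) h0, v.ord_const hc, zero_add]
          exact ha

theorem bad_ne_top [Fintype τ] (v : Place k F) (q : τ → F) (hq : q ≠ 0) : bad v q ≠ ⊤ := by
  classical
  obtain ⟨t, ht, h1⟩ := exists_vmin v hq
  intro h
  have h2 : Pi.single t (1 : k) ∈ bad v q := h ▸ Submodule.mem_top
  have h3 : lin q (Pi.single t (1 : k)) = q t := by
    rw [lin_apply, Finset.sum_eq_single t]
    · simp
    · intro s _ hs; simp [Pi.single_eq_of_ne hs]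
    · simp
  rcases h2 with h2 | h2
  · exact ht (h3 ▸ h2)
  · rw [h3, h1] at h2
    exact lt_irrefl _ h2

end vmin

section vdeg

variable {k : Type} [Field k] [CharZero k] {F : Type} [Field F] [Algebra k F] [IsFF k F] {τ σ : Type}

theorem vmin_finite [Finite τ] {q : τ → F} (hq : q ≠ 0) : {v : Place k F | vmin k v q ≠ 0}.Finite := by
  have h1 : (⋃ t : τ, {v : Place k F | v.ord (q t) ≠ 0}).Finite :=
    Set.finite_iUnion fun t => finite_support (q t)
  refine h1.subset fun v hv => ?_
  obtain ⟨t, ht, h2⟩ := exists_vmin v hq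
  rw [Set.mem_iUnion]
  refine ⟨t, ?_⟩
  rw [Set.mem_ofPred_eq, h2]
  exact hv

/-- the divisor of the smallest orders -/
noncomputable def vdiv (k : Type) [Field k] [CharZero k] {F : Type} [Field F] [Algebra k F]
    [IsFF k F] {τ : Type} [Finite τ] (q : τ → F) (hq : q ≠ 0) : Place k F →₀ ℤ :=
  Finsupp.ofSupportFinite (fun v => vmin k v q) (vmin_finite hq)

theorem vdiv_apply [Finite τ] (q : τ → F) (hq : q ≠ 0) (v : Place k F) :
    vdiv k q hq v = vmin k v q := rfl

/-- over an algebraically closed field all places have degree one -/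
theorem deg_one [IsAlgClosed k] (v : Place k F) : v.deg = 1 := by
  have hbij : Function.Bijective (algebraMap k v.RF) :=
    IsAlgClosed.algebraMap_bijective_of_isIntegral
  let e : k ≃ₐ[k] v.RF := AlgEquiv.ofBijective (Algebra.ofId k v.RF) hbij
  have h1 := e.toLinearEquiv.finrank_eq
  rw [finrank_self] at h1
  exact h1.symm

theorem vdeg_eq [IsAlgClosed k] [Finite τ] (q : τ → F) (hq : q ≠ 0) :
    vdeg k q = - ddeg (vdiv k q hq) := by
  unfold vdeg ddeg
  rw [Finsupp.sum, finsum_eq_sum_of_support_subset]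
  · congr 1
    refine Finset.sum_congr rfl fun v _ => ?_
    rw [deg_one, Nat.cast_one, mul_one]
    rfl
  · intro v hv
    rw [Function.mem_support] at hv
    rw [Finset.mem_coe, Finsupp.mem_support_iff]
    exact hv

variable [IsAlgClosed k]

theorem vdeg_smul [Finite τ] {q : τ → F} (hq : q ≠ 0) {c : F} (hc : c ≠ 0) :
    vdeg k (fun t => c * q t) = vdeg k q := by
  rw [vdeg_eq _ (smul_ne hq hc), vdeg_eq _ hq]
  have h1 : vdiv k _ (smul_ne hq hc) = divisor k c + vdiv k q hq := by
    ext v
    rw [Finsupp.add_apply, vdiv_apply, vdiv_apply, vmin_smul v hq hc, divisor_apply]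
  rw [h1, ddeg_add, ddeg_divisor, zero_add]

theorem vdeg_mono [Finite τ] [Finite σ] {q : τ → F} {r : σ → F} (hq : q ≠ 0) (hr : r ≠ 0) {n : ℕ}
    (h : ∀ v : Place k F, n * vmin k v q ≤ vmin k v r) : vdeg k r ≤ n * vdeg k q := by
  rw [vdeg_eq _ hq, vdeg_eq _ hr]
  have h1 : n • vdiv k q hq ≤ vdiv k r hr := by
    intro v
    rw [Finsupp.smul_apply, vdiv_apply, vdiv_apply, nsmul_eq_mul]
    exact h v
  have h2 := ddeg_mono h1
  rw [ddeg_nsmul] at h2
  linarith

theorem vdeg_congr [Finite τ] [Finite σ] {q : τ → F} {r : σ → F} (hq : q ≠ 0) (hr : r ≠ 0) {n : ℕ}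
    (h : ∀ v : Place k F, n * vmin k v q = vmin k v r) : vdeg k r = n * vdeg k q := by
  rw [vdeg_eq _ hq, vdeg_eq _ hr]
  have h1 : vdiv k r hr = n • vdiv k q hq := by
    ext v
    rw [Finsupp.smul_apply, vdiv_apply, vdiv_apply, nsmul_eq_mul]
    exact (h v).symm
  rw [h1, ddeg_nsmul]
  ring

theorem ddeg_pos {D : Place k F →₀ ℤ} (h : 0 ≤ D) (h0 : D ≠ 0) : 0 < ddeg D := by
  obtain ⟨v, hv⟩ : ∃ v, D v ≠ 0 := by
    by_contra hc
    push Not at hc
    exact h0 (Finsupp.ext hc)
  unfold ddeg
  refine Finset.sum_pos' (fun w _ => mul_nonneg (h w) (by positivity)) ⟨v, ?_, ?_⟩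
  · exact Finsupp.mem_support_iff.2 hv
  · have h1 : (0 : ℤ) < D v := lt_of_le_of_ne (h v) hv.symm
    have h2 := v.deg_pos
    positivity

theorem vdeg_lt [Finite τ] [Finite σ] {q : τ → F} {r : σ → F} (hq : q ≠ 0) (hr : r ≠ 0) {n : ℕ}
    (h : ∀ v : Place k F, n * vmin k v q ≤ vmin k v r)
    (h' : ∃ v : Place k F, n * vmin k v q < vmin k v r) : vdeg k r < n * vdeg k q := by
  rw [vdeg_eq _ hq, vdeg_eq _ hr]
  have h1 : 0 ≤ vdiv k r hr - n • vdiv k q hq := by
    rw [sub_nonneg]
    intro v
    rw [Finsupp.smul_apply, vdiv_apply, vdiv_apply, nsmul_eq_mul]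
    exact h v
  have h2 : vdiv k r hr - n • vdiv k q hq ≠ 0 := by
    obtain ⟨v, hv⟩ := h'
    intro h3
    have := DFunLike.congr_fun h3 v
    rw [Finsupp.sub_apply, Finsupp.smul_apply, vdiv_apply, vdiv_apply, nsmul_eq_mul,
      Finsupp.zero_apply] at this
    omega
  have h3 := ddeg_pos h1 h2
  rw [ddeg_sub, ddeg_nsmul] at h3
  linarith

omit [CharZero k] [IsFF k F] in
/-- constant vectors have degree zero -/
theorem vdeg_const [Finite τ] (q : τ → k) (hq : q ≠ 0) :
    vdeg k (fun t => algebraMap k F (q t)) = 0 := by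
  have hq' : (fun t => algebraMap k F (q t)) ≠ 0 := by
    obtain ⟨t, ht⟩ := exists_ne hq
    intro h
    exact ht ((map_eq_zero (algebraMap k F)).1 (congrFun h t))
  have h1 : ∀ v : Place k F, vmin k v (fun t => algebraMap k F (q t)) = 0 := by
    intro v
    obtain ⟨t, ht, h2⟩ := exists_vmin v hq'
    rw [← h2]
    exact v.ord_const (fun h => ht (by rw [h, map_zero]))
  unfold vdeg
  simp [h1]

/-- a function without poles is algebraic over the constants -/
theorem isAlgebraic_of_reg {f : F} (h : ∀ v : Place k F, v.Reg f) : IsAlgebraic k f := by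
  by_contra hc
  have h1 : polar (k := k) f = 0 := by
    ext v
    rw [polar_apply, Finsupp.zero_apply]
    apply max_eq_right
    rcases h v with h | h
    · rw [h, v.ord_zero, neg_zero]
    · omega
  have h2 := ddeg_polar (k := k) (f := f) hc
  rw [h1, ddeg_zero] at h2
  have h3 := IsFF.finite (k := k) (K := F) (f := f) hc
  have h4 : 0 < finrank k⟮f⟯ F := finrank_pos
  omega

theorem exists_pole {f : F} (h : Transcendental k f) : ∃ v : Place k F, f ≠ 0 ∧ v.ord f < 0 := by
  by_contra hc
  push Not at hc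
  apply h
  apply isAlgebraic_of_reg
  intro v
  by_cases hf : f = 0
  · exact Or.inl hf
  · exact Or.inr (hc v hf)

omit [CharZero k] [IsFF k F] in
theorem mem_of_alg {f : F} (h : IsAlgebraic k f) : ∃ a : k, algebraMap k F a = f :=
  minpoly.mem_range_of_degree_eq_one k f
    (IsAlgClosed.degree_eq_one_of_irreducible k (minpoly.irreducible h.isIntegral))

/-- vectors of degree zero are constant -/
theorem const_of_vdeg [Finite τ] {q : τ → F} (hq : q ≠ 0) (h : vdeg k q = 0) :
    ∃ (c : F) (a : τ → k), c ≠ 0 ∧ ∀ t, q t = c * algebraMap k F (a t) := by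
  obtain ⟨t, ht⟩ := exists_ne hq
  have hti : (q t)⁻¹ ≠ 0 := inv_ne_zero ht
  have hr : (fun s => (q t)⁻¹ * q s) ≠ 0 := smul_ne hq hti
  have h1 : vdeg k (fun s => (q t)⁻¹ * q s) = 0 := by rw [vdeg_smul hq hti, h]
  have h2 : ∀ v : Place k F, vmin k v (fun s => (q t)⁻¹ * q s) ≤ 0 := by
    intro v
    have := vmin_le v (fun s => (q t)⁻¹ * q s) (t := t) (by simp [ht])
    simpa [inv_mul_cancel₀ ht, v.ord_one] using this
  have h3 : vdiv k _ hr = 0 := by
    by_contra hc
    have h4 : 0 < ddeg (- vdiv k _ hr) := by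
      refine ddeg_pos (fun v => ?_) (fun h => hc (by simpa using h))
      rw [Finsupp.neg_apply, vdiv_apply]
      have := h2 v
      simpa using this
    rw [ddeg_neg, ← vdeg_eq _ hr] at h4
    omega
  have h5 : ∀ s, ∃ a : k, (q t)⁻¹ * q s = algebraMap k F a := by
    intro s
    have h6 : IsAlgebraic k ((q t)⁻¹ * q s) := by
      apply isAlgebraic_of_reg
      intro v
      by_cases h0 : (q t)⁻¹ * q s = 0
      · exact Or.inl h0
      · right
        have h7 := vmin_le v (fun s => (q t)⁻¹ * q s) (t := s) h0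
        have h8 := DFunLike.congr_fun h3 v
        rw [vdiv_apply, Finsupp.zero_apply] at h8
        rw [h8] at h7
        exact h7
    obtain ⟨a, ha⟩ := mem_of_alg h6
    exact ⟨a, ha.symm⟩
  choose a ha using h5
  refine ⟨q t, a, ht, fun s => ?_⟩
  rw [← ha s, mul_inv_cancel_left₀ ht]

theorem vdeg_nonneg [Finite τ] {q : τ → F} (hq : q ≠ 0) : 0 ≤ vdeg k q := by
  obtain ⟨t, ht⟩ := exists_ne hq
  have hti : (q t)⁻¹ ≠ 0 := inv_ne_zero ht
  have hr : (fun s => (q t)⁻¹ * q s) ≠ 0 := smul_ne hq hti
  rw [← vdeg_smul hq hti, vdeg_eq _ hr]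
  have h4 : 0 ≤ ddeg (- vdiv k _ hr) := by
    refine ddeg_nonneg (fun v => ?_)
    rw [Finsupp.neg_apply, vdiv_apply]
    have := vmin_le v (fun s => (q t)⁻¹ * q s) (t := t) (by simp [ht])
    have h2 : vmin k v (fun s => (q t)⁻¹ * q s) ≤ 0 := by
      simpa [inv_mul_cancel₀ ht, v.ord_one] using this
    simpa using h2
  rw [ddeg_neg] at h4
  exact h4

/-- the pole divisor of a general quotient of two linear combinations -/
theorem ddeg_polar_lin [Fintype τ] {q : τ → F} (hq : q ≠ 0) {t : τ} (ht : q t ≠ 0) {a : τ → k}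
    (ha : ∀ v : Place k F, vmin k v q < v.ord (q t) → a ∉ bad v q) :
    ddeg (polar (k := k) (lin q a / q t)) = vdeg k q := by
  have h1 : polar (k := k) (lin q a / q t) = divisor k (q t) - vdiv k q hq := by
    ext v
    rw [polar_apply, Finsupp.sub_apply, vdiv_apply, divisor_apply]
    have h2 := vmin_le v q ht
    rcases h2.lt_or_eq with h2 | h2
    · have h3 := ha v h2
      have h4 : ¬ (lin q a = 0 ∨ vmin k v q < v.ord (lin q a)) := h3
      push Not at h4
      have h5 := lin_ge (v := v) hq a h4.1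
      rw [v.ord_div h4.1 ht]
      have h6 := h4.2
      rw [max_eq_left (by omega)]
      omega
    · have h3 := reg_lin (v := v) ht (fun s => by
        by_cases hs : q s = 0
        · exact Or.inl hs
        · right; rw [← h2]; exact vmin_le v q hs) a
      rw [h2, sub_self]
      apply max_eq_right
      rcases h3 with h3 | h3
      · rw [h3, v.ord_zero, neg_zero]
      · omega
  rw [h1, ddeg_sub, ddeg_divisor, vdeg_eq q hq]
  ring

theorem finite_lt [Finite τ] {q : τ → F} (hq : q ≠ 0) (t : τ) :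
    {v : Place k F | vmin k v q < v.ord (q t)}.Finite := by
  refine ((vmin_finite hq).union (finite_support (k := k) (q t))).subset fun v hv => ?_
  rw [Set.mem_ofPred_eq] at hv
  by_cases h : vmin k v q = 0
  · right
    rw [Set.mem_ofPred_eq]
    omega
  · exact Or.inl h

end vdeg

section baseChange

variable {k : Type} [Field k] [CharZero k] [IsAlgClosed k] {F F₁ : Type} [Field F] [Algebra k F]
  [IsFF k F] [Field F₁] [Algebra k F₁] [IsFF k F₁] [Algebra F F₁] [IsScalarTower k F F₁]
  [FiniteDimensional F F₁] {τ : Type}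

/-- the degree over a finite extension -/
theorem vdeg_baseChange [Finite τ] {q : τ → F} (hq : q ≠ 0) :
    vdeg k (fun t => algebraMap F F₁ (q t)) = finrank F F₁ * vdeg k q := by
  classical
  have : Fintype τ := Fintype.ofFinite τ
  have hinj : Function.Injective (algebraMap F F₁) := (algebraMap F F₁).injective
  by_cases h0 : vdeg k q = 0
  · obtain ⟨c, a, hc, ha⟩ := const_of_vdeg hq h0
    have ha0 : a ≠ 0 := by
      rintro rfl
      apply hq
      ext t
      rw [ha t]; simp
    have h1 : (fun t => algebraMap F F₁ (q t)) =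
        fun t => algebraMap F F₁ c * algebraMap k F₁ (a t) := by
      funext t
      rw [ha t, map_mul, ← IsScalarTower.algebraMap_apply]
    have h2 : (fun t => algebraMap k F₁ (a t)) ≠ 0 := by
      obtain ⟨t, ht⟩ := exists_ne ha0
      intro h
      exact ht ((map_eq_zero (algebraMap k F₁)).1 (congrFun h t))
    rw [h1, vdeg_smul h2 ((map_ne_zero _).2 hc), vdeg_const a ha0, h0, mul_zero]
  · obtain ⟨t, ht⟩ := exists_ne hq
    let q₁ : τ → F₁ := fun t => algebraMap F F₁ (q t)
    have ht₁ : q₁ t ≠ 0 := (map_ne_zero _).2 ht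
    have hq₁ : q₁ ≠ 0 := fun h => ht₁ (congrFun h t)
    let S : Finset (Submodule k (τ → k)) := (finite_lt (k := k) hq t).toFinset.image
      (fun v => bad v q) ∪ (finite_lt (k := k) hq₁ t).toFinset.image (fun v => bad v q₁)
    have hS : (⊤ : Submodule k (τ → k)) ∉ S := by
      intro h
      rcases Finset.mem_union.1 h with h | h
      · obtain ⟨v, -, hv⟩ := Finset.mem_image.1 h
        exact bad_ne_top v q hq hv
      · obtain ⟨v, -, hv⟩ := Finset.mem_image.1 h
        exact bad_ne_top v q₁ hq₁ hv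
    have h1 := Subspace.biUnion_ne_univ_of_top_notMem hS
    obtain ⟨a, ha⟩ := (Set.ne_univ_iff_exists_notMem _).1 h1
    simp only [Set.mem_iUnion, not_exists] at ha
    have ha1 : ∀ v : Place k F, vmin k v q < v.ord (q t) → a ∉ bad v q := by
      intro v hv
      refine ha (bad v q) ?_
      refine Finset.mem_union_left _ (Finset.mem_image.2 ⟨v, ?_, rfl⟩)
      rw [Set.Finite.mem_toFinset]; exact hv
    have ha2 : ∀ v : Place k F₁, vmin k v q₁ < v.ord (q₁ t) → a ∉ bad v q₁ := by
      intro v hv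
      refine ha (bad v q₁) ?_
      refine Finset.mem_union_right _ (Finset.mem_image.2 ⟨v, ?_, rfl⟩)
      rw [Set.Finite.mem_toFinset]; exact hv
    have h2 := ddeg_polar_lin hq ht ha1
    have h3 := ddeg_polar_lin hq₁ ht₁ ha2
    have h4 : lin q₁ a / q₁ t = algebraMap F F₁ (lin q a / q t) := by
      rw [map_div₀, lin_apply, lin_apply, map_sum]
      congr 1
      refine Finset.sum_congr rfl fun s _ => ?_
      rw [map_mul, ← IsScalarTower.algebraMap_apply]
    have htr : Transcendental k (lin q a / q t) := by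
      intro halg
      have h5 : polar (k := k) (lin q a / q t) = 0 := by
        ext v
        rw [polar_apply, Finsupp.zero_apply]
        have := v.reg_of_isIntegral (A := k) v.reg_const halg.isIntegral
        apply max_eq_right
        rcases this with h | h
        · rw [h, v.ord_zero, neg_zero]
        · omega
      rw [h5, ddeg_zero] at h2
      exact h0 h2.symm
    have htr₁ : Transcendental k (algebraMap F F₁ (lin q a / q t)) := by
      intro halg
      exact htr ((isAlgebraic_algebraMap_iff hinj).1 halg)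
    rw [ddeg_polar htr] at h2
    rw [h4, ddeg_polar htr₁] at h3
    rw [← h2, ← h3]
    set g := lin q a / q t with hg
    have hfin := IsFF.finite (k := k) (K := F) htr
    -- the tower
    let E : IntermediateField k F := k⟮g⟯
    let E₁ : IntermediateField k F₁ := k⟮algebraMap F F₁ g⟯
    have hmap : E.map (IsScalarTower.toAlgHom k F F₁) = E₁ := by
      simp [E, E₁, IntermediateField.adjoin_map]
    let e : E ≃ₐ[k] E₁ :=
      (E.equivMap (IsScalarTower.toAlgHom k F F₁)).trans (IntermediateField.equivOfEq hmap)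
    have h6 : finrank E F₁ = finrank E₁ F₁ := by
      refine Algebra.finrank_eq_of_equiv_equiv e.toRingEquiv (RingEquiv.refl F₁) ?_
      ext x
      rfl
    have h7 : finrank E F * finrank F F₁ = finrank E F₁ := finrank_mul_finrank E F F₁
    have h8 : finrank E₁ F₁ = finrank F F₁ * finrank E F := by rw [← h6, ← h7, mul_comm]
    show ((finrank E₁ F₁ : ℕ) : ℤ) = (finrank F F₁ : ℕ) * (finrank E F : ℕ)
    rw [h8]; push_cast; ring

end baseChange

end Pool.Agent.L5helper21.FN
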